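import Pool.Agent.V5helper78.KK.Gen

set_option autoImplicit false

/-!
# Linear perturbations: a maximal inequality with logarithmic loss
-/

open MeasureTheory Set Filter Topology ENNReal NNReal Metric

namespace Pool.Agent.V5helper78.KK

/-- Truncated section bound. -/
theorem sec_trunc {d m : ℕ} (a : (Fin d → ℝ) → Fin d → ℝ) (ψ : (Fin d → ℝ) → Fin m → ℝ)
    {ρ r : ℝ} (hρ : 0 < ρ) (hr : 0 < r) (p q : (Fin d → ℝ) × ℝ) :
    lam d m ρ {C | (C, (p, q)) ∈ G a ψ r} ≤ 1 *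
      min (lam d m ρ univ)
        (ENNReal.ofReal (((2 * ρ) ^ (m - 1) * (2 * r)) ^ d) * (edist (ψ p.1) (ψ q.1) ^ d)⁻¹) *
        {s : ℝ | |p.2 - s| < r}.indicator 1 q.2 := by
  have h1 := sec_bound a ψ hρ hr p q
  rw [one_mul]
  by_cases hts : q.2 ∈ {s : ℝ | |p.2 - s| < r}
  · rw [indicator_of_mem hts] at h1 ⊢
    simp only [Pi.one_apply, mul_one] at h1 ⊢
    exact le_min (measure_mono (subset_univ _)) h1
  · rw [indicator_of_notMem hts] at h1 ⊢
    rw [mul_zero] at h1 ⊢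
    exact h1

/-- Dyadic scales. -/
noncomputable def dk (k : ℕ) : ℝ := (1 / 2) ^ k

theorem dk_pos (k : ℕ) : 0 < dk k := by
  unfold dk
  positivity

/-- Volume of balls of radius `2^(-k)`. -/
noncomputable def wk (d k : ℕ) : ℝ≥0∞ := ENNReal.ofReal (dk k) ^ (d + 1) * cn d

theorem wk_eq (d k : ℕ) (x : E (d + 1)) : volume (ball x (dk k)) = wk d k := by
  rw [EuclideanSpace.volume_ball]
  simp only [Fintype.card_fin]
  rfl

theorem wk_ne_zero (d k : ℕ) : wk d k ≠ 0 := by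
  unfold wk
  have h1 := dk_pos k
  refine mul_ne_zero (pow_ne_zero _ ?_) (cn_ne_zero d)
  simpa using h1

theorem wk_ne_top (d k : ℕ) : wk d k ≠ ∞ :=
  ENNReal.mul_ne_top (ENNReal.pow_ne_top ENNReal.ofReal_ne_top) (cn_ne_top d)

/-- Dyadic majorant of the truncated kernel. -/
noncomputable def maj (d k : ℕ) (x : ℝ) : ℝ≥0∞ :=
  1 + ∑ j ∈ Finset.range (k + 1), {y : ℝ | y ≤ (1 / 2) ^ j}.indicator
    (fun _ => ENNReal.ofReal ((2 ^ (j + 1)) ^ d)) x

theorem maj_ge {d k : ℕ} {x : ℝ} (hx : 0 < x) (hxk : (1 / 2) ^ k < x) :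
    ENNReal.ofReal ((x ^ d)⁻¹) ≤ maj d k x := by
  unfold maj
  rcases lt_or_ge 1 x with h1 | h1
  · have : (x ^ d)⁻¹ ≤ 1 := by
      rw [inv_le_one₀ (by positivity)]
      exact one_le_pow₀ h1.le
    calc ENNReal.ofReal ((x ^ d)⁻¹) ≤ ENNReal.ofReal 1 := ENNReal.ofReal_le_ofReal this
      _ = 1 := ENNReal.ofReal_one
      _ ≤ _ := le_self_add
  · obtain ⟨j, hj1, hj2⟩ := exists_nat_pow_near_of_lt_one hx h1 (by norm_num : (0 : ℝ) < 1 / 2)
      (by norm_num)
    have hjk : j < k + 1 := by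
      by_contra hcon
      push Not at hcon
      have : x ≤ (1 / 2) ^ k := hj2.trans
        (pow_le_pow_of_le_one (by norm_num) (by norm_num) (by omega))
      linarith
    have h3 : (x ^ d)⁻¹ ≤ (2 ^ (j + 1)) ^ d := by
      rw [← inv_pow]
      gcongr
      rw [inv_le_comm₀ hx (by positivity)]
      have : ((2 : ℝ) ^ (j + 1))⁻¹ = (1 / 2) ^ (j + 1) := by rw [← inv_pow]; norm_num
      rw [this]
      exact hj1.le
    calc ENNReal.ofReal ((x ^ d)⁻¹) ≤ ENNReal.ofReal ((2 ^ (j + 1)) ^ d) :=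
          ENNReal.ofReal_le_ofReal h3
      _ = {y : ℝ | y ≤ (1 / 2) ^ j}.indicator (fun _ => ENNReal.ofReal ((2 ^ (j + 1)) ^ d)) x := by
          rw [indicator_of_mem (show x ∈ {y : ℝ | y ≤ (1 / 2) ^ j} from hj2)]
      _ ≤ ∑ j ∈ Finset.range (k + 1), {y : ℝ | y ≤ (1 / 2) ^ j}.indicator
            (fun _ => ENNReal.ofReal ((2 ^ (j + 1)) ^ d)) x :=
          Finset.single_le_sum (f := fun j => {y : ℝ | y ≤ (1 / 2) ^ j}.indicator
            (fun _ => ENNReal.ofReal ((2 ^ (j + 1)) ^ d)) x) (fun _ _ => zero_le)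
            (Finset.mem_range.2 hjk)
      _ ≤ _ := le_add_self

theorem maj_ge2 {d k : ℕ} {x : ℝ} (hxk : x ≤ (1 / 2) ^ k) :
    ENNReal.ofReal ((dk k ^ d)⁻¹) ≤ maj d k x := by
  unfold maj
  have h3 : (dk k ^ d)⁻¹ ≤ (2 ^ (k + 1)) ^ d := by
    have h4 : (dk k)⁻¹ = 2 ^ k := by
      unfold dk
      rw [← inv_pow]
      norm_num
    rw [← inv_pow, h4]
    have h5 : (2 : ℝ) ^ k ≤ 2 ^ (k + 1) := pow_le_pow_right₀ (by norm_num) (Nat.le_succ k)
    gcongr
  calc ENNReal.ofReal ((dk k ^ d)⁻¹) ≤ ENNReal.ofReal ((2 ^ (k + 1)) ^ d) :=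
        ENNReal.ofReal_le_ofReal h3
    _ = {y : ℝ | y ≤ (1 / 2) ^ k}.indicator (fun _ => ENNReal.ofReal ((2 ^ (k + 1)) ^ d)) x := by
        rw [indicator_of_mem (show x ∈ {y : ℝ | y ≤ (1 / 2) ^ k} from hxk)]
    _ ≤ ∑ j ∈ Finset.range (k + 1), {y : ℝ | y ≤ (1 / 2) ^ j}.indicator
          (fun _ => ENNReal.ofReal ((2 ^ (j + 1)) ^ d)) x :=
        Finset.single_le_sum (f := fun j => {y : ℝ | y ≤ (1 / 2) ^ j}.indicator
          (fun _ => ENNReal.ofReal ((2 ^ (j + 1)) ^ d)) x) (fun _ _ => zero_le)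
          (Finset.mem_range.2 (Nat.lt_succ_self k))
    _ ≤ _ := le_add_self

/-- Pointwise bound of the truncated kernel. -/
theorem trunc_le {d : ℕ} (L : ℝ≥0∞) {c : ℝ} (hc : 0 ≤ c) (k : ℕ) (v w : Fin d → ℝ) :
    min L (ENNReal.ofReal (c * dk k ^ d) * (edist v w ^ d)⁻¹) ≤
      (L + ENNReal.ofReal c) * ENNReal.ofReal (dk k ^ d) * maj d k (dist v w) := by
  have hdk := dk_pos k
  rcases le_or_gt (dist v w) ((1 / 2) ^ k) with h | h
  · calc min L (ENNReal.ofReal (c * dk k ^ d) * (edist v w ^ d)⁻¹) ≤ L := min_le_left _ _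
      _ = L * (ENNReal.ofReal (dk k ^ d) * ENNReal.ofReal ((dk k ^ d)⁻¹)) := by
          rw [← ENNReal.ofReal_mul (by positivity), mul_inv_cancel₀ (by positivity),
            ENNReal.ofReal_one, mul_one]
      _ ≤ (L + ENNReal.ofReal c) * (ENNReal.ofReal (dk k ^ d) * maj d k (dist v w)) := by
          gcongr
          · exact le_self_add
          · exact maj_ge2 h
      _ = _ := by ring
  · have h0 : 0 < dist v w := lt_trans (by positivity) h
    calc min L (ENNReal.ofReal (c * dk k ^ d) * (edist v w ^ d)⁻¹)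
        ≤ ENNReal.ofReal (c * dk k ^ d) * (edist v w ^ d)⁻¹ := min_le_right _ _
      _ = ENNReal.ofReal c * (ENNReal.ofReal (dk k ^ d) * ENNReal.ofReal ((dist v w ^ d)⁻¹)) := by
          rw [edist_dist, ← ENNReal.ofReal_pow h0.le, ← ENNReal.ofReal_inv_of_pos (by positivity),
            ENNReal.ofReal_mul hc, mul_assoc]
      _ ≤ (L + ENNReal.ofReal c) * (ENNReal.ofReal (dk k ^ d) * maj d k (dist v w)) := by
          gcongr
          · exact le_add_self
          · exact maj_ge h0 h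
      _ = _ := by ring

theorem maj_int {d : ℕ} (N : ℝ) (k : ℕ) (v : Fin d → ℝ) :
    ∫⁻ w, maj d k (dist v w) ∂(nud d N) ≤ (nud d N univ + 4 ^ d) * ((k : ℝ≥0∞) + 1) := by
  unfold maj
  have hm : ∀ j : ℕ, Measurable (fun w : Fin d → ℝ => {y : ℝ | y ≤ (1 / 2) ^ j}.indicator
      (fun _ => ENNReal.ofReal ((2 ^ (j + 1)) ^ d)) (dist v w)) := by
    intro j
    have h1 : Measurable (fun y : ℝ => {y : ℝ | y ≤ (1 / 2) ^ j}.indicator
      (fun _ => ENNReal.ofReal ((2 ^ (j + 1)) ^ d)) y) :=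
      measurable_const.indicator measurableSet_Iic
    exact h1.comp (by fun_prop)
  rw [lintegral_add_left measurable_const, lintegral_finsetSum _ (fun j _ => hm j)]
  have hj : ∀ j ∈ Finset.range (k + 1), ∫⁻ w, {y : ℝ | y ≤ (1 / 2) ^ j}.indicator
      (fun _ => ENNReal.ofReal ((2 ^ (j + 1)) ^ d)) (dist v w) ∂(nud d N) ≤ 4 ^ d := by
    intro j _
    have hj0 : (0 : ℝ) < (1 / 2) ^ j := by positivity
    calc ∫⁻ w, {y : ℝ | y ≤ (1 / 2) ^ j}.indicator
          (fun _ => ENNReal.ofReal ((2 ^ (j + 1)) ^ d)) (dist v w) ∂(nud d N)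
        ≤ ∫⁻ w, {y : ℝ | y ≤ (1 / 2) ^ j}.indicator
          (fun _ => ENNReal.ofReal ((2 ^ (j + 1)) ^ d)) (dist v w) := by
          unfold nud
          exact setLIntegral_le_lintegral _ _
      _ = ∫⁻ w, (closedBall v ((1 / 2) ^ j)).indicator
          (fun _ => ENNReal.ofReal ((2 ^ (j + 1)) ^ d)) w := by
          apply lintegral_congr
          intro w
          by_cases hw : dist v w ≤ (1 / 2) ^ j
          · rw [indicator_of_mem (show dist v w ∈ {y : ℝ | y ≤ (1 / 2) ^ j} from hw),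
              indicator_of_mem (show w ∈ closedBall v ((1 / 2) ^ j) by
                rw [mem_closedBall, dist_comm]; exact hw)]
          · rw [indicator_of_notMem (show ¬ dist v w ∈ {y : ℝ | y ≤ (1 / 2) ^ j} from hw),
              indicator_of_notMem (show ¬ w ∈ closedBall v ((1 / 2) ^ j) by
                rw [mem_closedBall, dist_comm]; exact hw)]
      _ = ENNReal.ofReal ((2 ^ (j + 1)) ^ d) * volume (closedBall v ((1 / 2) ^ j)) := by
          rw [lintegral_indicator measurableSet_closedBall, setLIntegral_const]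
      _ = 4 ^ d := by
          rw [Real.volume_pi_closedBall _ hj0.le, ← ENNReal.ofReal_mul (by positivity),
            Fintype.card_fin, ← mul_pow]
          have h4 : (2 : ℝ) ^ (j + 1) * (2 * (1 / 2) ^ j) = 4 := by
            have : (2 : ℝ) ^ j * (1 / 2) ^ j = 1 := by rw [← mul_pow]; norm_num
            rw [pow_succ]
            linear_combination 4 * this
          rw [h4, ENNReal.ofReal_pow (by norm_num)]
          norm_num
  calc (∫⁻ _, 1 ∂(nud d N)) + ∑ j ∈ Finset.range (k + 1), (∫⁻ w, {y : ℝ | y ≤ (1 / 2) ^ j}.indicator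
      (fun _ => ENNReal.ofReal ((2 ^ (j + 1)) ^ d)) (dist v w) ∂(nud d N))
      ≤ nud d N univ + ∑ _j ∈ Finset.range (k + 1), (4 : ℝ≥0∞) ^ d := by
        gcongr with j hj'
        · rw [lintegral_const, one_mul]
        · exact hj j hj'
    _ = nud d N univ * 1 + 4 ^ d * ((k : ℝ≥0∞) + 1) := by
        rw [Finset.sum_const, Finset.card_range, nsmul_eq_mul, mul_one]
        push_cast
        ring
    _ ≤ nud d N univ * ((k : ℝ≥0∞) + 1) + 4 ^ d * ((k : ℝ≥0∞) + 1) := by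
        gcongr
        exact le_add_self
    _ = _ := by ring

/-- The energy at scale `2^(-k)`. -/
noncomputable def Kk {d m : ℕ} (a : (Fin d → ℝ) → Fin d → ℝ) (ψ : (Fin d → ℝ) → Fin m → ℝ) (N : ℝ)
    (k : ℕ) (C : Fin d → Fin m → ℝ) : ℝ≥0∞ :=
  ((box d N).prod (box d N)) {x | (C, x) ∈ G a ψ (2 * dk k)} / wk d k

theorem lam_univ (d m : ℕ) (ρ : ℝ) : lam d m ρ univ ≠ ∞ := by
  unfold lam
  rw [Measure.restrict_apply_univ]
  have : cube d m ρ ⊆ univ.pi (fun _ : Fin d => univ.pi (fun _ : Fin m => Icc (-ρ) ρ)) := by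
    intro C hC
    rw [mem_univ_pi]
    exact hC
  refine ne_top_of_le_ne_top ?_ (measure_mono this)
  rw [volume_pi_pi]
  refine (ENNReal.prod_lt_top (fun i _ => ?_)).ne
  rw [volume_pi_pi]
  exact ENNReal.prod_lt_top (fun i _ => measure_Icc_lt_top)

/-- The averaged energy grows at most linearly. -/
theorem Kk_avg {d : ℕ} {a : (Fin d → ℝ) → Fin d → ℝ} (ha : Measurable a) {ρ : ℝ} (hρ : 0 < ρ)
    (N : ℝ) : ∃ B : ℝ≥0∞, B ≠ ∞ ∧ ∀ k : ℕ,
      ∫⁻ C, Kk a id N k C ∂(lam d d ρ) ≤ B * ((k : ℝ≥0∞) + 1) := by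
  set c : ℝ := ((2 * ρ) ^ (d - 1) * 4) ^ d with hc
  have hc0 : 0 ≤ c := by positivity
  set L := lam d d ρ univ with hL
  set B₁ : ℝ≥0∞ := (L + ENNReal.ofReal c) * ((nud d N univ + 4 ^ d) * nud d N univ) with hB₁
  set B : ℝ≥0∞ := B₁ * (ENNReal.ofReal 4 * nu N univ) * (cn d)⁻¹ with hB
  have hLt : L ≠ ∞ := lam_univ d d ρ
  have hB₁t : B₁ ≠ ∞ := by
    refine ENNReal.mul_ne_top (ENNReal.add_ne_top.2 ⟨hLt, ENNReal.ofReal_ne_top⟩)
      (ENNReal.mul_ne_top (ENNReal.add_ne_top.2 ⟨measure_ne_top _ _, by finiteness⟩)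
        (measure_ne_top _ _))
  have hBt : B ≠ ∞ := by
    refine ENNReal.mul_ne_top (ENNReal.mul_ne_top hB₁t
      (ENNReal.mul_ne_top ENNReal.ofReal_ne_top (measure_ne_top _ _))) ?_
    exact ENNReal.inv_ne_top.2 (cn_ne_zero d)
  refine ⟨B, hBt, ?_⟩
  intro k
  have hdk := dk_pos k
  have h1 : ∫⁻ C, Kk a id N k C ∂(lam d d ρ) =
      (∫⁻ C, ((box d N).prod (box d N)) {x | (C, x) ∈ G a id (2 * dk k)} ∂(lam d d ρ)) / wk d k := by
    unfold Kk
    simp_rw [div_eq_mul_inv]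
    rw [lintegral_mul_const' _ _ (ENNReal.inv_ne_top.2 (wk_ne_zero d k))]
  rw [h1]
  apply ENNReal.div_le_of_le_mul
  have hGm := meas_G ha (measurable_id : Measurable (id : (Fin d → ℝ) → Fin d → ℝ)) (2 * dk k)
  set ker : (Fin d → ℝ) → (Fin d → ℝ) → ℝ≥0∞ := fun v w =>
    min L (ENNReal.ofReal (((2 * ρ) ^ (d - 1) * (2 * (2 * dk k))) ^ d) * (edist v w ^ d)⁻¹) with hker
  have hk : Measurable (fun x : (Fin d → ℝ) × (Fin d → ℝ) => ker x.1 x.2) := by
    apply Measurable.min measurable_const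
    apply Measurable.const_mul
    apply Measurable.inv
    apply Measurable.pow_const
    exact measurable_edist
  have e1 : ∫⁻ C, ((box d N).prod (box d N)) {x | (C, x) ∈ G a id (2 * dk k)} ∂(lam d d ρ) =
      ((lam d d ρ).prod ((box d N).prod (box d N))) (G a id (2 * dk k)) :=
    (Measure.prod_apply hGm).symm
  have e2 : ∫⁻ C, ((box d N).prod (box d N)) {x | (C, x) ∈ G a id (2 * dk k)} ∂(lam d d ρ) ≤
      1 * ((∫⁻ v, ∫⁻ w, ker v w ∂(nud d N) ∂(nud d N)) *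
        (ENNReal.ofReal (2 * (2 * dk k)) * nu N univ)) := by
    rw [e1, Measure.prod_apply_symm hGm]
    refine le_trans ?_ (split_bound (nud d N) N (2 * dk k) 1 hk)
    apply lintegral_mono
    intro x
    exact sec_trunc a id hρ (by positivity) x.1 x.2
  have e3 : ∫⁻ v, ∫⁻ w, ker v w ∂(nud d N) ∂(nud d N) ≤
      B₁ * ENNReal.ofReal (dk k ^ d) * ((k : ℝ≥0∞) + 1) := by
    have h2 : ∀ v w, ker v w ≤ (L + ENNReal.ofReal c) * ENNReal.ofReal (dk k ^ d) *
        maj d k (dist v w) := by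
      intro v w
      have h3 : ((2 * ρ) ^ (d - 1) * (2 * (2 * dk k))) ^ d = c * dk k ^ d := by
        rw [hc, ← mul_pow]
        congr 1
        ring
      simp only [hker]
      rw [h3]
      exact trunc_le L hc0 k v w
    have hmt : (L + ENNReal.ofReal c) * ENNReal.ofReal (dk k ^ d) ≠ ∞ :=
      ENNReal.mul_ne_top (ENNReal.add_ne_top.2 ⟨hLt, ENNReal.ofReal_ne_top⟩) ENNReal.ofReal_ne_top
    calc ∫⁻ v, ∫⁻ w, ker v w ∂(nud d N) ∂(nud d N)
        ≤ ∫⁻ _, (L + ENNReal.ofReal c) * ENNReal.ofReal (dk k ^ d) *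
            ((nud d N univ + 4 ^ d) * ((k : ℝ≥0∞) + 1)) ∂(nud d N) := by
          apply lintegral_mono
          intro v
          calc ∫⁻ w, ker v w ∂(nud d N)
              ≤ ∫⁻ w, (L + ENNReal.ofReal c) * ENNReal.ofReal (dk k ^ d) *
                  maj d k (dist v w) ∂(nud d N) := lintegral_mono (h2 v)
            _ = (L + ENNReal.ofReal c) * ENNReal.ofReal (dk k ^ d) *
                  ∫⁻ w, maj d k (dist v w) ∂(nud d N) := lintegral_const_mul' _ _ hmt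
            _ ≤ _ := mul_le_mul' le_rfl (maj_int N k v)
      _ = _ := by
          rw [lintegral_const, hB₁]
          ring
  have e4 : ENNReal.ofReal (2 * (2 * dk k)) = ENNReal.ofReal 4 * ENNReal.ofReal (dk k) := by
    rw [← ENNReal.ofReal_mul (by norm_num)]
    congr 1
    ring
  have e5 : (cn d)⁻¹ * cn d = 1 := ENNReal.inv_mul_cancel (cn_ne_zero d) (cn_ne_top d)
  calc ∫⁻ C, ((box d N).prod (box d N)) {x | (C, x) ∈ G a id (2 * dk k)} ∂(lam d d ρ)
      ≤ 1 * ((∫⁻ v, ∫⁻ w, ker v w ∂(nud d N) ∂(nud d N)) *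
        (ENNReal.ofReal (2 * (2 * dk k)) * nu N univ)) := e2
    _ ≤ 1 * ((B₁ * ENNReal.ofReal (dk k ^ d) * ((k : ℝ≥0∞) + 1)) *
        (ENNReal.ofReal (2 * (2 * dk k)) * nu N univ)) :=
        mul_le_mul' le_rfl (mul_le_mul' e3 le_rfl)
    _ = (B₁ * (ENNReal.ofReal 4 * nu N univ) * ((k : ℝ≥0∞) + 1) * ENNReal.ofReal (dk k) ^ (d + 1)) *
          1 := by
        rw [e4, ENNReal.ofReal_pow hdk.le]
        ring
    _ = _ := by
        rw [← e5, hB, wk]
        ring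

/-- The averages of `f` over the ball of radius `r`. -/
noncomputable def avg {n : ℕ} (f : E n → ℝ≥0∞) (r : ℝ) (x : E n) : ℝ≥0∞ :=
  (∫⁻ y in ball x r, f y) / volume (ball x r)

/-- The maximal inequality with logarithmic loss of order `s`. -/
def LogLoss {d : ℕ} (b : (Fin d → ℝ) → Fin d → ℝ) (s : ℝ) : Prop :=
  ∀ R : ℝ, ∃ B : ℝ≥0∞, B ≠ ∞ ∧ ∀ (k : ℕ) (f : E (d + 1) → ℝ≥0∞), Measurable f →
    ∫⁻ v in closedBall 0 R, ∫⁻ t in Icc (-R) R, avg f ((1 / 2) ^ k) (lpt b v t) ≤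
      B * ((k : ℝ≥0∞) + 1) ^ s * (∫⁻ x, f x ^ 2) ^ (1 / 2 : ℝ)

theorem ae_sum {d : ℕ} {a : (Fin d → ℝ) → Fin d → ℝ} (ha : Measurable a) {ρ : ℝ} (hρ : 0 < ρ)
    (N : ℝ) {s : ℝ} (hs : 1 < s) : ∀ᵐ C ∂(lam d d ρ),
      ∑' k : ℕ, Kk a id N k C * (((k : ℝ≥0∞) + 1) ^ (2 * s))⁻¹ < ∞ := by
  obtain ⟨B, hB, hB2⟩ := Kk_avg ha hρ N
  have hm : ∀ k, Measurable (fun C => Kk a id N k C * (((k : ℝ≥0∞) + 1) ^ (2 * s))⁻¹) := by
    intro k
    apply Measurable.mul_const
    apply Measurable.div_const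
    exact measurable_measure_prodMk_left
      (meas_G ha (measurable_id : Measurable (id : (Fin d → ℝ) → Fin d → ℝ)) (2 * dk k))
  have hfin : ∫⁻ C, ∑' k : ℕ, Kk a id N k C * (((k : ℝ≥0∞) + 1) ^ (2 * s))⁻¹ ∂(lam d d ρ) ≠ ∞ := by
    rw [lintegral_tsum (fun k => (hm k).aemeasurable)]
    have h1 : ∀ k : ℕ, ∫⁻ C, Kk a id N k C * (((k : ℝ≥0∞) + 1) ^ (2 * s))⁻¹ ∂(lam d d ρ) ≤
        B * ENNReal.ofReal (1 / ((k : ℝ) + 1) ^ (2 * s - 1)) := by
      intro k
      have hk0 : (0 : ℝ) < (k : ℝ) + 1 := by positivity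
      have hke : ((k : ℝ≥0∞) + 1) = ENNReal.ofReal ((k : ℝ) + 1) := by
        rw [ENNReal.ofReal_add (Nat.cast_nonneg k) zero_le_one, ENNReal.ofReal_natCast,
          ENNReal.ofReal_one]
      have hne : (((k : ℝ≥0∞) + 1) ^ (2 * s))⁻¹ ≠ ∞ := by
        rw [hke, ENNReal.ofReal_rpow_of_pos hk0]
        apply ENNReal.inv_ne_top.2
        have := Real.rpow_pos_of_pos hk0 (2 * s)
        simpa using this
      rw [lintegral_mul_const' _ _ hne]
      calc (∫⁻ C, Kk a id N k C ∂(lam d d ρ)) * (((k : ℝ≥0∞) + 1) ^ (2 * s))⁻¹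
          ≤ (B * ((k : ℝ≥0∞) + 1)) * (((k : ℝ≥0∞) + 1) ^ (2 * s))⁻¹ := by
            gcongr
            exact hB2 k
        _ = B * (((k : ℝ≥0∞) + 1) * (((k : ℝ≥0∞) + 1) ^ (2 * s))⁻¹) := by ring
        _ = _ := by
            congr 1
            rw [hke, ENNReal.ofReal_rpow_of_pos hk0,
              ← ENNReal.ofReal_inv_of_pos (Real.rpow_pos_of_pos hk0 _),
              ← ENNReal.ofReal_mul hk0.le]
            congr 1
            rw [Real.rpow_sub hk0, Real.rpow_one]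
            have := Real.rpow_pos_of_pos hk0 (2 * s)
            field_simp
    refine ne_top_of_le_ne_top ?_ (ENNReal.tsum_le_tsum h1)
    rw [ENNReal.tsum_mul_left]
    refine ENNReal.mul_ne_top hB ?_
    have hsum : Summable (fun k : ℕ => 1 / ((k : ℝ) + 1) ^ (2 * s - 1)) := by
      have h2 := (Real.summable_one_div_nat_rpow (p := 2 * s - 1)).2 (by linarith)
      have h3 := (_root_.summable_nat_add_iff 1).2 h2
      refine h3.congr ?_
      intro k
      push_cast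
      rfl
    rw [← ENNReal.ofReal_tsum_of_nonneg (fun k => by positivity) hsum]
    exact ENNReal.ofReal_ne_top
  exact ae_lt_top (Measurable.ennreal_tsum hm) hfin

theorem ae_sum_all {d : ℕ} {a : (Fin d → ℝ) → Fin d → ℝ} (ha : Measurable a) :
    ∀ᵐ C : Fin d → Fin d → ℝ, ∀ N l : ℕ,
      ∑' k : ℕ, Kk a id (N : ℝ) k C * (((k : ℝ≥0∞) + 1) ^ (2 * (1 + 1 / ((l : ℝ) + 1))))⁻¹ < ∞ := by
  rw [ae_all_iff]
  intro N
  rw [ae_all_iff]
  intro l
  have hU : (⋃ R : ℕ, cube d d ((R : ℝ) + 1)) = univ := by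
    rw [eq_univ_iff_forall]
    intro C
    obtain ⟨R, hR⟩ := exists_nat_ge ‖C‖
    refine mem_iUnion.2 ⟨R, ?_⟩
    intro i
    rw [mem_univ_pi]
    intro j
    have h1 : |C i j| ≤ (R : ℝ) + 1 := by
      have h2 := norm_le_pi_norm (C i) j
      have h3 := norm_le_pi_norm C i
      rw [Real.norm_eq_abs] at h2
      linarith
    exact ⟨(abs_le.1 h1).1, (abs_le.1 h1).2⟩
  rw [← Measure.restrict_univ (μ := (volume : Measure (Fin d → Fin d → ℝ))), ← hU,
    ae_restrict_iUnion_iff]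
  intro R
  have hl : (0 : ℝ) < 1 / ((l : ℝ) + 1) := by positivity
  exact ae_sum ha (by positivity) (N : ℝ) (by linarith)

/-- **Logarithmic loss for almost every linear perturbation.** -/
theorem linear_main {d : ℕ} {a : (Fin d → ℝ) → Fin d → ℝ} (ha : Measurable a) :
    ∀ᵐ C : Fin d → Fin d → ℝ, ∀ s : ℝ, 1 < s → LogLoss (per a id C) s := by
  filter_upwards [ae_sum_all ha] with C hC s hs R
  obtain ⟨N, hN⟩ := exists_nat_ge R
  obtain ⟨l, hl⟩ := exists_nat_one_div_lt (show (0 : ℝ) < s - 1 by linarith)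
  set σ : ℝ := 1 + 1 / ((l : ℝ) + 1) with hσ
  have hσs : σ ≤ s := by rw [hσ]; linarith
  have hσ0 : 0 < σ := by rw [hσ]; positivity
  set S₀ := ∑' k : ℕ, Kk a id (N : ℝ) k C * (((k : ℝ≥0∞) + 1) ^ (2 * σ))⁻¹ with hS0
  have hS0t : S₀ ≠ ∞ := (hC N l).ne
  refine ⟨S₀ ^ (1 / 2 : ℝ), ENNReal.rpow_ne_top_of_nonneg (by norm_num) hS0t, ?_⟩
  intro k f hf
  have hKk : Kk a id (N : ℝ) k C ≤ S₀ * ((k : ℝ≥0∞) + 1) ^ (2 * σ) := by
    have h1 : Kk a id (N : ℝ) k C * (((k : ℝ≥0∞) + 1) ^ (2 * σ))⁻¹ ≤ S₀ :=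
      ENNReal.le_tsum (f := fun k : ℕ => Kk a id (N : ℝ) k C * (((k : ℝ≥0∞) + 1) ^ (2 * σ))⁻¹) k
    have h2 : ((k : ℝ≥0∞) + 1) ^ (2 * σ) ≠ ∞ :=
      ENNReal.rpow_ne_top_of_nonneg (by positivity) (by finiteness)
    have h3 : ((k : ℝ≥0∞) + 1) ^ (2 * σ) ≠ 0 := by
      simp only [ne_eq, ENNReal.rpow_eq_zero_iff, not_or, not_and]
      constructor
      · intro h
        simp at h
      · intro h
        exact absurd h (by finiteness)
    calc Kk a id (N : ℝ) k C = Kk a id (N : ℝ) k C * ((((k : ℝ≥0∞) + 1) ^ (2 * σ))⁻¹ *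
          ((k : ℝ≥0∞) + 1) ^ (2 * σ)) := by
          rw [ENNReal.inv_mul_cancel h3 h2, mul_one]
      _ = (Kk a id (N : ℝ) k C * (((k : ℝ≥0∞) + 1) ^ (2 * σ))⁻¹) *
          ((k : ℝ≥0∞) + 1) ^ (2 * σ) := by ring
      _ ≤ _ := by gcongr
  have hψ : Measurable (id : (Fin d → ℝ) → Fin d → ℝ) := measurable_id
  have hb : Measurable (per a id C) :=
    (meas_per ha hψ).comp (measurable_prodMk_left (x := C))
  have hΦ : Measurable (fun x : (Fin d → ℝ) × ℝ => lpt (per a id C) x.1 x.2) := meas_lpt1 hb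
  set Φ : (Fin d → ℝ) × ℝ → E (d + 1) := fun x => lpt (per a id C) x.1 x.2 with hΦd
  set μ : Measure (E (d + 1)) := (box d N).map Φ with hμ
  have h1 : (μ.prod μ) (close (E (d + 1)) (2 * dk k)) / wk d k = Kk a id (N : ℝ) k C := by
    unfold Kk
    congr 1
    rw [hμ, Measure.map_prod_map _ _ hΦ hΦ, Measure.map_apply (hΦ.prodMap hΦ) (close_meas _)]
    rfl
  have h3 := test_avg (volume : Measure (E (d + 1))) μ (wk_ne_zero d k) (wk_ne_top d k)
    (wk_eq d k) hf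
  rw [h1] at h3
  -- measurability of the average
  have havg : Measurable (fun x : E (d + 1) => avg f (dk k) x) := by
    unfold avg
    simp_rw [wk_eq]
    apply Measurable.div_const
    have hcl : Measurable (fun q : E (d + 1) × E (d + 1) =>
        (close (E (d + 1)) (dk k)).indicator (fun q => f q.2) q) :=
      (hf.comp measurable_snd).indicator (close_meas (dk k))
    have h1 : Measurable (fun x => ∫⁻ y, (close (E (d + 1)) (dk k)).indicator
        (fun q => f q.2) (x, y)) := Measurable.lintegral_prod_right' hcl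
    convert h1 using 2 with x
    rw [← lintegral_indicator measurableSet_ball]
    apply lintegral_congr
    intro y
    by_cases h : dist x y < dk k
    · rw [indicator_of_mem (show (x, y) ∈ close (E (d + 1)) (dk k) from h),
        indicator_of_mem (show y ∈ ball x (dk k) by rw [mem_ball, dist_comm]; exact h)]
    · rw [indicator_of_notMem (show ¬ (x, y) ∈ close (E (d + 1)) (dk k) from h),
        indicator_of_notMem (show ¬ y ∈ ball x (dk k) by rw [mem_ball, dist_comm]; exact h)]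
  have h4 : ∫⁻ x, avg f (dk k) x ∂μ = ∫⁻ x, (∫⁻ y in ball x (dk k), f y) / wk d k ∂μ := by
    unfold avg
    simp_rw [wk_eq]
  have h5 : ∫⁻ x, avg f (dk k) (Φ x) ∂(box d N) ≤
      S₀ ^ (1 / 2 : ℝ) * ((k : ℝ≥0∞) + 1) ^ s * (∫⁻ x, f x ^ 2) ^ (1 / 2 : ℝ) := by
    rw [← lintegral_map havg hΦ, ← hμ, h4]
    refine h3.trans ?_
    rw [mul_comm]
    gcongr
    calc Kk a id (N : ℝ) k C ^ (1 / 2 : ℝ) ≤ (S₀ * ((k : ℝ≥0∞) + 1) ^ (2 * σ)) ^ (1 / 2 : ℝ) :=
          ENNReal.rpow_le_rpow hKk (by norm_num)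
      _ = S₀ ^ (1 / 2 : ℝ) * ((k : ℝ≥0∞) + 1) ^ σ := by
          rw [ENNReal.mul_rpow_of_nonneg _ _ (by norm_num), ← ENNReal.rpow_mul]
          congr 2
          ring
      _ ≤ _ := by
          gcongr
          exact le_add_self
  refine le_trans ?_ h5
  rw [box, lintegral_prod (fun x : (Fin d → ℝ) × ℝ => avg f (dk k) (Φ x))
    (havg.comp hΦ).aemeasurable]
  have hsub1 : closedBall (0 : Fin d → ℝ) R ⊆ univ.pi fun _ => Icc (-(N : ℝ)) N := by
    intro v hv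
    rw [mem_univ_pi]
    intro i
    rw [mem_closedBall_zero_iff] at hv
    have h1 := norm_le_pi_norm v i
    rw [Real.norm_eq_abs] at h1
    have h2 : |v i| ≤ N := by linarith
    exact ⟨(abs_le.1 h2).1, (abs_le.1 h2).2⟩
  have hsub2 : Icc (-R) R ⊆ Icc (-(N : ℝ)) N := Icc_subset_Icc (by linarith) hN
  calc ∫⁻ v in closedBall 0 R, ∫⁻ t in Icc (-R) R, avg f ((1 / 2) ^ k) (lpt (per a id C) v t)
      ≤ ∫⁻ v in closedBall 0 R, ∫⁻ t in Icc (-(N : ℝ)) N,
          avg f ((1 / 2) ^ k) (lpt (per a id C) v t) := by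
        apply lintegral_mono
        intro v
        exact lintegral_mono_set hsub2
    _ ≤ ∫⁻ v in (univ.pi fun _ => Icc (-(N : ℝ)) N), ∫⁻ t in Icc (-(N : ℝ)) N,
          avg f ((1 / 2) ^ k) (lpt (per a id C) v t) := lintegral_mono_set hsub1
    _ = _ := rfl

end Pool.Agent.V5helper78.KK
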