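import Pool.Agent.V5helper78.KK.Saw

set_option autoImplicit false

/-!
# A selection with all slopes at all points, and its families of lines
-/

open MeasureTheory Set Filter Topology ENNReal

namespace Pool.Agent.V5helper78.KK

/-- Points in the steep part of the saw. -/
def badx (n m : ℕ) : Set ℝ := {x | ¬ Int.fract ((2 : ℝ) ^ n * x) < 1 - (1 / 2) ^ m}

theorem badx_vol (n m R : ℕ) :
    volume (badx n m ∩ Icc (-(R : ℝ)) R) ≤ ENNReal.ofReal ((2 * R + 1) * (1 / 2) ^ m) := by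
  have h2 : (0 : ℝ) < 2 ^ n := by positivity
  set I : Finset ℤ := Finset.Icc (-((R * 2 ^ n : ℕ) : ℤ)) ((R * 2 ^ n : ℕ) : ℤ) with hI
  have hsub : badx n m ∩ Icc (-(R : ℝ)) R ⊆
      ⋃ q ∈ I, Icc (((q : ℝ) + 1 - (1 / 2) ^ m) / 2 ^ n) (((q : ℝ) + 1) / 2 ^ n) := by
    rintro x ⟨hx1, hx2⟩
    have hx1' : 1 - (1 / 2) ^ m ≤ Int.fract ((2 : ℝ) ^ n * x) := not_lt.1 hx1
    refine mem_iUnion₂.2 ⟨⌊(2 : ℝ) ^ n * x⌋, ?_, ?_, ?_⟩
    · rw [hI, Finset.mem_Icc]
      constructor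
      · rw [Int.le_floor]
        push_cast
        nlinarith [hx2.1]
      · have : (⌊(2 : ℝ) ^ n * x⌋ : ℝ) ≤ (((R * 2 ^ n : ℕ) : ℤ) : ℝ) := by
          refine (Int.floor_le _).trans ?_
          push_cast
          nlinarith [hx2.2]
        exact_mod_cast this
    · rw [div_le_iff₀ h2]
      rw [Int.fract] at hx1'
      linarith
    · rw [le_div_iff₀ h2]
      have := (Int.lt_floor_add_one ((2 : ℝ) ^ n * x)).le
      linarith
  calc volume (badx n m ∩ Icc (-(R : ℝ)) R)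
      ≤ volume (⋃ q ∈ I, Icc (((q : ℝ) + 1 - (1 / 2) ^ m) / 2 ^ n) (((q : ℝ) + 1) / 2 ^ n)) :=
        measure_mono hsub
    _ ≤ ∑ q ∈ I, volume (Icc (((q : ℝ) + 1 - (1 / 2) ^ m) / 2 ^ n) (((q : ℝ) + 1) / 2 ^ n)) :=
        measure_biUnion_finset_le _ _
    _ = ∑ _q ∈ I, ENNReal.ofReal ((1 / 2) ^ m / 2 ^ n) := by
        apply Finset.sum_congr rfl
        intro q _
        rw [Real.volume_Icc]
        congr 1
        ring
    _ = ENNReal.ofReal ((2 * (R * 2 ^ n) + 1) * ((1 / 2) ^ m / 2 ^ n)) := by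
        rw [Finset.sum_const, nsmul_eq_mul, ENNReal.ofReal_mul (by positivity)]
        congr 1
        have hc : I.card = 2 * (R * 2 ^ n) + 1 := by
          rw [hI, Int.card_Icc]
          omega
        rw [hc, ← ENNReal.ofReal_natCast]
        push_cast
        rfl
    _ ≤ _ := by
        apply ENNReal.ofReal_le_ofReal
        have h3 : (1 : ℝ) ≤ 2 ^ n := two_pow_ge n
        have h4 : (0 : ℝ) < (1 / 2) ^ m := by positivity
        rw [mul_div_assoc', div_le_iff₀ h2]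
        have h5 : (0 : ℝ) ≤ R := Nat.cast_nonneg R
        nlinarith

theorem ae_good1 (n : ℕ → ℕ) :
    ∀ᵐ x : ℝ, ∀ᶠ l in atTop, Int.fract ((2 : ℝ) ^ n l * x) < 1 - (1 / 2) ^ (l + 1) := by
  have h1 : ∀ R : ℕ, ∀ᵐ x : ℝ, ∀ᶠ l in atTop, x ∉ badx (n l) (l + 1) ∩ Icc (-(R : ℝ)) R := by
    intro R
    apply ae_eventually_notMem
    have h2 : ∀ l : ℕ, volume (badx (n l) (l + 1) ∩ Icc (-(R : ℝ)) R) ≤
        ENNReal.ofReal ((2 * R + 1) * (1 / 2) ^ (l + 1)) := fun l => badx_vol (n l) (l + 1) R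
    refine ne_top_of_le_ne_top ?_ (ENNReal.tsum_le_tsum h2)
    have h3 : Summable (fun l : ℕ => (2 * (R : ℝ) + 1) * (1 / 2) ^ (l + 1)) := by
      apply Summable.mul_left
      rw [summable_nat_add_iff 1]
      exact summable_geometric_of_lt_one (by norm_num) (by norm_num)
    rw [← ENNReal.ofReal_tsum_of_nonneg (fun l => by positivity) h3]
    exact ENNReal.ofReal_ne_top
  rw [← ae_all_iff] at h1
  filter_upwards [h1] with x hx
  obtain ⟨R, hR⟩ := exists_nat_ge |x|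
  filter_upwards [hx R] with l hl
  by_contra hcon
  exact hl ⟨hcon, abs_le.1 hR⟩

theorem ae_goodd (d : ℕ) (n : ℕ → ℕ) : ∀ᵐ v : Fin d → ℝ, ∀ j, ∀ᶠ l in atTop,
    Int.fract ((2 : ℝ) ^ n l * v j) < 1 - (1 / 2) ^ (l + 1) := by
  rw [ae_all_iff]
  intro j
  exact (Measure.tendsto_eval_ae_ae (μ := fun _ : Fin d => (volume : Measure ℝ)) (i := j)).eventually
    (ae_good1 n)

/-- A dense sequence in which every value recurs. -/
noncomputable def Sq (d : ℕ) : ℕ → Fin d → Fin d → ℝ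
  | 0 => 0
  | k + 1 => TopologicalSpace.denseSeq (Fin d → Fin d → ℝ) (Nat.unpair k).1

theorem Sq_rec {d : ℕ} (T : Fin d → Fin d → ℝ) {ε : ℝ} (hε : 0 < ε) (K₀ : ℕ) :
    ∃ k ≥ K₀, ∀ i j, |Sq d (k + 1) i j - T i j| ≤ ε := by
  obtain ⟨a, ha⟩ := (TopologicalSpace.denseRange_denseSeq (Fin d → Fin d → ℝ)).exists_dist_lt T hε
  refine ⟨Nat.pair a K₀, Nat.right_le_pair a K₀, ?_⟩
  intro i j
  have h1 : Sq d (Nat.pair a K₀ + 1) = TopologicalSpace.denseSeq (Fin d → Fin d → ℝ) a := by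
    simp only [Sq, Nat.unpair_pair]
  rw [h1, ← Real.dist_eq, dist_comm]
  exact ((dist_le_pi_dist _ _ j).trans (dist_le_pi_dist _ _ i)).trans ha.le

/-- All slopes occur at all points of a full set. -/
def AllSlopes {d : ℕ} (a : (Fin d → ℝ) → Fin d → ℝ) (P : ℕ → ℕ) (D : Set (Fin d → ℝ)) : Prop :=
  ∀ v ∈ D, ∀ (T : Fin d → Fin d → ℝ) (η : ℝ), 0 < η → ∀ K₀ : ℕ, ∃ k ≥ K₀, ∀ w : Fin d → ℝ,
    idx (P k) v = idx (P k) w → ∀ i,
      |a w i - a v i - ∑ j, T i j * (w j - v j)| ≤ η * (1 / 2) ^ P k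

theorem exists_rough (d : ℕ) : ∃ (a : (Fin d → ℝ) → Fin d → ℝ) (P : ℕ → ℕ) (D : Set (Fin d → ℝ)),
    (∀ H : ℝ, 0 < H → H < 1 → ∃ A : ℝ, ∀ v w, dist (a v) (a w) ≤ A * dist v w ^ H) ∧
    Monotone P ∧ (∀ k, k ≤ P k) ∧ (∀ᵐ v, v ∈ D) ∧ AllSlopes a P D := by
  set Δ : ℕ → Fin d → Fin d → ℝ := fun l => Sq d (l + 1) - Sq d l with hΔ
  have hWex : ∀ l : ℕ, ∃ W : ℕ, ∀ i, ∑ j, |Δ l i j| ≤ 2 ^ W := by
    intro l
    obtain ⟨N, hN⟩ := exists_nat_ge (∑ i, ∑ j, |Δ l i j|)
    refine ⟨N, ?_⟩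
    intro i
    calc ∑ j, |Δ l i j| ≤ ∑ i, ∑ j, |Δ l i j| :=
          Finset.single_le_sum (f := fun i => ∑ j, |Δ l i j|)
            (fun i _ => Finset.sum_nonneg (fun j _ => abs_nonneg _)) (Finset.mem_univ i)
      _ ≤ N := hN
      _ ≤ 2 ^ N := by exact_mod_cast Nat.lt_two_pow_self.le
  choose W hW using hWex
  have hsum : ∀ k i j, ∑ l ∈ Finset.range (k + 1), Δ l i j = Sq d (k + 1) i j := by
    intro k i j
    have h1 := Finset.sum_range_sub (fun l => Sq d l i j) (k + 1)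
    have h2 : Sq d 0 i j = 0 := rfl
    rw [h2, sub_zero] at h1
    exact h1
  set D : Set (Fin d → ℝ) := {v | ∀ j, ∀ᶠ l in atTop,
    Int.fract ((2 : ℝ) ^ lev W l * v j) < 1 - (1 / 2) ^ (l + 1)} with hD
  refine ⟨rough Δ W, fin W, D, ?_, fin_mono W, fin_ge W, ae_goodd d (lev W), ?_⟩
  · intro H h0 h1
    obtain ⟨A, _, hA⟩ := rough_holder Δ W hW h0.le h1
    exact ⟨A, hA⟩
  · intro v hv T η hη K₀
    have hv' : ∀ᶠ l in atTop, ∀ j, Int.fract ((2 : ℝ) ^ lev W l * v j) < 1 - (1 / 2) ^ (l + 1) :=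
      eventually_all.2 hv
    obtain ⟨L, hL⟩ := eventually_atTop.1 hv'
    set E : Fin d → Fin d → ℝ := fun i j =>
      ∑ l ∈ Finset.range L, Δ l i j * (slo (l + 1) (2 ^ lev W l * v j) - 1) with hE
    have hslm : ∀ k ≥ L, ∀ i j, slm Δ W k v i j = Sq d (k + 1) i j + E i j := by
      intro k hk i j
      have h1 : slm Δ W k v i j - ∑ l ∈ Finset.range (k + 1), Δ l i j =
          ∑ l ∈ Finset.range (k + 1), Δ l i j * (slo (l + 1) (2 ^ lev W l * v j) - 1) := by
        rw [slm, ← Finset.sum_sub_distrib]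
        apply Finset.sum_congr rfl
        intro l _
        ring
      have h2 : ∑ l ∈ Finset.range L, Δ l i j * (slo (l + 1) (2 ^ lev W l * v j) - 1) =
          ∑ l ∈ Finset.range (k + 1), Δ l i j * (slo (l + 1) (2 ^ lev W l * v j) - 1) := by
        apply Finset.sum_subset
        · intro l hl
          rw [Finset.mem_range] at hl ⊢
          omega
        · intro l _ hl
          rw [Finset.mem_range, not_lt] at hl
          have h3 := hL l hl j
          rw [slo, if_pos h3, sub_self, mul_zero]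
      rw [hsum] at h1
      simp only [hE]
      rw [h2, ← h1]
      ring
    obtain ⟨k₁, hk₁⟩ : ∃ k₁ : ℕ, (1 / 2 : ℝ) ^ k₁ < η / 2 :=
      exists_pow_lt_of_lt_one (by positivity) (by norm_num)
    set η' : ℝ := η / (2 * (d + 1)) with hη'
    have hη'0 : 0 < η' := by positivity
    obtain ⟨k, hk, hk2⟩ := Sq_rec (fun i j => T i j - E i j) hη'0 (max K₀ (max L k₁))
    have hkK : K₀ ≤ k := (le_max_left _ _).trans hk
    have hkL : L ≤ k := ((le_max_left _ _).trans (le_max_right _ _)).trans hk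
    have hkk : k₁ ≤ k := ((le_max_right _ _).trans (le_max_right _ _)).trans hk
    refine ⟨k, hkK, ?_⟩
    intro w hw i
    have h1 := rough_local Δ W hW hw i
    have h2 : |∑ j, slm Δ W k v i j * (w j - v j) - ∑ j, T i j * (w j - v j)| ≤
        η / 2 * (1 / 2) ^ fin W k := by
      rw [← Finset.sum_sub_distrib]
      calc |∑ j, (slm Δ W k v i j * (w j - v j) - T i j * (w j - v j))|
          ≤ ∑ j, |slm Δ W k v i j * (w j - v j) - T i j * (w j - v j)| :=
            Finset.abs_sum_le_sum_abs _ _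
        _ ≤ ∑ _j : Fin d, η' * (1 / 2) ^ fin W k := by
            apply Finset.sum_le_sum
            intro j _
            rw [← sub_mul, abs_mul]
            have h3 := hk2 i j
            have h4 : slm Δ W k v i j - T i j = Sq d (k + 1) i j - (T i j - E i j) := by
              rw [hslm k hkL i j]
              ring
            rw [h4]
            have h5 : |w j - v j| ≤ (1 / 2) ^ fin W k := floor_close (congrFun hw j).symm
            gcongr
        _ = d * η' * (1 / 2) ^ fin W k := by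
            rw [Finset.sum_const, Finset.card_univ, Fintype.card_fin, nsmul_eq_mul]
            ring
        _ ≤ _ := by
            gcongr
            rw [hη', mul_div_assoc', div_le_iff₀ (by positivity)]
            nlinarith
    have h6 : (1 / 2 : ℝ) ^ k ≤ η / 2 :=
      (pow_le_pow_of_le_one (by norm_num) (by norm_num) hkk).trans hk₁.le
    have h7 : (0 : ℝ) < (1 / 2) ^ fin W k := by positivity
    have h8 : rough Δ W w i - rough Δ W v i - ∑ j, T i j * (w j - v j) =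
        (rough Δ W w i - rough Δ W v i - ∑ j, slm Δ W k v i j * (w j - v j)) +
        (∑ j, slm Δ W k v i j * (w j - v j) - ∑ j, T i j * (w j - v j)) := by ring
    rw [h8]
    calc |(rough Δ W w i - rough Δ W v i - ∑ j, slm Δ W k v i j * (w j - v j)) +
        (∑ j, slm Δ W k v i j * (w j - v j) - ∑ j, T i j * (w j - v j))|
        ≤ (1 / 2) ^ fin W k * (1 / 2) ^ k + η / 2 * (1 / 2) ^ fin W k :=
          (abs_add_le _ _).trans (add_le_add h1 h2)
      _ ≤ (1 / 2) ^ fin W k * (η / 2) + η / 2 * (1 / 2) ^ fin W k := by gcongr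
      _ = _ := by ring

/-- The map of the family. -/
noncomputable def Phi {d : ℕ} (b : (Fin d → ℝ) → Fin d → ℝ) (x : Fin (d + 1) → ℝ) : E (d + 1) :=
  lpt b (Fin.init x) (x (Fin.last d))

/-- The local estimate. -/
theorem Phi_small {d : ℕ} {a g : (Fin d → ℝ) → Fin d → ℝ} {P : ℕ → ℕ} {D : Set (Fin d → ℝ)}
    (hP : ∀ k, k ≤ P k) (ha : AllSlopes a P D) {x : Fin (d + 1) → ℝ}
    (hx : Fin.init x ∈ D) (hg : DifferentiableAt ℝ g (Fin.init x : Fin d → ℝ)) {η : ℝ} (hη : 0 < η) :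
    ∃ k, Phi (fun v i => a v i + g v i) '' cub (P k) (idx (P k) x) ⊆
      tube (fun i => a (Fin.init x) i + g (Fin.init x) i) (Fin.init x)
        ((idx (P k) x (Fin.last d) : ℝ) / 2 ^ P k) (((idx (P k) x (Fin.last d) : ℝ) + 1) / 2 ^ P k)
        (((d : ℝ) + 3) * η * (1 / 2) ^ P k) := by
  classical
  set v : Fin d → ℝ := Fin.init x with hv
  set t : ℝ := x (Fin.last d) with ht
  set Λ := fderiv ℝ g v with hΛ
  have hfd : HasFDerivAt g Λ v := hg.hasFDerivAt
  -- differentiability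
  obtain ⟨δ, hδ, hδ2⟩ : ∃ δ > 0, ∀ w, dist w v < δ → ‖g w - g v - Λ (w - v)‖ ≤ η * ‖w - v‖ := by
    have h1 := hfd.isLittleO.def hη
    obtain ⟨δ, hδ, hδ2⟩ := Metric.eventually_nhds_iff.1 h1
    exact ⟨δ, hδ, fun w hw => hδ2 hw⟩
  obtain ⟨k₁, hk₁⟩ : ∃ k₁ : ℕ, (1 / 2 : ℝ) ^ k₁ < min δ η :=
    exists_pow_lt_of_lt_one (lt_min hδ hη) (by norm_num)
  set Lm : Fin d → Fin d → ℝ := fun i j => Λ (fun l => if j = l then 1 else 0) i with hLm
  have hLe : ∀ (u : Fin d → ℝ) i, Λ u i = ∑ j, Lm i j * u j := by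
    intro u i
    have h1 := LinearMap.pi_apply_eq_sum_univ (Λ : (Fin d → ℝ) →ₗ[ℝ] (Fin d → ℝ)) u
    have h2 : Λ u = ∑ j, u j • Λ (fun l => if j = l then 1 else 0) := h1
    rw [h2, Finset.sum_apply]
    apply Finset.sum_congr rfl
    intro j _
    simp only [hLm, Pi.smul_apply, smul_eq_mul]
    ring
  set T : Fin d → Fin d → ℝ := fun i j => -(Lm i j) - (if i = j then t else 0) with hT
  obtain ⟨k, hk, hk2⟩ := ha v hx T η hη k₁
  have hp : (1 / 2 : ℝ) ^ P k < min δ η :=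
    (pow_le_pow_of_le_one (by norm_num) (by norm_num) (hk.trans (hP k))).trans_lt hk₁
  set r : ℝ := (1 / 2 : ℝ) ^ P k with hr
  have hr0 : 0 < r := by positivity
  refine ⟨k, ?_⟩
  rintro _ ⟨y, hy, rfl⟩
  have hy' : idx (P k) y = idx (P k) x := hy
  set w : Fin d → ℝ := Fin.init y with hw
  set s : ℝ := y (Fin.last d) with hs
  have hvw : idx (P k) v = idx (P k) w := by
    funext i
    exact (congrFun hy' i.castSucc).symm
  have hclose : ∀ i, |w i - v i| ≤ r := fun i => floor_close (congrFun hvw i).symm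
  have hst : |s - t| ≤ r := floor_close (congrFun hy' (Fin.last d))
  have hnorm : ‖w - v‖ ≤ r := by
    rw [pi_norm_le_iff_of_nonneg hr0.le]
    intro i
    exact hclose i
  have hlast : (Phi (fun v i => a v i + g v i) y) (Fin.last d) = s := by
    simp [Phi, lpt, hs]
  have hcoord : ∀ i : Fin d, (Phi (fun v i => a v i + g v i) y) i.castSucc =
      a w i + g w i + s * w i := by
    intro i
    simp [Phi, lpt, hs, hw]
  refine ⟨?_, ?_⟩
  · rw [hlast]
    have h2 : (0 : ℝ) < 2 ^ P k := by positivity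
    have h3 : ⌊(2 : ℝ) ^ P k * s⌋ = idx (P k) x (Fin.last d) := congrFun hy' (Fin.last d)
    rw [Int.floor_eq_iff] at h3
    constructor
    · rw [div_le_iff₀ h2]; linarith [h3.1]
    · rw [le_div_iff₀ h2]; linarith [h3.2]
  · intro i
    rw [hlast, hcoord]
    have e1 : a w i + g w i + s * w i - (a v i + g v i + s * v i) =
        (a w i - a v i - ∑ j, T i j * (w j - v j)) + (g w i - g v i - Λ (w - v) i) +
        (s - t) * (w i - v i) := by
      rw [hLe]
      have e2 : ∑ j, T i j * (w j - v j) = -(∑ j, Lm i j * (w - v) j) - t * (w i - v i) := by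
        simp only [hT, sub_mul, neg_mul, ite_mul, zero_mul, Finset.sum_sub_distrib,
          Finset.sum_neg_distrib, Finset.sum_ite_eq, Finset.mem_univ, if_true, Pi.sub_apply]
      rw [e2]
      ring
    rw [e1]
    have h1 := hk2 w hvw i
    have h2 : |g w i - g v i - Λ (w - v) i| ≤ η * r := by
      have h3 : dist w v < δ := by
        rw [dist_eq_norm]
        exact (hnorm.trans_lt hp).trans_le (min_le_left _ _)
      have h4 := hδ2 w h3
      have h5 := norm_le_pi_norm (g w - g v - Λ (w - v)) i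
      rw [Real.norm_eq_abs] at h5
      calc |g w i - g v i - Λ (w - v) i| ≤ ‖g w - g v - Λ (w - v)‖ := h5
        _ ≤ η * ‖w - v‖ := h4
        _ ≤ η * r := by gcongr
    have h3 : |(s - t) * (w i - v i)| ≤ η * r := by
      rw [abs_mul]
      have h4 : r ≤ η := (hp.trans_le (min_le_right _ _)).le
      calc |s - t| * |w i - v i| ≤ r * r := by
            have := hclose i
            gcongr
        _ ≤ η * r := by gcongr
    have hd : (0 : ℝ) ≤ d := Nat.cast_nonneg d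
    calc |(a w i - a v i - ∑ j, T i j * (w j - v j)) + (g w i - g v i - Λ (w - v) i) +
        (s - t) * (w i - v i)|
        ≤ |a w i - a v i - ∑ j, T i j * (w j - v j)| + |g w i - g v i - Λ (w - v) i| +
          |(s - t) * (w i - v i)| := abs_add_three _ _ _
      _ ≤ η * r + η * r + η * r := by gcongr
      _ ≤ (d + 3) * η * r := by
          have : 0 ≤ η * r := by positivity
          nlinarith

/-- **Nullity.** -/
theorem Phi_null {d : ℕ} (hd : 0 < d) {a g : (Fin d → ℝ) → Fin d → ℝ} {P : ℕ → ℕ}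
    {D : Set (Fin d → ℝ)} (hPm : Monotone P) (hP : ∀ k, k ≤ P k) (ha : AllSlopes a P D) :
    volume (Phi (fun v i => a v i + g v i) ''
      {x : Fin (d + 1) → ℝ | Fin.init x ∈ D ∧ DifferentiableAt ℝ g (Fin.init x : Fin d → ℝ)}) = 0 := by
  set b : (Fin d → ℝ) → Fin d → ℝ := fun v i => a v i + g v i with hb
  set G : Set (Fin (d + 1) → ℝ) :=
    {x | Fin.init x ∈ D ∧ DifferentiableAt ℝ g (Fin.init x : Fin d → ℝ)} with hG
  have hR : ∀ R : ℕ, volume (Phi b '' (G ∩ Metric.closedBall 0 (R : ℝ))) = 0 := by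
    intro R
    have hkey : ∀ e : ℝ, 0 < e → volume (Phi b '' (G ∩ Metric.closedBall 0 (R : ℝ))) ≤
        ENNReal.ofReal e ^ d * volume (Metric.closedBall (0 : Fin (d + 1) → ℝ) (R + 1)) := by
      intro e he
      apply dyad_cover volume (Phi b) hPm inter_subset_right
      rintro x ⟨hx, _⟩
      obtain ⟨k, hk⟩ := Phi_small (g := g) (η := e / (2 * ((d : ℝ) + 3))) hP ha hx.1 hx.2 (by positivity)
      refine ⟨k, ?_⟩
      refine (measure_mono hk).trans ((tube_vol _ _ _ _ _).trans (le_of_eq ?_))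
      rw [cub_vol]
      have e1 : ((idx (P k) x (Fin.last d) : ℝ) + 1) / 2 ^ P k -
          (idx (P k) x (Fin.last d) : ℝ) / 2 ^ P k = (1 / 2 : ℝ) ^ P k := by
        rw [div_pow, one_pow]
        ring
      have e2 : 2 * (((d : ℝ) + 3) * (e / (2 * ((d : ℝ) + 3))) * (1 / 2) ^ P k) =
          e * (1 / 2) ^ P k := by
        field_simp
      rw [e1, e2, ENNReal.ofReal_mul he.le, mul_pow, pow_succ]
      ring
    have hVt : volume (Metric.closedBall (0 : Fin (d + 1) → ℝ) (R + 1)) ≠ ∞ :=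
      (isCompact_closedBall _ _).measure_lt_top.ne
    have hlim : Tendsto (fun n : ℕ => ENNReal.ofReal (1 / ((n : ℝ) + 1)) ^ d *
        volume (Metric.closedBall (0 : Fin (d + 1) → ℝ) (R + 1))) atTop (𝓝 0) := by
      have h1 : Tendsto (fun n : ℕ => ENNReal.ofReal (1 / ((n : ℝ) + 1))) atTop (𝓝 0) := by
        have := ENNReal.tendsto_ofReal (tendsto_one_div_add_atTop_nhds_zero_nat (𝕜 := ℝ))
        rwa [ENNReal.ofReal_zero] at this
      have h2 := (ENNReal.continuous_pow d).tendsto 0 |>.comp h1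
      rw [zero_pow hd.ne'] at h2
      have h3 := ENNReal.Tendsto.mul_const h2 (Or.inr hVt)
      rw [zero_mul] at h3
      exact h3
    exact le_antisymm (ge_of_tendsto' hlim (fun n => hkey _ (by positivity))) zero_le
  refine measure_mono_null ?_ (measure_iUnion_null hR)
  rintro _ ⟨x, hx, rfl⟩
  obtain ⟨R, hRx⟩ := exists_nat_ge ‖x‖
  exact mem_iUnion.2 ⟨R, mem_image_of_mem _ ⟨hx, by simpa using hRx⟩⟩

/-- **The universal bad selection.** -/
theorem exists_bad {d : ℕ} (hd : 0 < d) : ∃ a : (Fin d → ℝ) → Fin d → ℝ,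
    (∀ H : ℝ, 0 < H → H < 1 → ∃ A : ℝ, ∀ v w, dist (a v) (a w) ≤ A * dist v w ^ H) ∧
    ∀ g : (Fin d → ℝ) → Fin d → ℝ, (∀ᵐ v, DifferentiableAt ℝ g v) →
      ∃ K : Set (E (d + 1)), volume K = 0 ∧
        ∀ᵐ v, ∀ t : ℝ, lpt (fun v i => a v i + g v i) v t ∈ K := by
  obtain ⟨a, P, D, h1, h2, h3, h4, h5⟩ := exists_rough d
  refine ⟨a, h1, ?_⟩
  intro g hg
  refine ⟨_, Phi_null (g := g) hd h2 h3 h5, ?_⟩
  filter_upwards [h4, hg] with v hv hgv
  intro t
  refine ⟨Fin.snoc v t, ?_, ?_⟩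
  · have : Fin.init (Fin.snoc v t : Fin (d + 1) → ℝ) = v := Fin.init_snoc _ _
    show Fin.init (Fin.snoc v t : Fin (d + 1) → ℝ) ∈ D ∧
      DifferentiableAt ℝ g (Fin.init (Fin.snoc v t : Fin (d + 1) → ℝ) : Fin d → ℝ)
    rw [this]
    exact ⟨hv, hgv⟩
  · have e1 : Fin.init (Fin.snoc v t : Fin (d + 1) → ℝ) = v := Fin.init_snoc _ _
    have e2 : (Fin.snoc v t : Fin (d + 1) → ℝ) (Fin.last d) = t := Fin.snoc_last _ _
    show lpt _ (Fin.init (Fin.snoc v t : Fin (d + 1) → ℝ))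
      ((Fin.snoc v t : Fin (d + 1) → ℝ) (Fin.last d)) = _
    rw [e1, e2]

end Pool.Agent.V5helper78.KK
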