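import Mathlib

set_option autoImplicit false

/-!
# Small ball estimates for a random matrix
-/

open MeasureTheory Set Filter Topology ENNReal NNReal Metric

namespace Pool.Agent.V5helper78.KK

/-- The row set. -/
def rowSet {m : ℕ} (ρ s z : ℝ) (y : Fin m → ℝ) : Set (Fin m → ℝ) :=
  {c | c ∈ univ.pi (fun _ => Icc (-ρ) ρ) ∧ |z + ∑ j, c j * y j| ≤ s}

theorem line_vol {y : ℝ} (hy : y ≠ 0) (z s : ℝ) :
    volume {u : ℝ | |z + u * y| ≤ s} ≤ ENNReal.ofReal (2 * (s / |y|)) := by
  have h : {u : ℝ | |z + u * y| ≤ s} ⊆ closedBall (-z / y) (s / |y|) := by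
    intro u hu
    change |z + u * y| ≤ s at hu
    rw [mem_closedBall, Real.dist_eq, le_div_iff₀ (abs_pos.2 hy), ← abs_mul]
    have : (u - -z / y) * y = z + u * y := by
      field_simp
      ring
    rw [this]
    exact hu
  calc volume {u : ℝ | |z + u * y| ≤ s} ≤ volume (closedBall (-z / y) (s / |y|)) :=
        measure_mono h
    _ = _ := Real.volume_closedBall _ _

theorem row_vol {m : ℕ} {y : Fin m → ℝ} (hy : y ≠ 0) (z s : ℝ) {ρ : ℝ} (hρ : 0 ≤ ρ) :
    volume (rowSet ρ s z y) ≤ ENNReal.ofReal ((2 * ρ) ^ (m - 1) * (2 * (s / ‖y‖))) := by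
  have hpos : 0 < ‖y‖ := norm_pos_iff.2 hy
  obtain ⟨j, hj⟩ : ∃ j, |y j| = ‖y‖ := by
    by_contra hcon
    push Not at hcon
    have h1 : ∀ j, ‖y j‖ < ‖y‖ := by
      intro j
      have h2 := norm_le_pi_norm y j
      have h3 := hcon j
      rw [← Real.norm_eq_abs] at h3
      exact lt_of_le_of_ne h2 h3
    exact lt_irrefl _ ((pi_norm_lt_iff hpos).2 h1)
  have hyj : y j ≠ 0 := by
    intro h
    rw [h, abs_zero] at hj
    exact hpos.ne hj
  obtain ⟨m', rfl⟩ : ∃ m', m = m' + 1 := by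
    refine ⟨m - 1, ?_⟩
    have := j.pos
    omega
  set e := MeasurableEquiv.piFinSuccAbove (fun _ : Fin (m' + 1) => ℝ) j with he
  have hmp : MeasurePreserving e.symm := (volume_preserving_piFinSuccAbove _ j).symm
  have hms : MeasurableSet (rowSet ρ s z y) := by
    have h1 : MeasurableSet {c : Fin (m' + 1) → ℝ | |z + ∑ j, c j * y j| ≤ s} :=
      measurableSet_le (by fun_prop) (by fun_prop)
    exact MeasurableSet.inter (MeasurableSet.univ_pi (fun _ => measurableSet_Icc)) h1
  rw [← hmp.measure_preimage hms.nullMeasurableSet]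
  set T : Set (ℝ × (Fin m' → ℝ)) := {q | q.2 ∈ univ.pi (fun _ => Icc (-ρ) ρ) ∧
    |(z + ∑ i : Fin m', q.2 i * y (j.succAbove i)) + q.1 * y j| ≤ s} with hT
  have hTm : MeasurableSet T := by
    have h1 : MeasurableSet {q : ℝ × (Fin m' → ℝ) |
        |(z + ∑ i : Fin m', q.2 i * y (j.succAbove i)) + q.1 * y j| ≤ s} :=
      measurableSet_le (by fun_prop) (by fun_prop)
    exact MeasurableSet.inter
      (measurable_snd (MeasurableSet.univ_pi (fun _ => measurableSet_Icc))) h1
  have hsub : e.symm ⁻¹' (rowSet ρ s z y) ⊆ T := by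
    rintro ⟨u, c⟩ ⟨h1, h2⟩
    have e1 : ∀ i : Fin m', e.symm (u, c) (j.succAbove i) = c i := by
      intro i
      rw [he, MeasurableEquiv.piFinSuccAbove_symm_apply]
      simp [Fin.insertNthEquiv]
    have e2 : e.symm (u, c) j = u := by
      rw [he, MeasurableEquiv.piFinSuccAbove_symm_apply]
      simp [Fin.insertNthEquiv]
    refine ⟨?_, ?_⟩
    · rw [mem_univ_pi] at h1 ⊢
      intro i
      show c i ∈ _
      rw [← e1 i]
      exact h1 _
    · rw [Fin.sum_univ_succAbove _ j] at h2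
      simp only [e1, e2] at h2
      show |(z + ∑ i : Fin m', c i * y (j.succAbove i)) + u * y j| ≤ s
      convert h2 using 2
      ring
  refine (measure_mono hsub).trans ?_
  show (volume.prod volume) T ≤ _
  rw [Measure.prod_apply_symm hTm]
  calc ∫⁻ c : Fin m' → ℝ, volume ((fun x => (x, c)) ⁻¹' T)
      ≤ ∫⁻ c : Fin m' → ℝ, (univ.pi (fun _ : Fin m' => Icc (-ρ) ρ)).indicator
          (fun _ => ENNReal.ofReal (2 * (s / ‖y‖))) c := by
        apply lintegral_mono
        intro c
        show volume ((fun x => (x, c)) ⁻¹' T) ≤ (univ.pi (fun _ : Fin m' => Icc (-ρ) ρ)).indicator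
          (fun _ => ENNReal.ofReal (2 * (s / ‖y‖))) c
        by_cases hc : c ∈ univ.pi (fun _ : Fin m' => Icc (-ρ) ρ)
        · rw [indicator_of_mem hc, ← hj]
          refine le_trans (measure_mono ?_)
            (line_vol hyj (z + ∑ i : Fin m', c i * y (j.succAbove i)) s)
          intro u hu
          exact hu.2
        · rw [indicator_of_notMem hc]
          have : (fun x => (x, c)) ⁻¹' T = ∅ := by
            rw [eq_empty_iff_forall_notMem]
            intro u hu
            exact hc hu.1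
          rw [this]
          simp
    _ = ENNReal.ofReal (2 * (s / ‖y‖)) * volume (univ.pi (fun _ : Fin m' => Icc (-ρ) ρ)) := by
        rw [lintegral_indicator (MeasurableSet.univ_pi (fun _ => measurableSet_Icc)),
          setLIntegral_const]
    _ ≤ _ := by
        rw [volume_pi_pi]
        simp only [Real.volume_Icc, Finset.prod_const, Finset.card_univ, Fintype.card_fin,
          Nat.add_sub_cancel]
        rw [sub_neg_eq_add, ← two_mul, ← ENNReal.ofReal_pow (by positivity), mul_comm,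
          ← ENNReal.ofReal_mul (by positivity)]

/-- The matrix set. -/
def matSet {d m : ℕ} (ρ s : ℝ) (z : Fin d → ℝ) (y : Fin m → ℝ) : Set (Fin d → Fin m → ℝ) :=
  {C | (∀ i, C i ∈ univ.pi (fun _ => Icc (-ρ) ρ)) ∧ ∀ i, |z i + ∑ j, C i j * y j| ≤ s}

theorem mat_vol {d m : ℕ} {y : Fin m → ℝ} (hy : y ≠ 0) (z : Fin d → ℝ) {s ρ : ℝ} (hs : 0 ≤ s)
    (hρ : 0 ≤ ρ) :
    volume (matSet ρ s z y) ≤ ENNReal.ofReal (((2 * ρ) ^ (m - 1) * (2 * s)) ^ d * (‖y‖ ^ d)⁻¹) := by
  have h1 : matSet ρ s z y = univ.pi (fun i => rowSet ρ s (z i) y) := by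
    ext C
    simp only [matSet, rowSet, mem_ofPred_eq, mem_univ_pi]
    exact ⟨fun h i => ⟨h.1 i, h.2 i⟩, fun h => ⟨fun i => (h i).1, fun i => (h i).2⟩⟩
  rw [h1, volume_pi_pi]
  calc ∏ i, volume (rowSet ρ s (z i) y)
      ≤ ∏ _i : Fin d, ENNReal.ofReal ((2 * ρ) ^ (m - 1) * (2 * (s / ‖y‖))) :=
        Finset.prod_le_prod' (fun i _ => row_vol hy (z i) s hρ)
    _ = _ := by
        rw [Finset.prod_const, Finset.card_univ, Fintype.card_fin, ← ENNReal.ofReal_pow]
        · congr 1
          rw [← inv_pow, ← mul_pow]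
          congr 1
          rw [div_eq_mul_inv]
          ring
        · positivity

end Pool.Agent.V5helper78.KK
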