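import Pool.Agent.V5helper78.KK.Lp
import Pool.Agent.V5helper78.KK.Ball

set_option autoImplicit false

/-!
# Perturbed families of lines: averages over the perturbation
-/

open MeasureTheory Set Filter Topology ENNReal NNReal Metric

namespace Pool.Agent.V5helper78.KK

/-- Euclidean space of dimension `n`. -/
abbrev E (n : ℕ) : Type := EuclideanSpace ℝ (Fin n)

/-- The point at height `t` of line number `v` of a family: horizontal coordinates
`b v i + t * v i`, last coordinate `t`. -/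
noncomputable def lpt {d : ℕ} (b : (Fin d → ℝ) → Fin d → ℝ) (v : Fin d → ℝ) (t : ℝ) :
    E (d + 1) :=
  WithLp.toLp 2 (Fin.snoc (fun i => b v i + t * v i) t : Fin (d + 1) → ℝ)

/-- The perturbation of `a` by the probe `ψ` with coefficients `C`. -/
noncomputable def per {d m : ℕ} (a : (Fin d → ℝ) → Fin d → ℝ) (ψ : (Fin d → ℝ) → Fin m → ℝ)
    (C : Fin d → Fin m → ℝ) (v : Fin d → ℝ) (i : Fin d) : ℝ :=
  a v i + ∑ j, C i j * ψ v j

/-- Lebesgue measure on `[-N, N]`. -/
noncomputable def nu (N : ℝ) : Measure ℝ := volume.restrict (Icc (-N) N)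

/-- Lebesgue measure on `[-N, N]^d`. -/
noncomputable def nud (d : ℕ) (N : ℝ) : Measure (Fin d → ℝ) :=
  volume.restrict (univ.pi fun _ => Icc (-N) N)

instance (N : ℝ) : IsFiniteMeasure (nu N) := by
  unfold nu
  infer_instance

instance (d : ℕ) (N : ℝ) : IsFiniteMeasure (nud d N) := by
  unfold nud
  constructor
  rw [Measure.restrict_apply_univ, volume_pi_pi]
  exact ENNReal.prod_lt_top (fun i _ => measure_Icc_lt_top)

/-- The cube of matrices. -/
def cube (d m : ℕ) (ρ : ℝ) : Set (Fin d → Fin m → ℝ) :=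
  {C | ∀ i, C i ∈ univ.pi (fun _ => Icc (-ρ) ρ)}

theorem cube_meas (d m : ℕ) (ρ : ℝ) : MeasurableSet (cube d m ρ) := by
  have : cube d m ρ = univ.pi (fun _ => univ.pi (fun _ => Icc (-ρ) ρ)) := by
    ext C
    rw [mem_univ_pi]
    rfl
  rw [this]
  exact MeasurableSet.univ_pi (fun _ => MeasurableSet.univ_pi (fun _ => measurableSet_Icc))

/-- Lebesgue measure on the cube. -/
noncomputable def lam (d m : ℕ) (ρ : ℝ) : Measure (Fin d → Fin m → ℝ) :=
  volume.restrict (cube d m ρ)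

instance (d m : ℕ) (ρ : ℝ) : SFinite (lam d m ρ) := by
  unfold lam
  infer_instance

section meas

variable {d m : ℕ} {a : (Fin d → ℝ) → Fin d → ℝ} {ψ : (Fin d → ℝ) → Fin m → ℝ}

theorem meas_per (ha : Measurable a) (hψ : Measurable ψ) :
    Measurable (fun q : (Fin d → Fin m → ℝ) × (Fin d → ℝ) => per a ψ q.1 q.2) := by
  rw [measurable_pi_iff]
  intro i
  unfold per
  have h1 : Measurable (fun q : (Fin d → Fin m → ℝ) × (Fin d → ℝ) => a q.2 i) :=
    (measurable_pi_apply i).comp (ha.comp measurable_snd)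
  have h2 : ∀ j, Measurable (fun q : (Fin d → Fin m → ℝ) × (Fin d → ℝ) => ψ q.2 j) :=
    fun j => (measurable_pi_apply j).comp (hψ.comp measurable_snd)
  have h3 : ∀ j, Measurable (fun q : (Fin d → Fin m → ℝ) × (Fin d → ℝ) => q.1 i j) :=
    fun j => by fun_prop
  exact h1.add (Finset.measurable_sum _ (fun j _ => (h3 j).mul (h2 j)))

theorem meas_lpt {Ω : Type*} [MeasurableSpace Ω] {b : Ω → (Fin d → ℝ) → Fin d → ℝ}
    (hb : Measurable (fun q : Ω × (Fin d → ℝ) => b q.1 q.2)) :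
    Measurable (fun q : Ω × ((Fin d → ℝ) × ℝ) => lpt (b q.1) q.2.1 q.2.2) := by
  have h1 : Measurable (fun x : Ω × ((Fin d → ℝ) × ℝ) =>
      (Fin.snoc (fun i => b x.1 x.2.1 i + x.2.2 * x.2.1 i) x.2.2 : Fin (d + 1) → ℝ)) := by
    rw [measurable_pi_iff]
    intro j
    refine Fin.lastCases ?_ (fun i => ?_) j
    · simp only [Fin.snoc_last]
      exact measurable_snd.comp measurable_snd
    · simp only [Fin.snoc_castSucc]
      have hai : Measurable (fun x : Ω × ((Fin d → ℝ) × ℝ) => b x.1 x.2.1 i) := by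
        have h2 : Measurable (fun x : Ω × ((Fin d → ℝ) × ℝ) => (x.1, x.2.1)) := by fun_prop
        exact (measurable_pi_apply i).comp (hb.comp h2)
      exact hai.add (by fun_prop)
  exact (MeasurableEquiv.toLp 2 (Fin (d + 1) → ℝ)).measurable.comp h1

theorem meas_lpt1 {b : (Fin d → ℝ) → Fin d → ℝ} (hb : Measurable b) :
    Measurable (fun q : (Fin d → ℝ) × ℝ => lpt b q.1 q.2) := by
  have h := meas_lpt (Ω := Unit) (b := fun _ => b) (hb.comp measurable_snd)
  exact h.comp (measurable_prodMk_left (x := ()))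

/-- The set of coefficients and pairs of points that come close. -/
def G (a : (Fin d → ℝ) → Fin d → ℝ) (ψ : (Fin d → ℝ) → Fin m → ℝ) (r : ℝ) :
    Set ((Fin d → Fin m → ℝ) × (((Fin d → ℝ) × ℝ) × ((Fin d → ℝ) × ℝ))) :=
  {q | dist (lpt (per a ψ q.1) q.2.1.1 q.2.1.2) (lpt (per a ψ q.1) q.2.2.1 q.2.2.2) < r}

theorem meas_G (ha : Measurable a) (hψ : Measurable ψ) (r : ℝ) : MeasurableSet (G a ψ r) := by
  have h := meas_lpt (meas_per ha hψ)
  have h1 : Measurable (fun q : (Fin d → Fin m → ℝ) × (((Fin d → ℝ) × ℝ) × ((Fin d → ℝ) × ℝ)) =>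
    lpt (per a ψ q.1) q.2.1.1 q.2.1.2) := by
    have h2 : Measurable (fun q : (Fin d → Fin m → ℝ) × (((Fin d → ℝ) × ℝ) × ((Fin d → ℝ) × ℝ)) =>
      (q.1, q.2.1)) := by fun_prop
    exact h.comp h2
  have h1' : Measurable (fun q : (Fin d → Fin m → ℝ) × (((Fin d → ℝ) × ℝ) × ((Fin d → ℝ) × ℝ)) =>
    lpt (per a ψ q.1) q.2.2.1 q.2.2.2) := by
    have h2 : Measurable (fun q : (Fin d → Fin m → ℝ) × (((Fin d → ℝ) × ℝ) × ((Fin d → ℝ) × ℝ)) =>
      (q.1, q.2.2)) := by fun_prop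
    exact h.comp h2
  exact measurableSet_lt (h1.dist h1') measurable_const

end meas

theorem coord_le {n : ℕ} (x y : E n) (i : Fin n) : |x i - y i| ≤ dist x y := by
  have h2 := PiLp.norm_apply_le (x - y) i
  rw [← dist_eq_norm] at h2
  exact h2

/-- Probability that two points come close. -/
theorem sec_bound {d m : ℕ} (a : (Fin d → ℝ) → Fin d → ℝ) (ψ : (Fin d → ℝ) → Fin m → ℝ)
    {ρ r : ℝ} (hρ : 0 < ρ) (hr : 0 < r) (p q : (Fin d → ℝ) × ℝ) :
    lam d m ρ {C | (C, (p, q)) ∈ G a ψ r} ≤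
      ENNReal.ofReal (((2 * ρ) ^ (m - 1) * (2 * r)) ^ d) * (edist (ψ p.1) (ψ q.1) ^ d)⁻¹ *
        {s : ℝ | |p.2 - s| < r}.indicator 1 q.2 := by
  by_cases hts : |p.2 - q.2| < r
  swap
  · have : {C | (C, (p, q)) ∈ G a ψ r} = ∅ := by
      rw [eq_empty_iff_forall_notMem]
      intro C hC
      apply hts
      have h1 := coord_le (lpt (per a ψ C) p.1 p.2) (lpt (per a ψ C) q.1 q.2) (Fin.last d)
      have h2 : |p.2 - q.2| ≤ dist (lpt (per a ψ C) p.1 p.2) (lpt (per a ψ C) q.1 q.2) := by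
        simpa [lpt] using h1
      exact h2.trans_lt hC
    rw [this]
    simp
  rw [indicator_of_mem (show q.2 ∈ {s : ℝ | |p.2 - s| < r} from hts)]
  simp only [Pi.one_apply, mul_one]
  have hcon : (0 : ℝ) < ((2 * ρ) ^ (m - 1) * (2 * r)) ^ d := by positivity
  rcases Nat.eq_zero_or_pos d with hd | hd
  · subst hd
    simp only [pow_zero, ENNReal.ofReal_one, one_mul, inv_one]
    calc lam 0 m ρ {C | (C, (p, q)) ∈ G a ψ r} ≤ volume (univ : Set (Fin 0 → Fin m → ℝ)) := by
          unfold lam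
          exact (Measure.restrict_apply_le _ _).trans (measure_mono (subset_univ _))
      _ ≤ 1 := by
          rw [← pi_univ, volume_pi_pi]
          simp
  by_cases hy : ψ p.1 = ψ q.1
  · rw [hy, edist_self, zero_pow hd.ne', ENNReal.inv_zero, ENNReal.mul_top]
    · exact le_top
    · simpa using hcon
  · set y : Fin m → ℝ := ψ p.1 - ψ q.1 with hydef
    have hy0 : y ≠ 0 := sub_ne_zero.2 hy
    set z : Fin d → ℝ := fun i => a p.1 i - a q.1 i + (p.2 * p.1 i - q.2 * q.1 i) with hz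
    have hsub : {C | (C, (p, q)) ∈ G a ψ r} ∩ cube d m ρ ⊆ matSet ρ r z y := by
      rintro C ⟨hC, hCc⟩
      refine ⟨hCc, ?_⟩
      intro i
      have h1 := coord_le (lpt (per a ψ C) p.1 p.2) (lpt (per a ψ C) q.1 q.2) i.castSucc
      have h2 : |(per a ψ C p.1 i + p.2 * p.1 i) - (per a ψ C q.1 i + q.2 * q.1 i)| ≤
          dist (lpt (per a ψ C) p.1 p.2) (lpt (per a ψ C) q.1 q.2) := by
        simpa [lpt] using h1
      have h3 : (per a ψ C p.1 i + p.2 * p.1 i) - (per a ψ C q.1 i + q.2 * q.1 i) =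
          z i + ∑ j, C i j * y j := by
        simp only [per, hz, hydef, Pi.sub_apply, mul_sub, Finset.sum_sub_distrib]
        ring
      rw [← h3]
      exact (h2.trans_lt hC).le
    have h4 : edist (ψ p.1) (ψ q.1) = ENNReal.ofReal ‖y‖ := by
      rw [edist_dist, dist_eq_norm]
    have hyn : 0 < ‖y‖ := norm_pos_iff.2 hy0
    calc lam d m ρ {C | (C, (p, q)) ∈ G a ψ r}
        = volume ({C | (C, (p, q)) ∈ G a ψ r} ∩ cube d m ρ) :=
          Measure.restrict_apply' (cube_meas d m ρ)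
      _ ≤ volume (matSet ρ r z y) := measure_mono hsub
      _ ≤ _ := mat_vol hy0 z hr.le hρ.le
      _ = _ := by
          rw [h4, ← ENNReal.ofReal_pow hyn.le, ← ENNReal.ofReal_inv_of_pos (by positivity),
            ← ENNReal.ofReal_mul hcon.le]

/-- The energy of the probe. -/
noncomputable def energy {d m : ℕ} (ψ : (Fin d → ℝ) → Fin m → ℝ) (N : ℝ) : ℝ≥0∞ :=
  ∫⁻ v, ∫⁻ w, (edist (ψ v) (ψ w) ^ d)⁻¹ ∂(nud d N) ∂(nud d N)

theorem split_bound {V : Type*} [MeasurableSpace V] (μ : Measure V) [SFinite μ] (N r : ℝ)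
    (K : ℝ≥0∞) {k : V → V → ℝ≥0∞} (hk : Measurable (fun x : V × V => k x.1 x.2)) :
    ∫⁻ x : (V × ℝ) × (V × ℝ), K * k x.1.1 x.2.1 * {s : ℝ | |x.1.2 - s| < r}.indicator 1 x.2.2
      ∂((μ.prod (nu N)).prod (μ.prod (nu N))) ≤
      K * ((∫⁻ v, ∫⁻ w, k v w ∂μ ∂μ) * (ENNReal.ofReal (2 * r) * nu N univ)) := by
  set P := μ.prod (nu N) with hP
  have hS : MeasurableSet {x : ℝ × ℝ | |x.1 - x.2| < r} :=
    measurableSet_lt (by fun_prop) measurable_const
  have hI : Measurable (fun x : ℝ × ℝ => {x : ℝ × ℝ | |x.1 - x.2| < r}.indicator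
    (1 : ℝ × ℝ → ℝ≥0∞) x) := measurable_one.indicator hS
  have hIe : ∀ t s : ℝ, {s : ℝ | |t - s| < r}.indicator (1 : ℝ → ℝ≥0∞) s =
      {x : ℝ × ℝ | |x.1 - x.2| < r}.indicator (1 : ℝ × ℝ → ℝ≥0∞) (t, s) := by
    intro t s
    rfl
  have hF : Measurable (fun x : (V × ℝ) × (V × ℝ) =>
      K * k x.1.1 x.2.1 * {s : ℝ | |x.1.2 - s| < r}.indicator 1 x.2.2) := by
    simp_rw [hIe]
    have h1 : Measurable (fun x : (V × ℝ) × (V × ℝ) => (x.1.1, x.2.1)) := by
      fun_prop
    have h2 : Measurable (fun x : (V × ℝ) × (V × ℝ) => (x.1.2, x.2.2)) := by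
      fun_prop
    exact ((hk.comp h1).const_mul K).mul (hI.comp h2)
  have hin : Measurable (fun v => ∫⁻ w, k v w ∂μ) := Measurable.lintegral_prod_right' hk
  calc ∫⁻ x : (V × ℝ) × (V × ℝ), K * k x.1.1 x.2.1 *
          {s : ℝ | |x.1.2 - s| < r}.indicator 1 x.2.2 ∂(P.prod P)
      = ∫⁻ p, ∫⁻ q, K * k p.1 q.1 * {s : ℝ | |p.2 - s| < r}.indicator 1 q.2 ∂P ∂P :=
        lintegral_prod _ hF.aemeasurable
    _ ≤ ∫⁻ p, (K * ∫⁻ w, k p.1 w ∂μ) * ENNReal.ofReal (2 * r) ∂P := by
        apply lintegral_mono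
        intro p
        have hkp : Measurable (fun w => k p.1 w) :=
          hk.comp (measurable_prodMk_left (x := p.1))
        have hIp : Measurable (fun s : ℝ => {s : ℝ | |p.2 - s| < r}.indicator (1 : ℝ → ℝ≥0∞) s) := by
          simp_rw [hIe]
          exact hI.comp (measurable_prodMk_left (x := p.2))
        have h0 := lintegral_prod_mul (μ := μ) (ν := nu N) (f := fun w => K * k p.1 w)
          (g := fun s => {s : ℝ | |p.2 - s| < r}.indicator 1 s)
          (hkp.const_mul K).aemeasurable hIp.aemeasurable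
        have hms : MeasurableSet {s : ℝ | |p.2 - s| < r} :=
          measurableSet_lt (by fun_prop) measurable_const
        have hb : {s : ℝ | |p.2 - s| < r} = ball p.2 r := by
          ext s
          show |p.2 - s| < r ↔ dist s p.2 < r
          rw [Real.dist_eq, abs_sub_comm]
        have h2 : ∫⁻ s, {s : ℝ | |p.2 - s| < r}.indicator 1 s ∂(nu N) ≤ ENNReal.ofReal (2 * r) := by
          calc ∫⁻ s, {s : ℝ | |p.2 - s| < r}.indicator 1 s ∂(nu N)
            = nu N {s : ℝ | |p.2 - s| < r} := lintegral_indicator_one hms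
          _ ≤ volume {s : ℝ | |p.2 - s| < r} := Measure.restrict_apply_le _ _
          _ = _ := by rw [hb, Real.volume_ball]
        calc ∫⁻ q, K * k p.1 q.1 * {s : ℝ | |p.2 - s| < r}.indicator 1 q.2 ∂P
            = (∫⁻ w, K * k p.1 w ∂μ) * ∫⁻ s, {s : ℝ | |p.2 - s| < r}.indicator 1 s ∂(nu N) := h0
          _ ≤ (K * ∫⁻ w, k p.1 w ∂μ) * ENNReal.ofReal (2 * r) := by
              rw [lintegral_const_mul _ hkp]
              exact mul_le_mul' le_rfl h2
    _ = _ := by
        have hin2 : Measurable (fun p : V × ℝ => K * ∫⁻ w, k p.1 w ∂μ) :=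
          (hin.comp measurable_fst).const_mul K
        rw [lintegral_mul_const _ hin2, lintegral_const_mul _ (show Measurable
          (fun p : V × ℝ => ∫⁻ w, k p.1 w ∂μ) from hin.comp measurable_fst)]
        have h3 : ∫⁻ p : V × ℝ, ∫⁻ w, k p.1 w ∂μ ∂P =
            (∫⁻ v, ∫⁻ w, k v w ∂μ ∂μ) * nu N univ := by
          have h4 := lintegral_prod_mul (μ := μ) (ν := nu N)
            (f := fun v => ∫⁻ w, k v w ∂μ) (g := fun _ => 1)
            hin.aemeasurable aemeasurable_const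
          simp only [mul_one, lintegral_const, one_mul] at h4
          exact h4
        rw [h3]
        ring

theorem avg_bound {d m : ℕ} {a : (Fin d → ℝ) → Fin d → ℝ} {ψ : (Fin d → ℝ) → Fin m → ℝ}
    (ha : Measurable a) (hψ : Measurable ψ) {ρ r : ℝ} (hρ : 0 < ρ) (hr : 0 < r) (N : ℝ) :
    ∫⁻ C, (((nud d N).prod (nu N)).prod ((nud d N).prod (nu N))) {x | (C, x) ∈ G a ψ r} ∂(lam d m ρ)
      ≤ ENNReal.ofReal (((2 * ρ) ^ (m - 1) * (2 * r)) ^ d) * (energy ψ N *
        (ENNReal.ofReal (2 * r) * nu N univ)) := by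
  have hGm := meas_G ha hψ r
  have hk : Measurable (fun x : (Fin d → ℝ) × (Fin d → ℝ) => (edist (ψ x.1) (ψ x.2) ^ d)⁻¹) := by
    apply Measurable.inv
    apply Measurable.pow_const
    exact (hψ.comp measurable_fst).edist (hψ.comp measurable_snd)
  have e1 : ∫⁻ C, (((nud d N).prod (nu N)).prod ((nud d N).prod (nu N))) {x | (C, x) ∈ G a ψ r}
      ∂(lam d m ρ) =
      ((lam d m ρ).prod (((nud d N).prod (nu N)).prod ((nud d N).prod (nu N)))) (G a ψ r) :=
    (Measure.prod_apply hGm).symm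
  rw [e1, Measure.prod_apply_symm hGm]
  refine le_trans ?_ (split_bound (nud d N) N r
    (ENNReal.ofReal (((2 * ρ) ^ (m - 1) * (2 * r)) ^ d)) (k := fun v w => (edist (ψ v) (ψ w) ^ d)⁻¹) hk)
  apply lintegral_mono
  intro x
  exact sec_bound a ψ hρ hr x.1 x.2

end Pool.Agent.V5helper78.KK
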