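import Pool.Agent.V5helper78.KK.Avg

set_option autoImplicit false

/-!
# Dyadic covers
-/

open MeasureTheory Set Filter Topology ENNReal NNReal Metric

namespace Pool.Agent.V5helper78.KK

/-- Index of the dyadic cube of level `p`. -/
noncomputable def idx {D : ℕ} (p : ℕ) (x : Fin D → ℝ) : Fin D → ℤ := fun i => ⌊(2 : ℝ) ^ p * x i⌋

/-- Dyadic cubes. -/
def cub {D : ℕ} (p : ℕ) (q : Fin D → ℤ) : Set (Fin D → ℝ) := {x | idx p x = q}

theorem floor_nest {p p' : ℕ} (h : p ≤ p') {x y : ℝ} (he : ⌊(2 : ℝ) ^ p' * x⌋ = ⌊(2 : ℝ) ^ p' * y⌋) :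
    ⌊(2 : ℝ) ^ p * x⌋ = ⌊(2 : ℝ) ^ p * y⌋ := by
  have key : ∀ z : ℝ, ⌊(2 : ℝ) ^ p * z⌋ = ⌊(2 : ℝ) ^ p' * z⌋ / ((2 ^ (p' - p) : ℕ) : ℤ) := by
    intro z
    rw [← Int.floor_div_natCast]
    congr 1
    push_cast
    have h1 : (2 : ℝ) ^ p' = 2 ^ p * 2 ^ (p' - p) := by
      rw [← pow_add, Nat.add_sub_cancel' h]
    rw [h1]
    field_simp
  rw [key, key, he]

theorem idx_nest {D : ℕ} {p p' : ℕ} (h : p ≤ p') {x y : Fin D → ℝ} (he : idx p' x = idx p' y) :
    idx p x = idx p y := by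
  funext i
  exact floor_nest h (congrFun he i)

theorem floor_close {p : ℕ} {x y : ℝ} (he : ⌊(2 : ℝ) ^ p * x⌋ = ⌊(2 : ℝ) ^ p * y⌋) :
    |x - y| ≤ (1 / 2 : ℝ) ^ p := by
  have h1 := Int.abs_sub_lt_one_of_floor_eq_floor he
  have h2 : (0 : ℝ) < 2 ^ p := by positivity
  rw [← mul_sub, abs_mul, abs_of_pos h2] at h1
  have h3 : (1 / 2 : ℝ) ^ p = 1 / 2 ^ p := by rw [div_pow, one_pow]
  rw [h3, le_div_iff₀ h2]
  linarith

theorem cub_eq {D : ℕ} (p : ℕ) (q : Fin D → ℤ) :
    cub p q = univ.pi (fun i => Ico ((q i : ℝ) / 2 ^ p) (((q i : ℝ) + 1) / 2 ^ p)) := by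
  ext x
  have h2 : (0 : ℝ) < 2 ^ p := by positivity
  rw [mem_univ_pi]
  constructor
  · intro h i
    have h1 : ⌊(2 : ℝ) ^ p * x i⌋ = q i := congrFun h i
    rw [Int.floor_eq_iff] at h1
    refine ⟨?_, ?_⟩
    · rw [div_le_iff₀ h2]; linarith [h1.1]
    · rw [lt_div_iff₀ h2]; linarith [h1.2]
  · intro h
    funext i
    show ⌊(2 : ℝ) ^ p * x i⌋ = q i
    have h1 := h i
    rw [Int.floor_eq_iff]
    rw [mem_Ico, div_le_iff₀ h2, lt_div_iff₀ h2] at h1
    exact ⟨by linarith [h1.1], by linarith [h1.2]⟩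

theorem cub_meas {D : ℕ} (p : ℕ) (q : Fin D → ℤ) : MeasurableSet (cub p q) := by
  rw [cub_eq]
  exact MeasurableSet.univ_pi (fun _ => measurableSet_Ico)

theorem cub_vol {D : ℕ} (p : ℕ) (q : Fin D → ℤ) :
    volume (cub p q) = ENNReal.ofReal ((1 / 2 : ℝ) ^ p) ^ D := by
  rw [cub_eq, volume_pi_pi]
  simp only [Real.volume_Ico]
  have h1 : ∀ i : Fin D, ((q i : ℝ) + 1) / 2 ^ p - (q i : ℝ) / 2 ^ p = (1 / 2 : ℝ) ^ p := by
    intro i
    rw [div_pow, one_pow]
    ring
  simp_rw [h1]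
  rw [Finset.prod_const, Finset.card_univ, Fintype.card_fin]

/-- **The dyadic cover.** -/
theorem dyad_cover {D : ℕ} {X : Type*} [MeasurableSpace X] (ν : Measure X) (Φ : (Fin D → ℝ) → X)
    {p : ℕ → ℕ} (hp : Monotone p) {G : Set (Fin D → ℝ)} {R : ℝ} (hG : G ⊆ closedBall 0 R)
    {ε : ℝ≥0∞}
    (h : ∀ x ∈ G, ∃ k, ν (Φ '' cub (p k) (idx (p k) x)) ≤ ε * volume (cub (p k) (idx (p k) x))) :
    ν (Φ '' G) ≤ ε * volume (closedBall (0 : Fin D → ℝ) (R + 1)) := by
  classical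
  set P : (Fin D → ℝ) → ℕ → Prop := fun x k =>
    ν (Φ '' cub (p k) (idx (p k) x)) ≤ ε * volume (cub (p k) (idx (p k) x)) with hP
  have hex : ∀ x ∈ G, ∃ k, P x k := h
  set κ : (Fin D → ℝ) → ℕ := fun x => if hx : ∃ k, P x k then Nat.find hx else 0 with hκ
  have hκ1 : ∀ x, (∃ k, P x k) → P x (κ x) := by
    intro x hx
    simp only [hκ, dif_pos hx]
    exact Nat.find_spec hx
  have hκ2 : ∀ x k, P x k → κ x ≤ k := by
    intro x k hk
    have hx : ∃ k, P x k := ⟨k, hk⟩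
    simp only [hκ]
    rw [dif_pos hx]
    exact Nat.find_min' hx hk
  set Q : Set (ℕ × (Fin D → ℤ)) := (fun x => (κ x, idx (p (κ x)) x)) '' G with hQ
  have hQc : Q.Countable := to_countable Q
  have hdis : Q.PairwiseDisjoint (fun z => cub (p z.1) z.2) := by
    rintro _ ⟨x, hx, rfl⟩ _ ⟨x', hx', rfl⟩ hne
    rw [Function.onFun, disjoint_left]
    intro y hy hy'
    apply hne
    have hy1 : idx (p (κ x)) y = idx (p (κ x)) x := hy
    have hy2 : idx (p (κ x')) y = idx (p (κ x')) x' := hy'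
    have hmain : ∀ {x x' : Fin D → ℝ}, (∃ k, P x k) → κ x ≤ κ x' →
        idx (p (κ x)) y = idx (p (κ x)) x → idx (p (κ x')) y = idx (p (κ x')) x' →
        κ x = κ x' ∧ idx (p (κ x)) x = idx (p (κ x')) x' := by
      intro x x' hx hle h1 h2
      have h3 : idx (p (κ x)) y = idx (p (κ x)) x' := idx_nest (hp hle) h2
      have h4 : idx (p (κ x)) x' = idx (p (κ x)) x := h3.symm.trans h1
      have h5 : P x' (κ x) := by
        have h6 := hκ1 x hx
        simp only [hP] at h6 ⊢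
        rw [h4]
        exact h6
      have h6 : κ x = κ x' := le_antisymm hle (hκ2 x' _ h5)
      exact ⟨h6, by rw [← h6]; exact h4.symm⟩
    rcases le_total (κ x) (κ x') with hle | hle
    · obtain ⟨h1, h2⟩ := hmain (hex x hx) hle hy1 hy2
      exact Prod.ext h1 h2
    · obtain ⟨h1, h2⟩ := hmain (hex x' hx') hle hy2 hy1
      exact Prod.ext h1.symm h2.symm
  have hsub : Φ '' G ⊆ ⋃ z ∈ Q, Φ '' cub (p z.1) z.2 := by
    rintro _ ⟨x, hx, rfl⟩
    refine mem_biUnion (mem_image_of_mem _ hx) ?_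
    exact mem_image_of_mem _ rfl
  have hball : (⋃ z ∈ Q, cub (p z.1) z.2) ⊆ closedBall (0 : Fin D → ℝ) (R + 1) := by
    apply iUnion₂_subset
    rintro _ ⟨x, hx, rfl⟩ y hy
    have h1 : ‖x‖ ≤ R := by simpa using hG hx
    have h2 : ‖y - x‖ ≤ 1 := by
      rw [pi_norm_le_iff_of_nonneg zero_le_one]
      intro i
      rw [Real.norm_eq_abs]
      refine (floor_close (congrFun hy i)).trans ?_
      exact pow_le_one₀ (by norm_num) (by norm_num)
    rw [mem_closedBall_zero_iff]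
    calc ‖y‖ = ‖x + (y - x)‖ := by congr 1; abel
      _ ≤ ‖x‖ + ‖y - x‖ := norm_add_le _ _
      _ ≤ R + 1 := by linarith
  calc ν (Φ '' G) ≤ ν (⋃ z ∈ Q, Φ '' cub (p z.1) z.2) := measure_mono hsub
    _ ≤ ∑' z : Q, ν (Φ '' cub (p z.1.1) z.1.2) := measure_biUnion_le ν hQc _
    _ ≤ ∑' z : Q, ε * volume (cub (p z.1.1) z.1.2) := by
        apply ENNReal.tsum_le_tsum
        rintro ⟨_, ⟨x, hx, rfl⟩⟩
        exact hκ1 x (hex x hx)
    _ = ε * ∑' z : Q, volume (cub (p z.1.1) z.1.2) := ENNReal.tsum_mul_left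
    _ = ε * volume (⋃ z ∈ Q, cub (p z.1) z.2) := by
        rw [measure_biUnion hQc hdis (fun z _ => cub_meas _ _)]
    _ ≤ _ := by
        gcongr

/-- A curved tube. -/
def tube {d : ℕ} (c v : Fin d → ℝ) (t₀ t₁ ρ : ℝ) : Set (E (d + 1)) :=
  {y | y (Fin.last d) ∈ Icc t₀ t₁ ∧ ∀ i : Fin d, |y i.castSucc - (c i + y (Fin.last d) * v i)| ≤ ρ}

theorem tube_vol {d : ℕ} (c v : Fin d → ℝ) (t₀ t₁ ρ : ℝ) :
    volume (tube c v t₀ t₁ ρ) ≤ ENNReal.ofReal (t₁ - t₀) * ENNReal.ofReal (2 * ρ) ^ d := by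
  have hmp1 : MeasurePreserving (MeasurableEquiv.toLp 2 (Fin (d + 1) → ℝ)) :=
    (PiLp.volume_preserving_toLp (Fin (d + 1)))
  set e := MeasurableEquiv.piFinSuccAbove (fun _ : Fin (d + 1) => ℝ) (Fin.last d) with he
  have hmp2 : MeasurePreserving e.symm := (volume_preserving_piFinSuccAbove _ (Fin.last d)).symm
  have hmp := hmp1.comp hmp2
  have hms : MeasurableSet (tube c v t₀ t₁ ρ) := by
    have h1 : MeasurableSet {y : E (d + 1) | y (Fin.last d) ∈ Icc t₀ t₁} :=
      (by fun_prop : Measurable (fun y : E (d + 1) => y (Fin.last d))) measurableSet_Icc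
    have h2 : MeasurableSet {y : E (d + 1) | ∀ i : Fin d,
        |y i.castSucc - (c i + y (Fin.last d) * v i)| ≤ ρ} := by
      rw [ofPred_forall]
      exact MeasurableSet.iInter (fun i => measurableSet_le (by fun_prop) measurable_const)
    exact h1.inter h2
  rw [← hmp.measure_preimage hms.nullMeasurableSet]
  set T : Set (ℝ × (Fin d → ℝ)) := {q | q.1 ∈ Icc t₀ t₁ ∧
    ∀ i : Fin d, |q.2 i - (c i + q.1 * v i)| ≤ ρ} with hT
  have hTm : MeasurableSet T := by
    have h1 : MeasurableSet {q : ℝ × (Fin d → ℝ) | q.1 ∈ Icc t₀ t₁} :=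
      measurable_fst measurableSet_Icc
    have h2 : MeasurableSet {q : ℝ × (Fin d → ℝ) | ∀ i : Fin d, |q.2 i - (c i + q.1 * v i)| ≤ ρ} := by
      rw [ofPred_forall]
      exact MeasurableSet.iInter (fun i => measurableSet_le (by fun_prop) measurable_const)
    exact h1.inter h2
  have hsub : (⇑(MeasurableEquiv.toLp 2 (Fin (d + 1) → ℝ)) ∘ ⇑e.symm) ⁻¹' (tube c v t₀ t₁ ρ) ⊆ T := by
    rintro ⟨u, w⟩ ⟨h1, h2⟩
    have e1 : ∀ i : Fin d, e.symm (u, w) i.castSucc = w i := by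
      intro i
      rw [he, MeasurableEquiv.piFinSuccAbove_symm_apply, ← Fin.succAbove_last]
      simp [Fin.insertNthEquiv]
    have e2 : e.symm (u, w) (Fin.last d) = u := by
      rw [he, MeasurableEquiv.piFinSuccAbove_symm_apply]
      simp [Fin.insertNthEquiv]
    have e3 : ∀ j, (MeasurableEquiv.toLp 2 (Fin (d + 1) → ℝ)) (e.symm (u, w)) j = e.symm (u, w) j :=
      fun j => rfl
    refine ⟨?_, ?_⟩
    · show u ∈ _
      rw [← e2]
      exact h1
    · intro i
      have h3 := h2 i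
      simp only [Function.comp_apply, e3, e1, e2] at h3
      exact h3
  refine (measure_mono hsub).trans ?_
  show (volume.prod volume) T ≤ _
  rw [Measure.prod_apply hTm]
  calc ∫⁻ u : ℝ, volume (Prod.mk u ⁻¹' T)
      ≤ ∫⁻ u : ℝ, (Icc t₀ t₁).indicator (fun _ => ENNReal.ofReal (2 * ρ) ^ d) u := by
        apply lintegral_mono
        intro u
        show volume (Prod.mk u ⁻¹' T) ≤ (Icc t₀ t₁).indicator (fun _ => ENNReal.ofReal (2 * ρ) ^ d) u
        by_cases hu : u ∈ Icc t₀ t₁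
        · rw [indicator_of_mem hu]
          calc volume (Prod.mk u ⁻¹' T)
              ≤ volume (univ.pi (fun i : Fin d => closedBall (c i + u * v i) ρ)) := by
                apply measure_mono
                intro w hw
                rw [mem_univ_pi]
                intro i
                rw [mem_closedBall, Real.dist_eq]
                exact hw.2 i
            _ = _ := by
                rw [volume_pi_pi]
                simp only [Real.volume_closedBall]
                rw [Finset.prod_const, Finset.card_univ, Fintype.card_fin]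
        · rw [indicator_of_notMem hu]
          have : Prod.mk u ⁻¹' T = ∅ := by
            rw [eq_empty_iff_forall_notMem]
            intro w hw
            exact hu hw.1
          rw [this]
          simp
    _ = _ := by
        rw [lintegral_indicator measurableSet_Icc, setLIntegral_const, Real.volume_Icc, mul_comm]

end Pool.Agent.V5helper78.KK
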