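import Pool.Agent.V5helper78.KK.Avg

set_option autoImplicit false

/-!
# The general theorem for probes of finite energy
-/

open MeasureTheory Set Filter Topology ENNReal NNReal Metric

namespace Pool.Agent.V5helper78.KK

/-- The radii. -/
noncomputable def rk (k : ℕ) : ℝ := 1 / ((k : ℝ) + 1)

theorem rk_pos (k : ℕ) : 0 < rk k := by
  unfold rk
  positivity

theorem rk_lim : Tendsto rk atTop (𝓝 0) := tendsto_one_div_add_atTop_nhds_zero_nat

/-- Volume of the unit ball. -/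
noncomputable def cn (d : ℕ) : ℝ≥0∞ :=
  ENNReal.ofReal (√Real.pi ^ (d + 1) / Real.Gamma (((d + 1 : ℕ) : ℝ) / 2 + 1))

theorem cn_ne_zero (d : ℕ) : cn d ≠ 0 := by
  unfold cn
  rw [ne_eq, ENNReal.ofReal_eq_zero, not_le]
  have h1 : 0 < Real.Gamma (((d + 1 : ℕ) : ℝ) / 2 + 1) := Real.Gamma_pos_of_pos (by positivity)
  have h2 : 0 < √Real.pi := Real.sqrt_pos.2 Real.pi_pos
  positivity

theorem cn_ne_top (d : ℕ) : cn d ≠ ∞ := ENNReal.ofReal_ne_top

/-- Volume of balls. -/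
noncomputable def vk (d k : ℕ) : ℝ≥0∞ := ENNReal.ofReal (rk k) ^ (d + 1) * cn d

theorem vk_eq (d k : ℕ) (x : E (d + 1)) : volume (ball x (rk k)) = vk d k := by
  rw [EuclideanSpace.volume_ball]
  simp only [Fintype.card_fin]
  rfl

theorem vk_ne_zero (d k : ℕ) : vk d k ≠ 0 := by
  unfold vk
  have h1 := rk_pos k
  refine mul_ne_zero (pow_ne_zero _ ?_) (cn_ne_zero d)
  simpa using h1

theorem vk_ne_top (d k : ℕ) : vk d k ≠ ∞ :=
  ENNReal.mul_ne_top (ENNReal.pow_ne_top ENNReal.ofReal_ne_top) (cn_ne_top d)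

/-- Lebesgue measure on the box of parameters. -/
noncomputable def box (d : ℕ) (N : ℝ) : Measure ((Fin d → ℝ) × ℝ) := (nud d N).prod (nu N)

instance (d : ℕ) (N : ℝ) : IsFiniteMeasure (box d N) := by
  unfold box
  infer_instance

/-- The energy at scale `k`. -/
noncomputable def Jk {d m : ℕ} (a : (Fin d → ℝ) → Fin d → ℝ) (ψ : (Fin d → ℝ) → Fin m → ℝ) (N : ℝ)
    (k : ℕ) (C : Fin d → Fin m → ℝ) : ℝ≥0∞ :=
  ((box d N).prod (box d N)) {x | (C, x) ∈ G a ψ (2 * rk k)} / vk d k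

theorem crit {d m : ℕ} {a : (Fin d → ℝ) → Fin d → ℝ} {ψ : (Fin d → ℝ) → Fin m → ℝ}
    (ha : Measurable a) (hψ : Measurable ψ) (C : Fin d → Fin m → ℝ) (N : ℝ) {M : ℝ≥0∞}
    (hM : liminf (fun k => Jk a ψ N k C) atTop < M) (hMt : M ≠ ∞) {f : E (d + 1) → ℝ≥0∞}
    (hf : Measurable f) :
    ∫⁻ x, f (lpt (per a ψ C) x.1 x.2) ∂(box d N) ≤
      M ^ (1 / 2 : ℝ) * (∫⁻ x, f x ^ 2) ^ (1 / 2 : ℝ) := by
  have hb : Measurable (per a ψ C) :=
    (meas_per ha hψ).comp (measurable_prodMk_left (x := C))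
  have hΦ : Measurable (fun x : (Fin d → ℝ) × ℝ => lpt (per a ψ C) x.1 x.2) := meas_lpt1 hb
  set Φ : (Fin d → ℝ) × ℝ → E (d + 1) := fun x => lpt (per a ψ C) x.1 x.2 with hΦd
  set μ : Measure (E (d + 1)) := (box d N).map Φ with hμ
  have h1 : ∀ k, (μ.prod μ) (close (E (d + 1)) (2 * rk k)) / vk d k = Jk a ψ N k C := by
    intro k
    unfold Jk
    congr 1
    rw [hμ, Measure.map_prod_map _ _ hΦ hΦ, Measure.map_apply (hΦ.prodMap hΦ) (close_meas _)]
    rfl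
  have h2 : liminf (fun k => (μ.prod μ) (close (E (d + 1)) (2 * rk k)) / vk d k) atTop < M := by
    simp_rw [h1]
    exact hM
  have h3 := l2_crit (volume : Measure (E (d + 1))) μ rk_pos rk_lim (vk_ne_zero d) (vk_ne_top d)
    (vk_eq d) h2 hMt hf
  rw [hμ, lintegral_map hf hΦ] at h3
  exact h3

theorem Jk_avg {d m : ℕ} {a : (Fin d → ℝ) → Fin d → ℝ} {ψ : (Fin d → ℝ) → Fin m → ℝ}
    (ha : Measurable a) (hψ : Measurable ψ) {ρ : ℝ} (hρ : 0 < ρ) (N : ℝ) (k : ℕ) :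
    ∫⁻ C, Jk a ψ N k C ∂(lam d m ρ) ≤
      ENNReal.ofReal (((2 * ρ) ^ (m - 1) * 4) ^ d) * (energy ψ N *
        (ENNReal.ofReal 4 * nu N univ)) * (cn d)⁻¹ := by
  have h1 : ∫⁻ C, Jk a ψ N k C ∂(lam d m ρ) =
      (∫⁻ C, ((box d N).prod (box d N)) {x | (C, x) ∈ G a ψ (2 * rk k)} ∂(lam d m ρ)) / vk d k := by
    unfold Jk
    simp_rw [div_eq_mul_inv]
    rw [lintegral_mul_const' _ _ (ENNReal.inv_ne_top.2 (vk_ne_zero d k))]
  rw [h1]
  apply ENNReal.div_le_of_le_mul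
  refine (avg_bound ha hψ hρ (by have := rk_pos k; positivity) N).trans (le_of_eq ?_)
  have hr := rk_pos k
  have e1 : ENNReal.ofReal (((2 * ρ) ^ (m - 1) * (2 * (2 * rk k))) ^ d) =
      ENNReal.ofReal (((2 * ρ) ^ (m - 1) * 4) ^ d) * ENNReal.ofReal (rk k) ^ d := by
    rw [← ENNReal.ofReal_pow hr.le, ← ENNReal.ofReal_mul (by positivity), ← mul_pow]
    congr 2
    ring
  have e2 : ENNReal.ofReal (2 * (2 * rk k)) = ENNReal.ofReal 4 * ENNReal.ofReal (rk k) := by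
    rw [← ENNReal.ofReal_mul (by norm_num)]
    congr 1
    ring
  have e3 : (cn d)⁻¹ * cn d = 1 := ENNReal.inv_mul_cancel (cn_ne_zero d) (cn_ne_top d)
  rw [e1, e2, vk]
  calc _ = (ENNReal.ofReal (((2 * ρ) ^ (m - 1) * 4) ^ d) * (energy ψ N *
        (ENNReal.ofReal 4 * nu N univ)) * ENNReal.ofReal (rk k) ^ (d + 1)) * 1 := by ring
    _ = _ := by
      rw [← e3]
      ring

theorem ae_lim {d m : ℕ} {a : (Fin d → ℝ) → Fin d → ℝ} {ψ : (Fin d → ℝ) → Fin m → ℝ}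
    (ha : Measurable a) (hψ : Measurable ψ) {ρ : ℝ} (hρ : 0 < ρ) (N : ℝ) (hE : energy ψ N ≠ ∞) :
    ∀ᵐ C ∂(lam d m ρ), liminf (fun k => Jk a ψ N k C) atTop < ∞ := by
  have hm : ∀ k, Measurable (Jk a ψ N k) := by
    intro k
    apply Measurable.div_const
    exact measurable_measure_prodMk_left (meas_G ha hψ (2 * rk k))
  have h1 : ∫⁻ C, liminf (fun k => Jk a ψ N k C) atTop ∂(lam d m ρ) ≤
      ENNReal.ofReal (((2 * ρ) ^ (m - 1) * 4) ^ d) * (energy ψ N *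
        (ENNReal.ofReal 4 * nu N univ)) * (cn d)⁻¹ := by
    refine (lintegral_liminf_le hm).trans ?_
    apply liminf_le_of_frequently_le
    · exact Frequently.of_forall (fun k => Jk_avg ha hψ hρ N k)
    · isBoundedDefault
  have h2 : ENNReal.ofReal (((2 * ρ) ^ (m - 1) * 4) ^ d) * (energy ψ N *
        (ENNReal.ofReal 4 * nu N univ)) * (cn d)⁻¹ ≠ ∞ := by
    refine ENNReal.mul_ne_top (ENNReal.mul_ne_top ENNReal.ofReal_ne_top
      (ENNReal.mul_ne_top hE (ENNReal.mul_ne_top ENNReal.ofReal_ne_top (measure_ne_top _ _)))) ?_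
    exact ENNReal.inv_ne_top.2 (cn_ne_zero d)
  exact ae_lt_top (Measurable.liminf hm) (ne_top_of_le_ne_top h2 h1)

/-- **All coefficients are good for all boxes.** -/
theorem ae_good {d m : ℕ} {a : (Fin d → ℝ) → Fin d → ℝ} {ψ : (Fin d → ℝ) → Fin m → ℝ}
    (ha : Measurable a) (hψ : Measurable ψ) (hE : ∀ N : ℕ, energy ψ (N : ℝ) ≠ ∞) :
    ∀ᵐ C : Fin d → Fin m → ℝ, ∀ N : ℕ, liminf (fun k => Jk a ψ (N : ℝ) k C) atTop < ∞ := by
  rw [ae_all_iff]
  intro N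
  have hU : (⋃ R : ℕ, cube d m ((R : ℝ) + 1)) = univ := by
    rw [eq_univ_iff_forall]
    intro C
    obtain ⟨R, hR⟩ := exists_nat_ge ‖C‖
    refine mem_iUnion.2 ⟨R, ?_⟩
    intro i
    rw [mem_univ_pi]
    intro j
    have h1 : |C i j| ≤ (R : ℝ) + 1 := by
      have h2 := norm_le_pi_norm (C i) j
      have h3 := norm_le_pi_norm C i
      rw [Real.norm_eq_abs] at h2
      linarith
    exact ⟨(abs_le.1 h1).1, (abs_le.1 h1).2⟩
  rw [← Measure.restrict_univ (μ := (volume : Measure (Fin d → Fin m → ℝ))), ← hU,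
    ae_restrict_iUnion_iff]
  intro R
  exact ae_lim ha hψ (by positivity) (N : ℝ) (hE N)

/-- **The lossless Kakeya inequality** for the family of lines with positions `b`. -/
def Lossless {d : ℕ} (b : (Fin d → ℝ) → Fin d → ℝ) : Prop :=
  ∀ R : ℝ, ∃ B : ℝ≥0∞, B ≠ ∞ ∧ ∀ f : E (d + 1) → ℝ≥0∞, Measurable f →
    ∫⁻ v in closedBall 0 R, ∫⁻ t in Icc (-R) R, f (lpt b v t) ≤
      B * (∫⁻ x, f x ^ 2) ^ (1 / 2 : ℝ)

/-- Every set that meets many lines of the family in positive length has positive volume. -/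
def NoNullSet {d : ℕ} (b : (Fin d → ℝ) → Fin d → ℝ) : Prop :=
  ∀ (S : Set (Fin d → ℝ)) (K : Set (E (d + 1))), 0 < volume S →
    (∀ v ∈ S, 0 < volume {t : ℝ | lpt b v t ∈ K}) → 0 < volume K

theorem lossless_of {d m : ℕ} {a : (Fin d → ℝ) → Fin d → ℝ} {ψ : (Fin d → ℝ) → Fin m → ℝ}
    (ha : Measurable a) (hψ : Measurable ψ) {C : Fin d → Fin m → ℝ}
    (hC : ∀ N : ℕ, liminf (fun k => Jk a ψ (N : ℝ) k C) atTop < ∞) : Lossless (per a ψ C) := by
  intro R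
  obtain ⟨N, hN⟩ := exists_nat_ge R
  obtain ⟨M, hM1, hM2⟩ := exists_between (hC N)
  refine ⟨M ^ (1 / 2 : ℝ), ENNReal.rpow_ne_top_of_nonneg (by norm_num) hM2.ne, ?_⟩
  intro f hf
  have hb : Measurable (per a ψ C) :=
    (meas_per ha hψ).comp (measurable_prodMk_left (x := C))
  have hΦ : Measurable (fun x : (Fin d → ℝ) × ℝ => lpt (per a ψ C) x.1 x.2) := meas_lpt1 hb
  refine le_trans ?_ (crit ha hψ C (N : ℝ) hM1 hM2.ne hf)
  rw [box, lintegral_prod (fun x : (Fin d → ℝ) × ℝ => f (lpt (per a ψ C) x.1 x.2))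
    (hf.comp hΦ).aemeasurable]
  have hsub1 : closedBall (0 : Fin d → ℝ) R ⊆ univ.pi fun _ => Icc (-(N : ℝ)) N := by
    intro v hv
    rw [mem_univ_pi]
    intro i
    rw [mem_closedBall_zero_iff] at hv
    have h1 := norm_le_pi_norm v i
    rw [Real.norm_eq_abs] at h1
    have h2 : |v i| ≤ N := by linarith
    exact ⟨(abs_le.1 h2).1, (abs_le.1 h2).2⟩
  have hsub2 : Icc (-R) R ⊆ Icc (-(N : ℝ)) N := Icc_subset_Icc (by linarith) hN
  calc ∫⁻ v in closedBall 0 R, ∫⁻ t in Icc (-R) R, f (lpt (per a ψ C) v t)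
      ≤ ∫⁻ v in closedBall 0 R, ∫⁻ t in Icc (-(N : ℝ)) N, f (lpt (per a ψ C) v t) := by
        apply lintegral_mono
        intro v
        exact lintegral_mono_set hsub2
    _ ≤ ∫⁻ v in (univ.pi fun _ => Icc (-(N : ℝ)) N), ∫⁻ t in Icc (-(N : ℝ)) N,
          f (lpt (per a ψ C) v t) := lintegral_mono_set hsub1
    _ = _ := rfl

theorem noNull_of {d : ℕ} {b : (Fin d → ℝ) → Fin d → ℝ} (hb : Measurable b) (h : Lossless b) :
    NoNullSet b := by
  intro S K hS hK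
  by_contra hcon
  have hK0 : volume K = 0 := le_antisymm (not_lt.1 hcon) zero_le
  set K' := toMeasurable volume K with hK'
  have hK'm : MeasurableSet K' := measurableSet_toMeasurable _ _
  have hK'0 : volume K' = 0 := by rw [hK', measure_toMeasurable, hK0]
  have hsub : K ⊆ K' := subset_toMeasurable _ _
  have hΦ : Measurable (fun x : (Fin d → ℝ) × ℝ => lpt b x.1 x.2) := meas_lpt1 hb
  have hf : Measurable (K'.indicator (1 : E (d + 1) → ℝ≥0∞)) := measurable_one.indicator hK'm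
  have hz : ∀ R : ℕ, ∀ᵐ v ∂(volume.restrict (closedBall (0 : Fin d → ℝ) R)),
      ∫⁻ t in Icc (-(R : ℝ)) R, K'.indicator 1 (lpt b v t) = 0 := by
    intro R
    obtain ⟨B, hB, h1⟩ := h R
    have h2 := h1 (K'.indicator 1) hf
    have h3 : ∫⁻ x, K'.indicator (1 : E (d + 1) → ℝ≥0∞) x ^ 2 = 0 := by
      have : ∀ x, K'.indicator (1 : E (d + 1) → ℝ≥0∞) x ^ 2 = K'.indicator 1 x := by
        intro x
        by_cases hx : x ∈ K'
        · simp [hx]
        · simp [hx]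
      simp_rw [this]
      rw [lintegral_indicator_one hK'm, hK'0]
    rw [h3, ENNReal.zero_rpow_of_pos (by norm_num), mul_zero, nonpos_iff_eq_zero] at h2
    have h4 : Measurable (fun v => ∫⁻ t in Icc (-(R : ℝ)) R, K'.indicator (1 : E (d + 1) → ℝ≥0∞)
        (lpt b v t)) := Measurable.lintegral_prod_right' (hf.comp hΦ)
    exact (lintegral_eq_zero_iff h4).1 h2
  have hz2 : ∀ R : ℕ, volume {v : Fin d → ℝ | v ∈ closedBall (0 : Fin d → ℝ) R ∧
      ¬ ∫⁻ t in Icc (-(R : ℝ)) R, K'.indicator 1 (lpt b v t) = 0} = 0 := by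
    intro R
    have h1 := hz R
    rw [ae_restrict_iff' measurableSet_closedBall] at h1
    rw [ae_iff] at h1
    refine measure_mono_null ?_ h1
    rintro v ⟨hv1, hv2⟩ hcon
    exact hv2 (hcon hv1)
  apply hS.ne'
  refine measure_mono_null ?_ (measure_iUnion_null hz2)
  intro v hv
  have h1 := hK v hv
  -- some interval carries positive length
  obtain ⟨R₀, hR₀⟩ : ∃ R : ℕ, volume ({t : ℝ | lpt b v t ∈ K} ∩ Icc (-(R : ℝ)) R) ≠ 0 := by
    by_contra hc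
    push Not at hc
    apply h1.ne'
    refine measure_mono_null ?_ (measure_iUnion_null hc)
    intro t ht
    obtain ⟨R, hR⟩ := exists_nat_ge |t|
    exact mem_iUnion.2 ⟨R, ht, abs_le.1 hR⟩
  obtain ⟨R₁, hR₁⟩ := exists_nat_ge ‖v‖
  refine mem_iUnion.2 ⟨max R₀ R₁, ?_, ?_⟩
  · rw [mem_closedBall_zero_iff]
    push_cast
    exact hR₁.trans (le_max_right _ _)
  · intro h0
    apply hR₀
    have hmm : Measurable (fun t => K'.indicator (1 : E (d + 1) → ℝ≥0∞) (lpt b v t)) :=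
      hf.comp (hΦ.comp (measurable_prodMk_left (x := v)))
    have h5 : ∫⁻ t in Icc (-((max R₀ R₁ : ℕ) : ℝ)) ((max R₀ R₁ : ℕ) : ℝ),
        K'.indicator (1 : E (d + 1) → ℝ≥0∞) (lpt b v t) =
        volume ({t : ℝ | lpt b v t ∈ K'} ∩ Icc (-((max R₀ R₁ : ℕ) : ℝ)) ((max R₀ R₁ : ℕ) : ℝ)) := by
      have hms : MeasurableSet {t : ℝ | lpt b v t ∈ K'} :=
        (hΦ.comp (measurable_prodMk_left (x := v))) hK'm
      rw [← Measure.restrict_apply hms, ← lintegral_indicator_one hms]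
      rfl
    rw [h5] at h0
    refine measure_mono_null ?_ h0
    rintro t ⟨ht1, ht2⟩
    refine ⟨hsub ht1, ?_, ?_⟩
    · have : (R₀ : ℝ) ≤ ((max R₀ R₁ : ℕ) : ℝ) := by exact_mod_cast le_max_left _ _
      linarith [ht2.1]
    · have : (R₀ : ℝ) ≤ ((max R₀ R₁ : ℕ) : ℝ) := by exact_mod_cast le_max_left _ _
      linarith [ht2.2]

/-- **The general theorem.** -/
theorem general {d m : ℕ} {ψ : (Fin d → ℝ) → Fin m → ℝ} (hψ : Measurable ψ)
    (hE : ∀ N : ℕ, energy ψ (N : ℝ) ≠ ∞) {a : (Fin d → ℝ) → Fin d → ℝ} (ha : Measurable a) :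
    ∀ᵐ C : Fin d → Fin m → ℝ, Lossless (per a ψ C) ∧ NoNullSet (per a ψ C) := by
  filter_upwards [ae_good ha hψ hE] with C hC
  have hb : Measurable (per a ψ C) :=
    (meas_per ha hψ).comp (measurable_prodMk_left (x := C))
  exact ⟨lossless_of ha hψ hC, noNull_of hb (lossless_of ha hψ hC)⟩

end Pool.Agent.V5helper78.KK
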