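import Mathlib

set_option autoImplicit false

/-!
# A criterion for square integrable densities
-/

open MeasureTheory Set Filter Topology ENNReal NNReal Metric

namespace Pool.Agent.V5helper78.KK

variable {X : Type*} [MetricSpace X] [SecondCountableTopology X] [MeasurableSpace X] [BorelSpace X]

/-- A lower semicontinuous function is below the lower limit of its averages on balls. -/
theorem le_liminf_avg (ν : Measure X) {g : X → ℝ≥0∞} (hg : LowerSemicontinuous g) {r : ℕ → ℝ}
    (hr : ∀ k, 0 < r k) (hr0 : Tendsto r atTop (𝓝 0)) {V : ℕ → ℝ≥0∞}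
    (hV0 : ∀ k, V k ≠ 0) (hVt : ∀ k, V k ≠ ∞) (hV : ∀ k x, ν (ball x (r k)) = V k) (x : X) :
    g x ≤ liminf (fun k => (∫⁻ y in ball x (r k), g y ∂ν) / V k) atTop := by
  apply le_of_forall_lt
  intro c hc
  obtain ⟨c', hc1, hc2⟩ := exists_between hc
  refine lt_of_lt_of_le hc1 ?_
  have h1 : {y | c' < g y} ∈ 𝓝 x := hg x c' hc2
  obtain ⟨ε, hε, hb⟩ := Metric.mem_nhds_iff.1 h1
  have h2 : ∀ᶠ k in atTop, r k < ε := hr0.eventually (gt_mem_nhds hε)
  apply le_liminf_of_le
  · isBoundedDefault
  · filter_upwards [h2] with k hk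
    rw [ENNReal.le_div_iff_mul_le (Or.inl (hV0 k)) (Or.inl (hVt k))]
    calc c' * V k = ∫⁻ _ in ball x (r k), c' ∂ν := by rw [setLIntegral_const, hV]
      _ ≤ ∫⁻ y in ball x (r k), g y ∂ν := by
        apply setLIntegral_mono' measurableSet_ball
        intro y hy
        exact (hb (ball_subset_ball hk.le hy)).le

/-- The set of close pairs. -/
def close (X : Type*) [MetricSpace X] (r : ℝ) : Set (X × X) := {x | dist x.1 x.2 < r}

theorem close_meas (r : ℝ) : MeasurableSet (close X r) :=
  (isOpen_lt continuous_dist continuous_const).measurableSet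

/-- The squared norm of the smoothed measure is bounded by the mass of close pairs. -/
theorem smooth_sq (ν μ : Measure X) [SFinite ν] [SFinite μ] {r : ℝ} {V : ℝ≥0∞}
    (hV : ∀ x, ν (ball x r) = V) :
    ∫⁻ y, μ (ball y r) ^ 2 ∂ν ≤ V * (μ.prod μ) (close X (2 * r)) := by
  have hm : ∀ y, μ (ball y r) = ∫⁻ x, (close X r).indicator 1 (x, y) ∂μ := by
    intro y
    rw [← lintegral_indicator_one measurableSet_ball]
    apply lintegral_congr
    intro x
    by_cases h : dist x y < r
    · rw [indicator_of_mem (show x ∈ ball y r from h), indicator_of_mem (show (x, y) ∈ close X r from h)]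
      rfl
    · rw [indicator_of_notMem (show ¬ x ∈ ball y r from h),
        indicator_of_notMem (show ¬ (x, y) ∈ close X r from h)]
  have hI : Measurable (fun q : X × X => (close X r).indicator (1 : X × X → ℝ≥0∞) q) :=
    measurable_one.indicator (close_meas r)
  have hI2 : ∀ y, Measurable (fun x : X => (close X r).indicator (1 : X × X → ℝ≥0∞) (x, y)) :=
    fun y => hI.comp (by fun_prop)
  have h1 : ∀ y, μ (ball y r) ^ 2 = ∫⁻ q : X × X, (close X r).indicator 1 (q.1, y) *
      (close X r).indicator 1 (q.2, y) ∂(μ.prod μ) := by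
    intro y
    rw [lintegral_prod_mul (f := fun x => (close X r).indicator (1 : X × X → ℝ≥0∞) (x, y))
      (g := fun x => (close X r).indicator (1 : X × X → ℝ≥0∞) (x, y)) (hI2 y).aemeasurable
      (hI2 y).aemeasurable, ← hm y, sq]
  simp_rw [h1]
  have h2 : Measurable (fun p : X × (X × X) => (close X r).indicator (1 : X × X → ℝ≥0∞) (p.2.1, p.1) *
      (close X r).indicator (1 : X × X → ℝ≥0∞) (p.2.2, p.1)) :=
    (hI.comp (by fun_prop)).mul (hI.comp (by fun_prop))
  rw [lintegral_lintegral_swap (f := fun y (q : X × X) =>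
    (close X r).indicator (1 : X × X → ℝ≥0∞) (q.1, y) *
      (close X r).indicator (1 : X × X → ℝ≥0∞) (q.2, y)) h2.aemeasurable]
  calc ∫⁻ q : X × X, ∫⁻ y, (close X r).indicator 1 (q.1, y) *
        (close X r).indicator 1 (q.2, y) ∂ν ∂(μ.prod μ)
      ≤ ∫⁻ q : X × X, (close X (2 * r)).indicator (fun _ => V) q ∂(μ.prod μ) := by
        apply lintegral_mono
        intro q
        show ∫⁻ y, (close X r).indicator 1 (q.1, y) *
          (close X r).indicator 1 (q.2, y) ∂ν ≤ (close X (2 * r)).indicator (fun _ => V) q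
        by_cases h : dist q.1 q.2 < 2 * r
        · rw [indicator_of_mem (show q ∈ close X (2 * r) from h), ← hV q.1,
            ← lintegral_indicator_one measurableSet_ball]
          apply lintegral_mono
          intro y
          show (close X r).indicator (1 : X × X → ℝ≥0∞) (q.1, y) *
            (close X r).indicator (1 : X × X → ℝ≥0∞) (q.2, y) ≤ (ball q.1 r).indicator 1 y
          by_cases h3 : dist q.1 y < r
          · rw [indicator_of_mem (show (q.1, y) ∈ close X r from h3),
              indicator_of_mem (show y ∈ ball q.1 r by rw [mem_ball, dist_comm]; exact h3)]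
            by_cases h4 : dist q.2 y < r
            · rw [indicator_of_mem (show (q.2, y) ∈ close X r from h4)]
              simp
            · rw [indicator_of_notMem (show ¬ (q.2, y) ∈ close X r from h4)]
              simp
          · rw [indicator_of_notMem (show ¬ (q.1, y) ∈ close X r from h3)]
            simp
        · rw [indicator_of_notMem (show ¬ q ∈ close X (2 * r) from h), nonpos_iff_eq_zero,
            lintegral_eq_zero_iff']
          · filter_upwards with y
            by_cases h3 : dist q.1 y < r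
            · have h4 : ¬ dist q.2 y < r := by
                intro h4
                apply h
                calc dist q.1 q.2 ≤ dist q.1 y + dist q.2 y := dist_triangle_right _ _ _
                  _ < 2 * r := by linarith
              rw [indicator_of_notMem (show ¬ (q.2, y) ∈ close X r from h4)]
              simp
            · rw [indicator_of_notMem (show ¬ (q.1, y) ∈ close X r from h3)]
              simp
          · exact ((hI.comp (by fun_prop)).mul (hI.comp (by fun_prop))).aemeasurable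
    _ = V * (μ.prod μ) (close X (2 * r)) := by
        rw [lintegral_indicator (close_meas _), setLIntegral_const]

/-- The averages of `g` on balls are tested against a measure. -/
theorem test_avg (ν μ : Measure X) [SFinite ν] [SFinite μ] {r : ℝ} {V : ℝ≥0∞} (hV0 : V ≠ 0)
    (hVt : V ≠ ∞) (hV : ∀ x, ν (ball x r) = V) {g : X → ℝ≥0∞} (hg : Measurable g) :
    ∫⁻ x, (∫⁻ y in ball x r, g y ∂ν) / V ∂μ ≤
      (∫⁻ y, g y ^ 2 ∂ν) ^ (1 / 2 : ℝ) *
        ((μ.prod μ) (close X (2 * r)) / V) ^ (1 / 2 : ℝ) := by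
  have hI : Measurable (fun q : X × X => (close X r).indicator (1 : X × X → ℝ≥0∞) q) :=
    measurable_one.indicator (close_meas r)
  have h1 : ∀ x, ∫⁻ y in ball x r, g y ∂ν = ∫⁻ y, (close X r).indicator 1 (x, y) * g y ∂ν := by
    intro x
    rw [← lintegral_indicator measurableSet_ball]
    apply lintegral_congr
    intro y
    by_cases h : dist x y < r
    · rw [indicator_of_mem (show (x, y) ∈ close X r from h),
        indicator_of_mem (show y ∈ ball x r by rw [mem_ball, dist_comm]; exact h)]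
      simp
    · rw [indicator_of_notMem (show ¬ (x, y) ∈ close X r from h),
        indicator_of_notMem (show ¬ y ∈ ball x r by rw [mem_ball, dist_comm]; exact h)]
      simp
  have hmm : Measurable (fun y => μ (ball y r)) := by
    exact measurable_measure_prodMk_right (μ := μ) (close_meas (X := X) r)
  have h2 : ∫⁻ x, (∫⁻ y in ball x r, g y ∂ν) ∂μ = ∫⁻ y, g y * μ (ball y r) ∂ν := by
    simp_rw [h1]
    rw [lintegral_lintegral_swap (f := fun x y =>
      (close X r).indicator (1 : X × X → ℝ≥0∞) (x, y) * g y)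
      (hI.mul (hg.comp measurable_snd)).aemeasurable]
    apply lintegral_congr
    intro y
    rw [lintegral_mul_const _ (show Measurable (fun x : X =>
      (close X r).indicator (1 : X × X → ℝ≥0∞) (x, y)) from hI.comp (by fun_prop)), mul_comm]
    congr 1
    rw [← lintegral_indicator_one measurableSet_ball]
    apply lintegral_congr
    intro x
    by_cases h : dist x y < r
    · rw [indicator_of_mem (show x ∈ ball y r from h),
        indicator_of_mem (show (x, y) ∈ close X r from h)]
      rfl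
    · rw [indicator_of_notMem (show ¬ x ∈ ball y r from h),
        indicator_of_notMem (show ¬ (x, y) ∈ close X r from h)]
  have h3 := ENNReal.lintegral_mul_le_Lp_mul_Lq ν (p := 2) (q := 2) (Real.HolderConjugate.two_two)
    hg.aemeasurable hmm.aemeasurable
  have h4 : ∫⁻ y, g y * μ (ball y r) ∂ν ≤
      (∫⁻ y, g y ^ 2 ∂ν) ^ (1 / 2 : ℝ) * (V * (μ.prod μ) (close X (2 * r))) ^ (1 / 2 : ℝ) := by
    calc ∫⁻ y, g y * μ (ball y r) ∂ν
        ≤ (∫⁻ y, g y ^ (2 : ℝ) ∂ν) ^ (1 / 2 : ℝ) *
            (∫⁻ y, μ (ball y r) ^ (2 : ℝ) ∂ν) ^ (1 / 2 : ℝ) := h3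
      _ ≤ _ := by
        simp_rw [ENNReal.rpow_two]
        gcongr
        exact smooth_sq ν μ hV
  calc ∫⁻ x, (∫⁻ y in ball x r, g y ∂ν) / V ∂μ
      = (∫⁻ x, (∫⁻ y in ball x r, g y ∂ν) ∂μ) / V := by
        simp_rw [div_eq_mul_inv]
        rw [lintegral_mul_const' _ _ (ENNReal.inv_ne_top.2 hV0)]
    _ ≤ ((∫⁻ y, g y ^ 2 ∂ν) ^ (1 / 2 : ℝ) *
        (V * (μ.prod μ) (close X (2 * r))) ^ (1 / 2 : ℝ)) / V := by
        rw [h2]
        gcongr
    _ = _ := by
        rw [mul_div_assoc]
        congr 1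
        have hVV : V = (V ^ (2 : ℝ)) ^ (1 / 2 : ℝ) := by
          rw [← ENNReal.rpow_mul]
          simp
        conv_lhs => rw [div_eq_mul_inv, hVV, ← ENNReal.inv_rpow]
        rw [← hVV, ← ENNReal.mul_rpow_of_nonneg _ _ (by norm_num)]
        congr 1
        rw [ENNReal.rpow_two, sq, ENNReal.mul_inv (Or.inl hV0) (Or.inl hVt), div_eq_mul_inv]
        calc V * (μ.prod μ) (close X (2 * r)) * (V⁻¹ * V⁻¹)
            = (V * V⁻¹) * ((μ.prod μ) (close X (2 * r)) * V⁻¹) := by ring
          _ = _ := by rw [ENNReal.mul_inv_cancel hV0 hVt, one_mul]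

/-- **The criterion.** -/
theorem l2_crit (ν μ : Measure X) [ν.WeaklyRegular] [SFinite ν] [SFinite μ] {r : ℕ → ℝ}
    (hr : ∀ k, 0 < r k) (hr0 : Tendsto r atTop (𝓝 0)) {V : ℕ → ℝ≥0∞}
    (hV0 : ∀ k, V k ≠ 0) (hVt : ∀ k, V k ≠ ∞) (hV : ∀ k x, ν (ball x (r k)) = V k) {M : ℝ≥0∞}
    (hM : liminf (fun k => (μ.prod μ) (close X (2 * r k)) / V k) atTop < M) (hMt : M ≠ ∞)
    {f : X → ℝ≥0∞} (hf : Measurable f) :
    ∫⁻ x, f x ∂μ ≤ M ^ (1 / 2 : ℝ) * (∫⁻ x, f x ^ 2 ∂ν) ^ (1 / 2 : ℝ) := by
  have hlsc : ∀ g : X → ℝ≥0∞, LowerSemicontinuous g →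
      ∫⁻ x, g x ∂μ ≤ M ^ (1 / 2 : ℝ) * (∫⁻ x, g x ^ 2 ∂ν) ^ (1 / 2 : ℝ) := by
    intro g hg
    have hgm : Measurable g := hg.measurable
    have hI : Measurable (fun q : X × X => q.2) := measurable_snd
    have hmeas : ∀ k, Measurable (fun x => (∫⁻ y in ball x (r k), g y ∂ν) / V k) := by
      intro k
      apply Measurable.div_const
      have hcl : Measurable (fun q : X × X => (close X (r k)).indicator (fun q => g q.2) q) :=
        (hgm.comp measurable_snd).indicator (close_meas (r k))
      have h1 : Measurable (fun x => ∫⁻ y, (close X (r k)).indicator (fun q => g q.2) (x, y) ∂ν) :=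
        Measurable.lintegral_prod_right' hcl
      convert h1 using 2 with x
      rw [← lintegral_indicator measurableSet_ball]
      apply lintegral_congr
      intro y
      by_cases h : dist x y < r k
      · rw [indicator_of_mem (show (x, y) ∈ close X (r k) from h),
          indicator_of_mem (show y ∈ ball x (r k) by rw [mem_ball, dist_comm]; exact h)]
      · rw [indicator_of_notMem (show ¬ (x, y) ∈ close X (r k) from h),
          indicator_of_notMem (show ¬ y ∈ ball x (r k) by rw [mem_ball, dist_comm]; exact h)]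
    have h1 : ∫⁻ x, g x ∂μ ≤ liminf (fun k => ∫⁻ x, (∫⁻ y in ball x (r k), g y ∂ν) / V k ∂μ) atTop :=
      (lintegral_mono (fun x => le_liminf_avg ν hg hr hr0 hV0 hVt hV x)).trans
        (lintegral_liminf_le hmeas)
    refine h1.trans ?_
    have hfr : ∃ᶠ k in atTop, (μ.prod μ) (close X (2 * r k)) / V k < M :=
      frequently_lt_of_liminf_lt (by isBoundedDefault) hM
    apply liminf_le_of_frequently_le
    · refine hfr.mono ?_
      intro k hk
      refine (test_avg ν μ (hV0 k) (hVt k) (hV k) hgm).trans ?_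
      rw [mul_comm]
      gcongr
    · isBoundedDefault
  -- general functions
  have hM2 : M ^ (1 / 2 : ℝ) ≠ ∞ := ENNReal.rpow_ne_top_of_nonneg (by norm_num) hMt
  have hkey : ∀ k : ℕ, ∫⁻ x, f x ∂μ ≤
      M ^ (1 / 2 : ℝ) * (∫⁻ x, f x ^ 2 ∂ν + ((k : ℝ≥0∞) + 1)⁻¹) ^ (1 / 2 : ℝ) := by
    intro k
    obtain ⟨g, hg1, hg2, hg3⟩ := exists_le_lowerSemicontinuous_lintegral_ge ν
      (fun x => f x ^ 2) (hf.pow_const 2) (ε := ((k : ℝ≥0∞) + 1)⁻¹)
      (ENNReal.inv_ne_zero.2 (by finiteness))
    have hg4 : LowerSemicontinuous (fun x => g x ^ (1 / 2 : ℝ)) := by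
      refine Continuous.comp_lowerSemicontinuous (g := fun y : ℝ≥0∞ => y ^ (1 / 2 : ℝ))
        ENNReal.continuous_rpow_const hg2 ?_
      intro a b hab
      exact ENNReal.rpow_le_rpow hab (by norm_num)
    have h5 : ∀ y : ℝ≥0∞, (y ^ (1 / 2 : ℝ)) ^ 2 = y := by
      intro y
      rw [← ENNReal.rpow_natCast, ← ENNReal.rpow_mul]
      norm_num
    calc ∫⁻ x, f x ∂μ ≤ ∫⁻ x, g x ^ (1 / 2 : ℝ) ∂μ := by
          apply lintegral_mono
          intro x
          calc f x = (f x ^ 2) ^ (1 / 2 : ℝ) := by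
                rw [← ENNReal.rpow_natCast, ← ENNReal.rpow_mul]
                norm_num
            _ ≤ _ := ENNReal.rpow_le_rpow (hg1 x) (by norm_num)
      _ ≤ M ^ (1 / 2 : ℝ) * (∫⁻ x, (g x ^ (1 / 2 : ℝ)) ^ 2 ∂ν) ^ (1 / 2 : ℝ) := hlsc _ hg4
      _ ≤ _ := by
          simp_rw [h5]
          gcongr
  have hlim : Tendsto (fun k : ℕ => M ^ (1 / 2 : ℝ) *
      (∫⁻ x, f x ^ 2 ∂ν + ((k : ℝ≥0∞) + 1)⁻¹) ^ (1 / 2 : ℝ)) atTop
      (𝓝 (M ^ (1 / 2 : ℝ) * (∫⁻ x, f x ^ 2 ∂ν + 0) ^ (1 / 2 : ℝ))) := by
    apply ENNReal.Tendsto.const_mul _ (Or.inr hM2)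
    apply (ENNReal.continuous_rpow_const.tendsto _).comp
    apply Tendsto.const_add
    have h6 := ENNReal.tendsto_inv_nat_nhds_zero
    have h7 := (tendsto_add_atTop_iff_nat (f := fun n : ℕ => ((n : ℝ≥0∞))⁻¹) 1).2 h6
    refine h7.congr ?_
    intro k
    push_cast
    rfl
  rw [add_zero] at hlim
  exact ge_of_tendsto' hlim hkey

end Pool.Agent.V5helper78.KK
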