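import Mathlib

set_option autoImplicit false

/-!
# A lacunary curve with a lower Hoelder bound
-/

open Set Filter Topology

namespace Pool.Agent.V5helper78.KK

/-- Terms of the lacunary series. -/
noncomputable def T (b : ℝ) (l : ℕ) (s : ℝ) : ℂ :=
  ((b ^ l : ℝ) : ℂ) * Complex.exp (Complex.I * ((Real.pi * 2 ^ l * s : ℝ) : ℂ))

/-- The lacunary series along one residue class. -/
noncomputable def F (b : ℝ) (M j : ℕ) (s : ℝ) : ℂ := ∑' i : ℕ, T b (j + i * M) s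

theorem exp_diff (x y : ℝ) : ‖Complex.exp (Complex.I * (x : ℂ)) - Complex.exp (Complex.I * (y : ℂ))‖ =
    |2 * Real.sin ((x - y) / 2)| := by
  have h1 : Complex.exp (Complex.I * (x : ℂ)) - Complex.exp (Complex.I * (y : ℂ)) =
      Complex.exp (Complex.I * (y : ℂ)) * (Complex.exp (Complex.I * ((x - y : ℝ) : ℂ)) - 1) := by
    rw [mul_sub, ← Complex.exp_add, mul_one]
    congr 2
    push_cast
    ring
  rw [h1, norm_mul, Complex.norm_exp_I_mul_ofReal_sub_one, Real.norm_eq_abs]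
  have h2 : ‖Complex.exp (Complex.I * (y : ℂ))‖ = 1 := by
    rw [mul_comm]
    exact Complex.norm_exp_ofReal_mul_I y
  rw [h2, one_mul]

theorem T_diff {b : ℝ} (hb : 0 < b) (l : ℕ) (s t : ℝ) :
    ‖T b l s - T b l t‖ = b ^ l * |2 * Real.sin (Real.pi * 2 ^ l * (s - t) / 2)| := by
  unfold T
  rw [← mul_sub, norm_mul, exp_diff, Complex.norm_real, Real.norm_eq_abs,
    abs_of_pos (by positivity)]
  congr 4
  ring

theorem T_norm {b : ℝ} (hb : 0 < b) (l : ℕ) (s : ℝ) : ‖T b l s‖ = b ^ l := by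
  unfold T
  rw [norm_mul, Complex.norm_real, Real.norm_eq_abs, abs_of_pos (by positivity), mul_comm (Complex.I)]
  rw [Complex.norm_exp_ofReal_mul_I, mul_one]

theorem T_diff_two {b : ℝ} (hb : 0 < b) (l : ℕ) (s t : ℝ) : ‖T b l s - T b l t‖ ≤ 2 * b ^ l := by
  calc ‖T b l s - T b l t‖ ≤ ‖T b l s‖ + ‖T b l t‖ := norm_sub_le _ _
    _ = 2 * b ^ l := by rw [T_norm hb, T_norm hb]; ring

theorem T_diff_lin {b : ℝ} (hb : 0 < b) (l : ℕ) (s t : ℝ) :
    ‖T b l s - T b l t‖ ≤ Real.pi * |s - t| * (2 * b) ^ l := by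
  rw [T_diff hb, abs_mul, abs_of_pos (by norm_num : (0 : ℝ) < 2)]
  have h1 : |Real.sin (Real.pi * 2 ^ l * (s - t) / 2)| ≤ |Real.pi * 2 ^ l * (s - t) / 2| :=
    Real.abs_sin_le_abs
  have h2 : |Real.pi * 2 ^ l * (s - t) / 2| = Real.pi * 2 ^ l * |s - t| / 2 := by
    rw [abs_div, abs_mul, abs_of_pos (by positivity : (0 : ℝ) < Real.pi * 2 ^ l),
      abs_of_pos (by norm_num : (0 : ℝ) < 2)]
  rw [h2] at h1
  calc b ^ l * (2 * |Real.sin (Real.pi * 2 ^ l * (s - t) / 2)|)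
      ≤ b ^ l * (2 * (Real.pi * 2 ^ l * |s - t| / 2)) := by gcongr
    _ = _ := by rw [mul_pow]; ring

theorem T_diff_holder {b H : ℝ} (hb : 0 < b) (hH0 : 0 ≤ H) (hH1 : H ≤ 1) (l : ℕ) (s t : ℝ) :
    ‖T b l s - T b l t‖ ≤ 2 * Real.pi ^ H * |s - t| ^ H * (b * 2 ^ H) ^ l := by
  have hp : (0 : ℝ) ≤ Real.pi * 2 ^ l * |s - t| := by positivity
  have e1 : 2 * Real.pi ^ H * |s - t| ^ H * (b * 2 ^ H) ^ l =
      b ^ l * (2 * (Real.pi * 2 ^ l * |s - t|) ^ H) := by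
    rw [Real.mul_rpow (by positivity) (abs_nonneg _), Real.mul_rpow (by positivity) (by positivity),
      mul_pow, ← Real.rpow_natCast (2 ^ H) l, ← Real.rpow_mul (by norm_num),
      ← Real.rpow_natCast (2 : ℝ) l, ← Real.rpow_mul (by norm_num), mul_comm H (l : ℝ)]
    ring
  rw [e1]
  rcases le_total 1 (Real.pi * 2 ^ l * |s - t|) with h | h
  · calc ‖T b l s - T b l t‖ ≤ 2 * b ^ l := T_diff_two hb l s t
      _ = b ^ l * (2 * 1) := by ring
      _ ≤ _ := by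
        gcongr
        exact Real.one_le_rpow h hH0
  · calc ‖T b l s - T b l t‖ ≤ Real.pi * |s - t| * (2 * b) ^ l := T_diff_lin hb l s t
      _ = b ^ l * (Real.pi * 2 ^ l * |s - t|) ^ (1 : ℝ) := by rw [Real.rpow_one, mul_pow]; ring
      _ ≤ b ^ l * (1 * (Real.pi * 2 ^ l * |s - t|) ^ H) := by
        gcongr
        rw [one_mul]
        exact Real.rpow_le_rpow_of_exponent_ge' hp h hH0 hH1
      _ ≤ _ := by
        gcongr
        norm_num

theorem sum_T {b : ℝ} (hb0 : 0 < b) (hb1 : b < 1) {M : ℕ} (hM : 0 < M) (j : ℕ) (s : ℝ) :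
    Summable (fun i : ℕ => T b (j + i * M) s) := by
  have hq : b ^ M < 1 := pow_lt_one₀ hb0.le hb1 hM.ne'
  have h1 : Summable (fun i : ℕ => b ^ j * (b ^ M) ^ i) :=
    (summable_geometric_of_lt_one (by positivity) hq).mul_left _
  refine Summable.of_norm_bounded h1 ?_
  intro i
  rw [T_norm hb0, pow_add, mul_comm i M, pow_mul]

theorem F_cont {b : ℝ} (hb0 : 0 < b) (hb1 : b < 1) {M : ℕ} (hM : 0 < M) (j : ℕ) :
    Continuous (F b M j) := by
  have hq : b ^ M < 1 := pow_lt_one₀ hb0.le hb1 hM.ne'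
  have h1 : Summable (fun i : ℕ => b ^ j * (b ^ M) ^ i) :=
    (summable_geometric_of_lt_one (by positivity) hq).mul_left _
  refine continuous_tsum (f := fun i s => T b (j + i * M) s) ?_ h1 ?_
  · intro i
    unfold T
    fun_prop
  · intro i s
    show ‖T b (j + i * M) s‖ ≤ _
    rw [T_norm hb0, pow_add, mul_comm i M, pow_mul]

/-- Upper bound. -/
theorem F_holder {b H : ℝ} (hb0 : 0 < b) (hb1 : b < 1) (hH0 : 0 ≤ H) (hH1 : H ≤ 1)
    (hbH : b * 2 ^ H < 1) {M : ℕ} (hM : 0 < M) (j : ℕ) (s t : ℝ) :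
    ‖F b M j s - F b M j t‖ ≤ 2 * Real.pi ^ H / (1 - (b * 2 ^ H) ^ M) * |s - t| ^ H := by
  set β := b * 2 ^ H with hβ
  have hβ0 : 0 < β := by positivity
  have hq : β ^ M < 1 := pow_lt_one₀ hβ0.le hbH hM.ne'
  have h1 : HasSum (fun i : ℕ => 2 * Real.pi ^ H * |s - t| ^ H * (β ^ M) ^ i)
      (2 * Real.pi ^ H * |s - t| ^ H * (1 - β ^ M)⁻¹) :=
    (hasSum_geometric_of_lt_one (by positivity) hq).mul_left _
  have h2 : ∀ i : ℕ, ‖T b (j + i * M) s - T b (j + i * M) t‖ ≤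
      2 * Real.pi ^ H * |s - t| ^ H * (β ^ M) ^ i := by
    intro i
    refine (T_diff_holder hb0 hH0 hH1 _ s t).trans ?_
    have h3 : (b * 2 ^ H) ^ (j + i * M) ≤ (β ^ M) ^ i := by
      rw [← hβ, pow_add, mul_comm i M, pow_mul]
      have h4 : β ^ j ≤ 1 := pow_le_one₀ hβ0.le hbH.le
      have h5 : 0 ≤ (β ^ M) ^ i := by positivity
      nlinarith
    gcongr
  unfold F
  rw [← (sum_T hb0 hb1 hM j s).tsum_sub (sum_T hb0 hb1 hM j t)]
  refine (tsum_of_norm_bounded h1 h2).trans (le_of_eq ?_)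
  rw [div_eq_mul_inv]
  ring

/-- Lower bound. -/
theorem F_low {b : ℝ} (hb0 : 0 < b) (hb1 : b < 1) {M : ℕ} (hM : 0 < M) (hq : b ^ M ≤ 1 / 16)
    (hq' : 16 ≤ (2 * b) ^ M) {s t : ℝ} {k : ℕ} (h1 : (1 / 2 : ℝ) ^ (k + 1) ≤ |s - t|)
    (h2 : |s - t| ≤ (1 / 2 : ℝ) ^ k) :
    b ^ k / 2 ≤ ‖F b M (k % M) s - F b M (k % M) t‖ := by
  set j := k % M with hj
  set i₀ := k / M with hi
  have hk : j + i₀ * M = k := by
    rw [hj, hi, mul_comm]
    exact Nat.mod_add_div k M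
  set D : ℕ → ℂ := fun i => T b (j + i * M) s - T b (j + i * M) t with hD
  have hsum : Summable D := (sum_T hb0 hb1 hM j s).sub (sum_T hb0 hb1 hM j t)
  have e0 : F b M j s - F b M j t = ∑' i, D i := by
    unfold F
    rw [← (sum_T hb0 hb1 hM j s).tsum_sub (sum_T hb0 hb1 hM j t)]
  have e1 : ∑' i, D i = ∑ i ∈ Finset.range i₀, D i + D i₀ + ∑' i, D (i + (i₀ + 1)) := by
    rw [← Finset.sum_range_succ]
    exact (Summable.sum_add_tsum_nat_add' ((summable_nat_add_iff (i₀ + 1)).2 hsum)).symm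
  have hbk : 0 < b ^ k := by positivity
  -- the main term
  have hmain : b ^ k ≤ ‖D i₀‖ := by
    simp only [hD, hk]
    rw [T_diff hb0, abs_mul, abs_of_pos (by norm_num : (0 : ℝ) < 2)]
    have hx : |Real.pi * 2 ^ k * (s - t) / 2| = Real.pi * (2 ^ k * |s - t|) / 2 := by
      rw [abs_div, abs_mul, abs_of_pos (by positivity : (0 : ℝ) < Real.pi * 2 ^ k),
        abs_of_pos (by norm_num : (0 : ℝ) < 2)]
      ring
    have hu : 2 ^ k * |s - t| ≤ 1 := by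
      calc 2 ^ k * |s - t| ≤ 2 ^ k * (1 / 2 : ℝ) ^ k := by gcongr
        _ = 1 := by rw [← mul_pow]; norm_num
    have hl : 1 / 2 ≤ 2 ^ k * |s - t| := by
      calc (1 / 2 : ℝ) = 2 ^ k * (1 / 2 : ℝ) ^ (k + 1) := by
            rw [pow_succ, ← mul_assoc, ← mul_pow]
            norm_num
        _ ≤ 2 ^ k * |s - t| := by gcongr
    have h3 : |Real.pi * 2 ^ k * (s - t) / 2| ≤ Real.pi / 2 := by
      rw [hx]
      have := Real.pi_pos
      nlinarith
    have h4 := Real.mul_abs_le_abs_sin h3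
    rw [hx] at h4
    have h5 : 2 / Real.pi * (Real.pi * (2 ^ k * |s - t|) / 2) = 2 ^ k * |s - t| := by
      have := Real.pi_pos.ne'
      field_simp
    rw [h5] at h4
    have h6 : 1 ≤ 2 * |Real.sin (Real.pi * 2 ^ k * (s - t) / 2)| := by linarith
    nlinarith
  -- the head
  have hhead : ‖∑ i ∈ Finset.range i₀, D i‖ ≤ 4 / 15 * b ^ k := by
    set x := (2 * b) ^ M with hx
    have hx1 : 1 < x := by linarith
    have h3 : ∀ i ∈ Finset.range i₀, ‖D i‖ ≤ Real.pi * |s - t| * (2 * b) ^ j * x ^ i := by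
      intro i _
      refine (T_diff_lin hb0 _ s t).trans (le_of_eq ?_)
      rw [pow_add, mul_comm i M, pow_mul]
      ring
    refine (norm_sum_le_of_le _ h3).trans ?_
    rw [← Finset.mul_sum, geom_sum_eq hx1.ne']
    have h4 : (x ^ i₀ - 1) / (x - 1) ≤ x ^ i₀ / 15 := by
      have h5 : 0 < x ^ i₀ := by positivity
      rw [div_le_div_iff₀ (by linarith) (by norm_num)]
      nlinarith
    have h6 : (2 * b) ^ j * x ^ i₀ = (2 * b) ^ k := by
      rw [hx, ← pow_mul, ← pow_add, ← hk, mul_comm M i₀]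
    calc Real.pi * |s - t| * (2 * b) ^ j * ((x ^ i₀ - 1) / (x - 1))
        ≤ Real.pi * |s - t| * (2 * b) ^ j * (x ^ i₀ / 15) := by gcongr
      _ = Real.pi * |s - t| * ((2 * b) ^ j * x ^ i₀) / 15 := by ring
      _ = Real.pi * (|s - t| * 2 ^ k) * b ^ k / 15 := by rw [h6, mul_pow]; ring
      _ ≤ 4 * 1 * b ^ k / 15 := by
          have h7 : |s - t| * 2 ^ k ≤ 1 := by
            calc |s - t| * 2 ^ k ≤ (1 / 2 : ℝ) ^ k * 2 ^ k := by gcongr
              _ = 1 := by rw [← mul_pow]; norm_num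
          have h8 : Real.pi ≤ 4 := Real.pi_le_four
          gcongr
      _ = _ := by ring
  -- the tail
  have htail : ‖∑' i, D (i + (i₀ + 1))‖ ≤ 2 / 15 * b ^ k := by
    set q := b ^ M with hqd
    have hq0 : 0 < q := by positivity
    have hq1 : q < 1 := by linarith
    have h3 : HasSum (fun i : ℕ => 2 * b ^ k * q * q ^ i) (2 * b ^ k * q * (1 - q)⁻¹) :=
      (hasSum_geometric_of_lt_one hq0.le hq1).mul_left _
    have h4 : ∀ i : ℕ, ‖D (i + (i₀ + 1))‖ ≤ 2 * b ^ k * q * q ^ i := by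
      intro i
      refine (T_diff_two hb0 _ s t).trans (le_of_eq ?_)
      have : j + (i + (i₀ + 1)) * M = k + (M * (i + 1)) := by
        rw [← hk]
        ring
      rw [this, pow_add, pow_mul, ← hqd]
      ring
    refine (tsum_of_norm_bounded h3 h4).trans ?_
    have h5 : q * (1 - q)⁻¹ ≤ 1 / 15 := by
      rw [← div_eq_mul_inv, div_le_div_iff₀ (by linarith) (by norm_num)]
      linarith
    calc 2 * b ^ k * q * (1 - q)⁻¹ = 2 * b ^ k * (q * (1 - q)⁻¹) := by ring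
      _ ≤ 2 * b ^ k * (1 / 15) := by gcongr
      _ = _ := by ring
  rw [e0, e1]
  have h7 : ‖D i₀‖ ≤ ‖∑ i ∈ Finset.range i₀, D i + D i₀ + ∑' i, D (i + (i₀ + 1))‖ +
      ‖∑ i ∈ Finset.range i₀, D i‖ + ‖∑' i, D (i + (i₀ + 1))‖ := by
    have h8 : D i₀ = (∑ i ∈ Finset.range i₀, D i + D i₀ + ∑' i, D (i + (i₀ + 1))) -
        ∑ i ∈ Finset.range i₀, D i - ∑' i, D (i + (i₀ + 1)) := by ring
    calc ‖D i₀‖ = ‖(∑ i ∈ Finset.range i₀, D i + D i₀ + ∑' i, D (i + (i₀ + 1))) -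
        ∑ i ∈ Finset.range i₀, D i - ∑' i, D (i + (i₀ + 1))‖ := by rw [← h8]
      _ ≤ _ := (norm_sub_le _ _).trans (by
        have := norm_sub_le (∑ i ∈ Finset.range i₀, D i + D i₀ + ∑' i, D (i + (i₀ + 1)))
          (∑ i ∈ Finset.range i₀, D i)
        linarith)
  linarith

/-- Existence of the modulus. -/
theorem exists_M {b : ℝ} (hb0 : 0 < b) (hb1 : b < 1) (hb2 : 1 < 2 * b) :
    ∃ M : ℕ, 0 < M ∧ b ^ M ≤ 1 / 16 ∧ 16 ≤ (2 * b) ^ M := by
  obtain ⟨M1, h1⟩ := exists_pow_lt_of_lt_one (by norm_num : (0 : ℝ) < 1 / 16) hb1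
  obtain ⟨M2, h2⟩ := pow_unbounded_of_one_lt 16 hb2
  refine ⟨max M1 M2 + 1, by omega, ?_, ?_⟩
  · exact (pow_le_pow_of_le_one hb0.le hb1.le (by omega : M1 ≤ max M1 M2 + 1)).trans h1.le
  · exact h2.le.trans (pow_le_pow_right₀ hb2.le (by omega : M2 ≤ max M1 M2 + 1))

end Pool.Agent.V5helper78.KK
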