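import Pool.Agent.V5helper78.KK.Gen
import Pool.Agent.V5helper78.KK.Snow
import Pool.Agent.H023R3.KakGen

set_option autoImplicit false

/-!
# Hoelder continuous probes of finite energy
-/

open MeasureTheory Set Filter Topology ENNReal NNReal Metric

namespace Pool.Agent.V5helper78.KK

/-- Indices of the coordinates of the probe. -/
abbrev Ind (d M : ℕ) : Type := Fin d × Option (Fin M × Bool)

/-- The probe, with coordinates indexed by `Ind d M`. -/
noncomputable def prob0 (b : ℝ) (d M : ℕ) (v : Fin d → ℝ) : Ind d M → ℝ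
  | (i, none) => v i
  | (i, some (j, true)) => (F b M j (v i)).re
  | (i, some (j, false)) => (F b M j (v i)).im

/-- Number of coordinates. -/
noncomputable def nc (d M : ℕ) : ℕ := Fintype.card (Ind d M)

/-- The probe. -/
noncomputable def prob (b : ℝ) (d M : ℕ) (v : Fin d → ℝ) (n : Fin (nc d M)) : ℝ :=
  prob0 b d M v ((Fintype.equivFin (Ind d M)).symm n)

theorem prob_cont {b : ℝ} (hb0 : 0 < b) (hb1 : b < 1) {M : ℕ} (hM : 0 < M) (d : ℕ) :
    Continuous (prob b d M) := by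
  refine continuous_pi (fun n => ?_)
  unfold prob
  generalize (Fintype.equivFin (Ind d M)).symm n = x
  rcases x with ⟨i, _ | ⟨j, _ | _⟩⟩
  · exact continuous_apply i
  · exact Complex.continuous_im.comp ((F_cont hb0 hb1 hM j).comp (continuous_apply i))
  · exact Complex.continuous_re.comp ((F_cont hb0 hb1 hM j).comp (continuous_apply i))

theorem prob_holder {b H : ℝ} (hb0 : 0 < b) (hb1 : b < 1) (hH0 : 0 < H) (hH1 : H ≤ 1)
    (hbH : b * 2 ^ H < 1) {M : ℕ} (hM : 0 < M) (d : ℕ) {v w : Fin d → ℝ} (h : dist v w ≤ 1) :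
    dist (prob b d M v) (prob b d M w) ≤
      (1 + 2 * Real.pi ^ H / (1 - (b * 2 ^ H) ^ M)) * dist v w ^ H := by
  have hq : (b * 2 ^ H) ^ M < 1 := pow_lt_one₀ (by positivity) hbH hM.ne'
  set A := 2 * Real.pi ^ H / (1 - (b * 2 ^ H) ^ M) with hA
  have hA0 : 0 ≤ A := div_nonneg (by positivity) (by linarith)
  have hd0 : 0 ≤ dist v w ^ H := Real.rpow_nonneg dist_nonneg _
  rw [dist_pi_le_iff (by positivity)]
  intro n
  unfold prob
  generalize (Fintype.equivFin (Ind d M)).symm n = x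
  have hF : ∀ (j : ℕ) (i : Fin d), ‖F b M j (v i) - F b M j (w i)‖ ≤ A * dist v w ^ H := by
    intro j i
    refine (F_holder hb0 hb1 hH0.le hH1 hbH hM j (v i) (w i)).trans ?_
    have h1 : |v i - w i| ≤ dist v w := by
      rw [← Real.dist_eq]
      exact dist_le_pi_dist v w i
    gcongr
  rcases x with ⟨i, _ | ⟨j, _ | _⟩⟩
  · show dist (v i) (w i) ≤ _
    calc dist (v i) (w i) ≤ dist v w ^ (1 : ℝ) := by
          rw [Real.rpow_one]
          exact dist_le_pi_dist v w i
      _ ≤ dist v w ^ H := Real.rpow_le_rpow_of_exponent_ge' dist_nonneg h hH0.le hH1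
      _ ≤ _ := by nlinarith
  · show dist (F b M j (v i)).im (F b M j (w i)).im ≤ _
    rw [Real.dist_eq, ← Complex.sub_im]
    refine (Complex.abs_im_le_norm _).trans ((hF j i).trans ?_)
    nlinarith
  · show dist (F b M j (v i)).re (F b M j (w i)).re ≤ _
    rw [Real.dist_eq, ← Complex.sub_re]
    refine (Complex.abs_re_le_norm _).trans ((hF j i).trans ?_)
    nlinarith

theorem prob_low {γ : ℝ} (hγ0 : 0 < γ) (hγ1 : γ ≤ 1) {M : ℕ} (hM : 0 < M)
    (hb1 : (1 / 2 : ℝ) ^ γ < 1) (hq : ((1 / 2 : ℝ) ^ γ) ^ M ≤ 1 / 16)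
    (hq' : 16 ≤ (2 * (1 / 2 : ℝ) ^ γ) ^ M) {d : ℕ} (v w : Fin d → ℝ) (i : Fin d) :
    |v i - w i| ^ γ / 4 ≤ dist (prob ((1 / 2 : ℝ) ^ γ) d M v) (prob ((1 / 2 : ℝ) ^ γ) d M w) := by
  set b : ℝ := (1 / 2 : ℝ) ^ γ with hb
  have hb0 : 0 < b := by positivity
  have hcoord : ∀ x : Ind d M, dist (prob0 b d M v x) (prob0 b d M w x) ≤
      dist (prob b d M v) (prob b d M w) := by
    intro x
    have h1 := dist_le_pi_dist (prob b d M v) (prob b d M w) (Fintype.equivFin (Ind d M) x)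
    unfold prob at h1 ⊢
    simpa using h1
  rcases le_or_gt |v i - w i| 1 with h1 | h1
  · rcases eq_or_lt_of_le (abs_nonneg (v i - w i)) with h0 | h0
    · rw [← h0, Real.zero_rpow hγ0.ne', zero_div]
      exact dist_nonneg
    · obtain ⟨k, hk1, hk2⟩ := exists_nat_pow_near_of_lt_one h0 h1 (by norm_num : (0 : ℝ) < 1 / 2)
        (by norm_num)
      have h2 := F_low hb0 hb1 hM hq hq' hk1.le hk2
      have h3 : |v i - w i| ^ γ ≤ b ^ k := by
        calc |v i - w i| ^ γ ≤ ((1 / 2 : ℝ) ^ k) ^ γ := by gcongr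
          _ = b ^ k := by
            rw [hb, ← Real.rpow_natCast, ← Real.rpow_mul (by norm_num), ← Real.rpow_natCast,
              ← Real.rpow_mul (by norm_num), mul_comm]
      set z := F b M (k % M) (v i) - F b M (k % M) (w i) with hz
      have h4 := Complex.norm_le_abs_re_add_abs_im z
      have h5 : |z.re| ≤ dist (prob b d M v) (prob b d M w) := by
        have := hcoord (i, some (⟨k % M, Nat.mod_lt _ hM⟩, true))
        rw [Real.dist_eq] at this
        exact this
      have h6 : |z.im| ≤ dist (prob b d M v) (prob b d M w) := by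
        have := hcoord (i, some (⟨k % M, Nat.mod_lt _ hM⟩, false))
        rw [Real.dist_eq] at this
        exact this
      linarith
  · have h2 := hcoord (i, none)
    rw [Real.dist_eq] at h2
    have h3 : |v i - w i| ≤ dist (prob b d M v) (prob b d M w) := h2
    have h4 : |v i - w i| ^ γ ≤ |v i - w i| := by
      calc |v i - w i| ^ γ ≤ |v i - w i| ^ (1 : ℝ) :=
            Real.rpow_le_rpow_of_exponent_le h1.le hγ1
        _ = _ := Real.rpow_one _
    linarith

/-- A lower Hoelder bound in every coordinate implies finite energy. -/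
theorem energy_fin {d m : ℕ} {ψ : (Fin d → ℝ) → Fin m → ℝ} {γ c : ℝ} (hγ0 : 0 < γ)
    (hγ1 : γ < 1) (hc : 0 < c)
    (hlow : ∀ v w : Fin d → ℝ, ∀ i, c * |v i - w i| ^ γ ≤ dist (ψ v) (ψ w)) (N : ℝ) :
    energy ψ N ≠ ∞ := by
  obtain ⟨D, hD, h2⟩ := Pool.Agent.H023R3.KG.one_dim hγ0 hγ1 N
  set c' : ℝ≥0∞ := (ENNReal.ofReal c)⁻¹ with hc'
  have hc't : c' ≠ ∞ := ENNReal.inv_ne_top.2 (by simpa using hc)
  have hk : ∀ v w : Fin d → ℝ, (edist (ψ v) (ψ w) ^ d)⁻¹ ≤
      ∏ i, (c' * (ENNReal.ofReal |v i - w i|) ^ (-γ)) := by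
    intro v w
    have h3 : ∏ i : Fin d, (ENNReal.ofReal c * (ENNReal.ofReal |v i - w i|) ^ γ) ≤
        edist (ψ v) (ψ w) ^ d := by
      calc ∏ i : Fin d, (ENNReal.ofReal c * (ENNReal.ofReal |v i - w i|) ^ γ)
          ≤ ∏ _i : Fin d, edist (ψ v) (ψ w) := by
            apply Finset.prod_le_prod'
            intro i _
            rw [ENNReal.ofReal_rpow_of_nonneg (abs_nonneg _) hγ0.le, ← ENNReal.ofReal_mul hc.le,
              edist_dist]
            exact ENNReal.ofReal_le_ofReal (hlow v w i)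
        _ = _ := by rw [Finset.prod_const, Finset.card_univ, Fintype.card_fin]
    calc (edist (ψ v) (ψ w) ^ d)⁻¹
        ≤ (∏ i : Fin d, (ENNReal.ofReal c * (ENNReal.ofReal |v i - w i|) ^ γ))⁻¹ :=
          ENNReal.inv_le_inv.2 h3
      _ = ∏ i : Fin d, (ENNReal.ofReal c * (ENNReal.ofReal |v i - w i|) ^ γ)⁻¹ := by
          apply ENNReal.prod_inv_distrib
          intro i _ j _ _
          right
          exact ENNReal.mul_ne_top ENNReal.ofReal_ne_top
            (ENNReal.rpow_ne_top_of_nonneg hγ0.le ENNReal.ofReal_ne_top)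
      _ = _ := by
          apply Finset.prod_congr rfl
          intro i _
          rw [ENNReal.mul_inv (Or.inr (ENNReal.rpow_ne_top_of_nonneg hγ0.le ENNReal.ofReal_ne_top))
            (Or.inl ENNReal.ofReal_ne_top), ENNReal.rpow_neg]
  have hsing : ∀ z : ℝ, ∫⁻ u, (ENNReal.ofReal |z - u|) ^ (-γ) ∂(nu N) ≤ D := by
    intro z
    have h3 := h2 z (-1)
    simp only [abs_neg, abs_one, ENNReal.ofReal_one, ENNReal.one_rpow, mul_one] at h3
    refine le_trans (le_of_eq ?_) h3
    unfold nu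
    apply lintegral_congr
    intro u
    congr 3
    ring
  have hnud : nud d N = Measure.pi (fun _ => nu N) := by
    unfold nud nu
    rw [volume_pi, Measure.restrict_pi_pi]
  have hin : ∀ v : Fin d → ℝ, ∫⁻ w, (edist (ψ v) (ψ w) ^ d)⁻¹ ∂(nud d N) ≤ (c' * D) ^ d := by
    intro v
    have hmi : ∀ i : Fin d, Measurable (fun u : ℝ => c' * (ENNReal.ofReal |v i - u|) ^ (-γ)) := by
      intro i
      refine Measurable.const_mul ?_ _
      refine Measurable.pow_const ?_ _
      fun_prop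
    calc ∫⁻ w, (edist (ψ v) (ψ w) ^ d)⁻¹ ∂(nud d N)
        ≤ ∫⁻ w : Fin d → ℝ, ∏ i, (c' * (ENNReal.ofReal |v i - w i|) ^ (-γ)) ∂(nud d N) :=
          lintegral_mono (fun w => hk v w)
      _ = ∏ i, ∫⁻ u, c' * (ENNReal.ofReal |v i - u|) ^ (-γ) ∂(nu N) := by
          rw [hnud]
          exact Pool.Agent.H023R3.KG.lint_prod (nu N) d
            (fun i u => c' * (ENNReal.ofReal |v i - u|) ^ (-γ)) hmi
      _ ≤ ∏ _i : Fin d, (c' * D) := by
          apply Finset.prod_le_prod'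
          intro i _
          rw [lintegral_const_mul' _ _ hc't]
          exact mul_le_mul' le_rfl (hsing _)
      _ = (c' * D) ^ d := by rw [Finset.prod_const, Finset.card_univ, Fintype.card_fin]
  have hfin : energy ψ N ≤ (c' * D) ^ d * nud d N univ := by
    unfold energy
    calc ∫⁻ v, ∫⁻ w, (edist (ψ v) (ψ w) ^ d)⁻¹ ∂(nud d N) ∂(nud d N)
        ≤ ∫⁻ _, (c' * D) ^ d ∂(nud d N) := lintegral_mono hin
      _ = _ := lintegral_const _
  exact ne_top_of_le_ne_top (ENNReal.mul_ne_top (ENNReal.pow_ne_top (ENNReal.mul_ne_top hc't hD))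
    (measure_ne_top _ _)) hfin

/-- **Existence of Hoelder probes of finite energy.** -/
theorem exists_prob (d : ℕ) {H : ℝ} (hH0 : 0 < H) (hH1 : H < 1) :
    ∃ (m : ℕ) (ψ : (Fin d → ℝ) → Fin m → ℝ) (A : ℝ), Continuous ψ ∧
      (∀ v w, dist v w ≤ 1 → dist (ψ v) (ψ w) ≤ A * dist v w ^ H) ∧
      ∀ N : ℝ, energy ψ N ≠ ∞ := by
  set γ := (1 + H) / 2 with hγ
  have hγ0 : 0 < γ := by rw [hγ]; linarith
  have hγ1 : γ < 1 := by rw [hγ]; linarith
  have hHγ : H < γ := by rw [hγ]; linarith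
  set b : ℝ := (1 / 2 : ℝ) ^ γ with hb
  have hb0 : 0 < b := by positivity
  have hb1 : b < 1 := Real.rpow_lt_one (by norm_num) (by norm_num) hγ0
  have hb2 : 1 < 2 * b := by
    have h1 : (1 / 2 : ℝ) ^ (1 : ℝ) < (1 / 2 : ℝ) ^ γ :=
      Real.rpow_lt_rpow_of_exponent_gt (by norm_num) (by norm_num) hγ1
    rw [Real.rpow_one] at h1
    linarith
  have hbH : b * 2 ^ H < 1 := by
    have h1 : b = 2 ^ (-γ) := by
      rw [hb, one_div, Real.inv_rpow (by norm_num), Real.rpow_neg (by norm_num)]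
    rw [h1, ← Real.rpow_add (by norm_num)]
    exact Real.rpow_lt_one_of_one_lt_of_neg (by norm_num) (by linarith)
  obtain ⟨M, hM, hq, hq'⟩ := exists_M hb0 hb1 hb2
  refine ⟨nc d M, prob b d M, _, prob_cont hb0 hb1 hM d,
    fun v w h => prob_holder hb0 hb1 hH0 hH1.le hbH hM d h, ?_⟩
  intro N
  refine energy_fin (γ := γ) (c := 1 / 4) hγ0 hγ1 (by norm_num) ?_ N
  intro v w i
  have := prob_low hγ0 hγ1.le hM hb1 hq hq' v w i
  rw [← hb] at this
  linarith

end Pool.Agent.V5helper78.KK
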