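import Pool.Agent.V5helper78.KK.Dyad

set_option autoImplicit false

/-!
# Asymmetric saw functions and a rough selection
-/

open MeasureTheory Set Filter Topology

namespace Pool.Agent.V5helper78.KK

/-- Asymmetric saw: slope `1` on most of the period. -/
noncomputable def saw (m : ℕ) (x : ℝ) : ℝ := min (Int.fract x) ((2 ^ m - 1) * (1 - Int.fract x))

/-- Slope of the saw. -/
noncomputable def slo (m : ℕ) (x : ℝ) : ℝ := if Int.fract x < 1 - (1 / 2) ^ m then 1 else -(2 ^ m - 1)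

theorem two_pow_ge (m : ℕ) : (1 : ℝ) ≤ 2 ^ m := one_le_pow₀ (by norm_num)

theorem saw_nonneg (m : ℕ) (x : ℝ) : 0 ≤ saw m x := by
  have h1 := Int.fract_nonneg x
  have h2 := Int.fract_lt_one x
  have h3 := two_pow_ge m
  exact le_min h1 (mul_nonneg (by linarith) (by linarith))

theorem saw_le_one (m : ℕ) (x : ℝ) : saw m x ≤ 1 :=
  (min_le_left _ _).trans (Int.fract_lt_one x).le

theorem saw_lip (m : ℕ) (x y : ℝ) : |saw m x - saw m y| ≤ 2 ^ m * |x - y| := by
  wlog hxy : x ≤ y generalizing x y with H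
  · rw [abs_sub_comm, abs_sub_comm x y]
    exact H y x (le_of_not_ge hxy)
  have h3 := two_pow_ge m
  have hd : |x - y| = y - x := by rw [abs_sub_comm, abs_of_nonneg (by linarith)]
  rw [hd]
  by_cases hf : ⌊x⌋ = ⌊y⌋
  · have e1 : Int.fract y - Int.fract x = y - x := by
      rw [Int.fract, Int.fract, hf]
      ring
    have e2 : |Int.fract x - Int.fract y| = y - x := by
      rw [abs_sub_comm, e1, abs_of_nonneg (by linarith)]
    have e3 : |(2 ^ m - 1) * (1 - Int.fract x) - (2 ^ m - 1) * (1 - Int.fract y)| ≤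
        2 ^ m * (y - x) := by
      have : (2 ^ m - 1) * (1 - Int.fract x) - (2 ^ m - 1) * (1 - Int.fract y) =
          (2 ^ m - 1) * (y - x) := by rw [← e1]; ring
      rw [this, abs_of_nonneg (mul_nonneg (by linarith) (by linarith))]
      nlinarith
    have e4 : |Int.fract x - Int.fract y| ≤ 2 ^ m * (y - x) := by
      rw [e2]; nlinarith
    exact (abs_min_sub_min_le_max _ _ _ _).trans (max_le e4 e3)
  · have hlt : ⌊x⌋ < ⌊y⌋ := lt_of_le_of_ne (Int.floor_le_floor hxy) hf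
    have h4 : (⌊x⌋ : ℝ) + 1 ≤ ⌊y⌋ := by exact_mod_cast hlt
    have h5 : (⌊y⌋ : ℝ) ≤ y := Int.floor_le y
    have h6 : x < (⌊x⌋ : ℝ) + 1 := Int.lt_floor_add_one x
    have h7 : saw m x ≤ 2 ^ m * (y - x) := by
      calc saw m x ≤ (2 ^ m - 1) * (1 - Int.fract x) := min_le_right _ _
        _ ≤ 2 ^ m * (1 - Int.fract x) := by
            have := Int.fract_lt_one x
            nlinarith
        _ = 2 ^ m * ((⌊x⌋ : ℝ) + 1 - x) := by rw [Int.fract]; ring
        _ ≤ 2 ^ m * (y - x) := by gcongr; linarith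
    have h8 : saw m y ≤ 2 ^ m * (y - x) := by
      calc saw m y ≤ Int.fract y := min_le_left _ _
        _ = y - ⌊y⌋ := rfl
        _ ≤ 1 * (y - x) := by linarith
        _ ≤ 2 ^ m * (y - x) := by gcongr
    rw [abs_le]
    constructor
    · linarith [saw_nonneg m x]
    · linarith [saw_nonneg m y]

theorem saw_good {m : ℕ} {x : ℝ} (h : Int.fract x < 1 - (1 / 2) ^ m) : saw m x = Int.fract x := by
  unfold saw
  apply min_eq_left
  have h1 : (2 : ℝ) ^ m * (1 / 2) ^ m = 1 := by rw [← mul_pow]; norm_num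
  have h2 : (0 : ℝ) < 2 ^ m := by positivity
  have h3 : 2 ^ m * Int.fract x < 2 ^ m * (1 - (1 / 2) ^ m) := by gcongr
  nlinarith

theorem saw_bad {m : ℕ} {x : ℝ} (h : ¬ Int.fract x < 1 - (1 / 2) ^ m) :
    saw m x = (2 ^ m - 1) * (1 - Int.fract x) := by
  unfold saw
  apply min_eq_right
  have h1 : (2 : ℝ) ^ m * (1 / 2) ^ m = 1 := by rw [← mul_pow]; norm_num
  have h2 : (0 : ℝ) < 2 ^ m := by positivity
  have h3 : 2 ^ m * (1 - (1 / 2) ^ m) ≤ 2 ^ m * Int.fract x := by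
    gcongr
    exact not_lt.1 h
  nlinarith

theorem good_iff {m : ℕ} {x : ℝ} : Int.fract x < 1 - (1 / 2) ^ m ↔
    ⌊(2 : ℝ) ^ m * x⌋ < 2 ^ m * ⌊x⌋ + 2 ^ m - 1 := by
  rw [Int.floor_lt]
  push_cast
  have h1 : (2 : ℝ) ^ m * (1 / 2) ^ m = 1 := by rw [← mul_pow]; norm_num
  have h2 : (0 : ℝ) < 2 ^ m := by positivity
  constructor
  · intro h
    have h3 : 2 ^ m * Int.fract x < 2 ^ m * (1 - (1 / 2) ^ m) := by gcongr
    rw [Int.fract] at h3
    nlinarith
  · intro h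
    rw [Int.fract]
    by_contra hcon
    push Not at hcon
    have h3 : 2 ^ m * (1 - (1 / 2) ^ m) ≤ 2 ^ m * (x - ⌊x⌋) := by gcongr
    nlinarith

theorem saw_affine {m : ℕ} {x y : ℝ} (h : ⌊(2 : ℝ) ^ m * x⌋ = ⌊(2 : ℝ) ^ m * y⌋) :
    saw m y - saw m x = slo m x * (y - x) := by
  have h0 : ⌊x⌋ = ⌊y⌋ := by
    have := floor_nest (Nat.zero_le m) h
    simpa using this
  have hiff : Int.fract x < 1 - (1 / 2) ^ m ↔ Int.fract y < 1 - (1 / 2) ^ m := by
    rw [good_iff, good_iff, h, h0]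
  by_cases hx : Int.fract x < 1 - (1 / 2) ^ m
  · rw [saw_good hx, saw_good (hiff.1 hx), slo, if_pos hx, Int.fract, Int.fract, h0]
    ring
  · rw [saw_bad hx, saw_bad (fun hy => hx (hiff.2 hy)), slo, if_neg hx, Int.fract, Int.fract, h0]
    ring

section series

variable {d : ℕ} (Δ : ℕ → Fin d → Fin d → ℝ) (W : ℕ → ℕ)

/-- Levels. -/
def lev (l : ℕ) : ℕ := ∑ i ∈ Finset.range (l + 1), (i + 1) * (W i + 2 * i + 3)

/-- Fine levels. -/
def fin (l : ℕ) : ℕ := lev W l + (l + 1)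

theorem lev_succ (l : ℕ) : lev W (l + 1) = lev W l + (l + 2) * (W (l + 1) + 2 * (l + 1) + 3) := by
  unfold lev
  rw [Finset.sum_range_succ]

theorem lev_ge (l : ℕ) : (l + 1) * (W l + 2 * l + 3) ≤ lev W l := by
  unfold lev
  rw [Finset.sum_range_succ]
  exact Nat.le_add_left _ _

theorem lev_mono : Monotone (lev W) := by
  apply monotone_nat_of_le_succ
  intro l
  rw [lev_succ]
  exact Nat.le_add_right _ _

theorem fin_mono : Monotone (fin W) := by
  intro a b h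
  have := lev_mono W h
  unfold fin
  omega

theorem fin_ge (l : ℕ) : l ≤ fin W l := by
  unfold fin
  omega

/-- One summand. -/
noncomputable def term (l : ℕ) (v : Fin d → ℝ) (i : Fin d) : ℝ :=
  (1 / 2) ^ lev W l * ∑ j, Δ l i j * saw (l + 1) (2 ^ lev W l * v j)

/-- **The rough selection.** -/
noncomputable def rough (v : Fin d → ℝ) (i : Fin d) : ℝ := ∑' l, term Δ W l v i

variable (hW : ∀ l i, ∑ j, |Δ l i j| ≤ 2 ^ W l)

include hW

theorem term_le (l : ℕ) (v : Fin d → ℝ) (i : Fin d) :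
    |term Δ W l v i| ≤ (1 / 2) ^ lev W l * 2 ^ W l := by
  unfold term
  rw [abs_mul, abs_of_pos (by positivity : (0 : ℝ) < (1 / 2) ^ lev W l)]
  gcongr
  calc |∑ j, Δ l i j * saw (l + 1) (2 ^ lev W l * v j)|
      ≤ ∑ j, |Δ l i j * saw (l + 1) (2 ^ lev W l * v j)| := Finset.abs_sum_le_sum_abs _ _
    _ ≤ ∑ j, |Δ l i j| := by
        apply Finset.sum_le_sum
        intro j _
        rw [abs_mul, abs_of_nonneg (saw_nonneg _ _)]
        have := saw_le_one (l + 1) (2 ^ lev W l * v j)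
        have := abs_nonneg (Δ l i j)
        nlinarith
    _ ≤ _ := hW l i

theorem term_le2 (l k : ℕ) (v : Fin d → ℝ) (i : Fin d) :
    |term Δ W (l + (k + 1)) v i| ≤ (1 / 2) ^ fin W k * (1 / 2) ^ (k + 4) * (1 / 2) ^ l := by
  refine (term_le Δ W hW _ v i).trans ?_
  have h1 : fin W k + (k + 4) + l + W (l + (k + 1)) ≤ lev W (l + (k + 1)) := by
    have h2 : lev W (l + (k + 1)) = lev W (l + k) + (l + k + 2) * (W (l + k + 1) + 2 * (l + k + 1) + 3) :=
      lev_succ W (l + k)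
    have h3 : lev W k ≤ lev W (l + k) := lev_mono W (by omega)
    have h4 : (l + k + 2) * (W (l + k + 1) + 2 * (l + k + 1) + 3) ≥
        1 * (W (l + k + 1) + 2 * (l + k + 1) + 3) := Nat.mul_le_mul_right _ (by omega)
    have h5 : W (l + (k + 1)) = W (l + k + 1) := by rw [← add_assoc]
    rw [h2, h5]
    unfold fin
    omega
  have h6 : (1 / 2 : ℝ) ^ lev W (l + (k + 1)) ≤
      (1 / 2) ^ (fin W k + (k + 4) + l + W (l + (k + 1))) :=
    pow_le_pow_of_le_one (by norm_num) (by norm_num) h1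
  calc (1 / 2 : ℝ) ^ lev W (l + (k + 1)) * 2 ^ W (l + (k + 1))
      ≤ (1 / 2) ^ (fin W k + (k + 4) + l + W (l + (k + 1))) * 2 ^ W (l + (k + 1)) := by gcongr
    _ = (1 / 2) ^ fin W k * (1 / 2) ^ (k + 4) * (1 / 2) ^ l *
        ((1 / 2) ^ W (l + (k + 1)) * 2 ^ W (l + (k + 1))) := by
        rw [pow_add, pow_add, pow_add]
        ring
    _ = _ := by
        rw [← mul_pow]
        norm_num

theorem term_summable (v : Fin d → ℝ) (i : Fin d) : Summable (fun l => term Δ W l v i) := by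
  rw [← summable_nat_add_iff 1]
  have h1 : Summable (fun l : ℕ => (1 / 2 : ℝ) ^ fin W 0 * (1 / 2) ^ (0 + 4) * (1 / 2) ^ l) :=
    (summable_geometric_of_lt_one (by norm_num) (by norm_num)).mul_left _
  refine Summable.of_norm_bounded h1 ?_
  intro l
  rw [Real.norm_eq_abs]
  exact term_le2 Δ W hW l 0 v i

theorem tail_le (k : ℕ) (v : Fin d → ℝ) (i : Fin d) :
    |∑' l, term Δ W (l + (k + 1)) v i| ≤ (1 / 2) ^ fin W k * (1 / 2) ^ (k + 3) := by
  have h1 : HasSum (fun l : ℕ => (1 / 2 : ℝ) ^ fin W k * (1 / 2) ^ (k + 4) * (1 / 2) ^ l)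
      ((1 / 2 : ℝ) ^ fin W k * (1 / 2) ^ (k + 4) * 2) := by
    have := hasSum_geometric_two
    exact this.mul_left _
  have h2 := tsum_of_norm_bounded h1 (fun l => by
    rw [Real.norm_eq_abs]
    exact term_le2 Δ W hW l k v i)
  rw [Real.norm_eq_abs] at h2
  refine h2.trans (le_of_eq ?_)
  rw [pow_succ (1 / 2 : ℝ) (k + 3)]
  ring

/-- The slope matrix at level `k`. -/
noncomputable def slm (k : ℕ) (v : Fin d → ℝ) (i j : Fin d) : ℝ :=
  ∑ l ∈ Finset.range (k + 1), Δ l i j * slo (l + 1) (2 ^ lev W l * v j)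

/-- **Local affine structure.** -/
theorem rough_local {k : ℕ} {v w : Fin d → ℝ} (h : idx (fin W k) v = idx (fin W k) w) (i : Fin d) :
    |rough Δ W w i - rough Δ W v i - ∑ j, slm Δ W k v i j * (w j - v j)| ≤
      (1 / 2) ^ fin W k * (1 / 2) ^ k := by
  have e1 : ∀ u : Fin d → ℝ, rough Δ W u i = ∑ l ∈ Finset.range (k + 1), term Δ W l u i +
      ∑' l, term Δ W (l + (k + 1)) u i := by
    intro u
    exact (Summable.sum_add_tsum_nat_add' ((summable_nat_add_iff (k + 1)).2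
      (term_summable Δ W hW u i))).symm
  have e2 : ∀ l ∈ Finset.range (k + 1), term Δ W l w i - term Δ W l v i =
      ∑ j, Δ l i j * slo (l + 1) (2 ^ lev W l * v j) * (w j - v j) := by
    intro l hl
    have hlk : l ≤ k := by
      rw [Finset.mem_range] at hl
      omega
    unfold term
    rw [← mul_sub, ← Finset.sum_sub_distrib, Finset.mul_sum]
    apply Finset.sum_congr rfl
    intro j _
    have h1 : ⌊(2 : ℝ) ^ (l + 1) * (2 ^ lev W l * v j)⌋ = ⌊(2 : ℝ) ^ (l + 1) * (2 ^ lev W l * w j)⌋ := by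
      have h2 : ⌊(2 : ℝ) ^ fin W l * v j⌋ = ⌊(2 : ℝ) ^ fin W l * w j⌋ :=
        floor_nest (fin_mono W hlk) (congrFun h j)
      have h3 : ∀ z : ℝ, (2 : ℝ) ^ (l + 1) * (2 ^ lev W l * z) = 2 ^ fin W l * z := by
        intro z
        unfold fin
        rw [pow_add]
        ring
      rw [h3, h3, h2]
    rw [← mul_sub, saw_affine h1]
    have h4 : (1 / 2 : ℝ) ^ lev W l * 2 ^ lev W l = 1 := by rw [← mul_pow]; norm_num
    calc (1 / 2 : ℝ) ^ lev W l * (Δ l i j * (slo (l + 1) (2 ^ lev W l * v j) *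
          (2 ^ lev W l * w j - 2 ^ lev W l * v j)))
        = ((1 / 2 : ℝ) ^ lev W l * 2 ^ lev W l) *
          (Δ l i j * slo (l + 1) (2 ^ lev W l * v j) * (w j - v j)) := by ring
      _ = _ := by rw [h4, one_mul]
  have e3 : ∑ j, slm Δ W k v i j * (w j - v j) =
      ∑ l ∈ Finset.range (k + 1), (term Δ W l w i - term Δ W l v i) := by
    rw [Finset.sum_congr rfl e2, Finset.sum_comm]
    apply Finset.sum_congr rfl
    intro j _
    rw [slm, Finset.sum_mul]
  rw [e3, e1 w, e1 v, Finset.sum_sub_distrib]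
  have e4 : ∑ l ∈ Finset.range (k + 1), term Δ W l w i + ∑' l, term Δ W (l + (k + 1)) w i -
      (∑ l ∈ Finset.range (k + 1), term Δ W l v i + ∑' l, term Δ W (l + (k + 1)) v i) -
      (∑ l ∈ Finset.range (k + 1), term Δ W l w i - ∑ l ∈ Finset.range (k + 1), term Δ W l v i) =
      (∑' l, term Δ W (l + (k + 1)) w i) - ∑' l, term Δ W (l + (k + 1)) v i := by ring
  rw [e4]
  have h5 := tail_le Δ W hW k w i
  have h6 := tail_le Δ W hW k v i
  calc |(∑' l, term Δ W (l + (k + 1)) w i) - ∑' l, term Δ W (l + (k + 1)) v i|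
      ≤ |∑' l, term Δ W (l + (k + 1)) w i| + |∑' l, term Δ W (l + (k + 1)) v i| := abs_sub _ _
    _ ≤ (1 / 2) ^ fin W k * (1 / 2) ^ (k + 3) + (1 / 2) ^ fin W k * (1 / 2) ^ (k + 3) :=
        add_le_add h5 h6
    _ = (1 / 2) ^ fin W k * (1 / 2) ^ k * (1 / 4) := by rw [pow_add]; ring
    _ ≤ (1 / 2) ^ fin W k * (1 / 2) ^ k * 1 := by gcongr; norm_num
    _ = _ := mul_one _

theorem term_lip (l : ℕ) (v w : Fin d → ℝ) (i : Fin d) :
    |term Δ W l v i - term Δ W l w i| ≤ 2 ^ W l * 2 ^ (l + 1) * dist v w := by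
  unfold term
  rw [← mul_sub, ← Finset.sum_sub_distrib, abs_mul,
    abs_of_pos (by positivity : (0 : ℝ) < (1 / 2) ^ lev W l)]
  have h4 : (1 / 2 : ℝ) ^ lev W l * 2 ^ lev W l = 1 := by rw [← mul_pow]; norm_num
  have h1 : |∑ j, (Δ l i j * saw (l + 1) (2 ^ lev W l * v j) -
      Δ l i j * saw (l + 1) (2 ^ lev W l * w j))| ≤
      2 ^ W l * (2 ^ (l + 1) * (2 ^ lev W l * dist v w)) := by
    calc |∑ j, (Δ l i j * saw (l + 1) (2 ^ lev W l * v j) -
          Δ l i j * saw (l + 1) (2 ^ lev W l * w j))|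
        ≤ ∑ j, |Δ l i j * saw (l + 1) (2 ^ lev W l * v j) -
          Δ l i j * saw (l + 1) (2 ^ lev W l * w j)| := Finset.abs_sum_le_sum_abs _ _
      _ ≤ ∑ j, |Δ l i j| * (2 ^ (l + 1) * (2 ^ lev W l * dist v w)) := by
          apply Finset.sum_le_sum
          intro j _
          rw [← mul_sub, abs_mul]
          gcongr
          refine (saw_lip _ _ _).trans ?_
          rw [← mul_sub, abs_mul, abs_of_pos (by positivity : (0 : ℝ) < 2 ^ lev W l)]
          gcongr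
          rw [← Real.dist_eq]
          exact dist_le_pi_dist v w j
      _ = (∑ j, |Δ l i j|) * (2 ^ (l + 1) * (2 ^ lev W l * dist v w)) := by rw [Finset.sum_mul]
      _ ≤ _ := by
          have := hW l i
          gcongr
  calc (1 / 2 : ℝ) ^ lev W l * |∑ j, (Δ l i j * saw (l + 1) (2 ^ lev W l * v j) -
      Δ l i j * saw (l + 1) (2 ^ lev W l * w j))|
      ≤ (1 / 2 : ℝ) ^ lev W l * (2 ^ W l * (2 ^ (l + 1) * (2 ^ lev W l * dist v w))) := by gcongr
    _ = ((1 / 2 : ℝ) ^ lev W l * 2 ^ lev W l) * (2 ^ W l * 2 ^ (l + 1) * dist v w) := by ring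
    _ = _ := by rw [h4, one_mul]

theorem term_diff_le (l : ℕ) (v w : Fin d → ℝ) (i : Fin d) :
    |term Δ W l v i - term Δ W l w i| ≤ 2 * ((1 / 2) ^ lev W l * 2 ^ W l) := by
  have h1 := term_le Δ W hW l v i
  have h2 := term_le Δ W hW l w i
  have := abs_sub (term Δ W l v i) (term Δ W l w i)
  linarith

theorem term_holder {H : ℝ} (hH0 : 0 ≤ H) (hH1 : H ≤ 1) (l : ℕ) (v w : Fin d → ℝ) (i : Fin d) :
    |term Δ W l v i - term Δ W l w i| ≤
      2 ^ (W l + (l + 1)) * ((1 / 2 : ℝ) ^ lev W l) ^ (1 - H) * dist v w ^ H := by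
  set x := dist v w with hx
  have hx0 : 0 ≤ x := dist_nonneg
  set y : ℝ := (1 / 2 : ℝ) ^ lev W l with hy
  have hy0 : 0 < y := by positivity
  have hl : (2 : ℝ) ≤ 2 ^ (l + 1) := by
    calc (2 : ℝ) = 2 ^ 1 := by norm_num
      _ ≤ 2 ^ (l + 1) := pow_le_pow_right₀ (by norm_num) (by omega)
  have hWp : (0 : ℝ) < 2 ^ W l := by positivity
  rcases le_total x y with h | h
  · calc |term Δ W l v i - term Δ W l w i| ≤ 2 ^ W l * 2 ^ (l + 1) * x := term_lip Δ W hW l v w i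
      _ = 2 ^ (W l + (l + 1)) * (x ^ (1 - H) * x ^ H) := by
          rw [← Real.rpow_add_of_nonneg hx0 (by linarith) hH0]
          simp [pow_add]
      _ ≤ 2 ^ (W l + (l + 1)) * (y ^ (1 - H) * x ^ H) := by
          have : x ^ (1 - H) ≤ y ^ (1 - H) := Real.rpow_le_rpow hx0 h (by linarith)
          have : 0 ≤ x ^ H := Real.rpow_nonneg hx0 _
          gcongr
      _ = _ := by ring
  · calc |term Δ W l v i - term Δ W l w i| ≤ 2 * (y * 2 ^ W l) := term_diff_le Δ W hW l v w i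
      _ ≤ 2 ^ (l + 1) * (y * 2 ^ W l) := by gcongr
      _ = 2 ^ (W l + (l + 1)) * (y ^ (1 - H) * y ^ H) := by
          rw [← Real.rpow_add_of_nonneg hy0.le (by linarith) hH0]
          simp [pow_add]
          ring
      _ ≤ 2 ^ (W l + (l + 1)) * (y ^ (1 - H) * x ^ H) := by
          have : y ^ H ≤ x ^ H := Real.rpow_le_rpow hy0.le h hH0
          have : 0 ≤ y ^ (1 - H) := Real.rpow_nonneg hy0.le _
          gcongr
      _ = _ := by ring

omit hW in
theorem holder_summable {H : ℝ} (hH1 : H < 1) :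
    Summable (fun l : ℕ => 2 ^ (W l + (l + 1)) * ((1 / 2 : ℝ) ^ lev W l) ^ (1 - H)) := by
  obtain ⟨L, hL⟩ := exists_nat_ge (1 / (1 - H))
  rw [← summable_nat_add_iff L]
  refine Summable.of_nonneg_of_le (fun l => by positivity) ?_
    (summable_geometric_of_lt_one (by norm_num : (0 : ℝ) ≤ 1 / 2) (by norm_num))
  intro l
  have h1 : 1 ≤ (1 - H) * ((l + L : ℕ) + 1 : ℝ) := by
    have h2 : 1 / (1 - H) * (1 - H) ≤ L * (1 - H) := by
      have : 0 ≤ 1 - H := by linarith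
      gcongr
    rw [one_div_mul_cancel (by linarith)] at h2
    push_cast
    have h3 : 0 ≤ (l : ℝ) := Nat.cast_nonneg l
    nlinarith
  have h4 : ((1 / 2 : ℝ) ^ lev W (l + L)) ^ (1 - H) ≤
      (1 / 2 : ℝ) ^ (W (l + L) + (l + L + 1) + l) := by
    rw [← Real.rpow_natCast, ← Real.rpow_mul (by norm_num),
      ← Real.rpow_natCast (1 / 2) (W (l + L) + (l + L + 1) + l)]
    apply Real.rpow_le_rpow_of_exponent_ge (by norm_num) (by norm_num)
    have h5 : (((l + L + 1) * (W (l + L) + 2 * (l + L) + 3) : ℕ) : ℝ) ≤ (lev W (l + L) : ℝ) := by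
      exact_mod_cast lev_ge W (l + L)
    push_cast at h5 h1 ⊢
    have h6 : 0 ≤ (W (l + L) : ℝ) := Nat.cast_nonneg _
    have h7 : 0 ≤ (l : ℝ) := Nat.cast_nonneg _
    have h8 : 0 ≤ (L : ℝ) := Nat.cast_nonneg _
    calc (W (l + L) : ℝ) + (l + L + 1) + l ≤ 1 * (W (l + L) + 2 * (l + L) + 3) := by linarith
      _ ≤ ((1 - H) * (l + L + 1)) * (W (l + L) + 2 * (l + L) + 3) := by gcongr
      _ = (l + L + 1) * (W (l + L) + 2 * (l + L) + 3) * (1 - H) := by ring
      _ ≤ lev W (l + L) * (1 - H) := by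
          have : 0 ≤ 1 - H := by linarith
          gcongr
  calc 2 ^ (W (l + L) + (l + L + 1)) * ((1 / 2 : ℝ) ^ lev W (l + L)) ^ (1 - H)
      ≤ 2 ^ (W (l + L) + (l + L + 1)) * (1 / 2 : ℝ) ^ (W (l + L) + (l + L + 1) + l) := by gcongr
    _ = (2 ^ (W (l + L) + (l + L + 1)) * (1 / 2 : ℝ) ^ (W (l + L) + (l + L + 1))) * (1 / 2) ^ l := by
        rw [pow_add (1 / 2 : ℝ)]
        ring
    _ = (1 / 2) ^ l := by
        rw [← mul_pow]
        norm_num

/-- **The rough selection is `H`-Hoelder for every `H < 1`.** -/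
theorem rough_holder {H : ℝ} (hH0 : 0 ≤ H) (hH1 : H < 1) : ∃ A : ℝ, 0 ≤ A ∧
    ∀ v w : Fin d → ℝ, dist (rough Δ W v) (rough Δ W w) ≤ A * dist v w ^ H := by
  have hs := holder_summable W hH1
  refine ⟨∑' l : ℕ, 2 ^ (W l + (l + 1)) * ((1 / 2 : ℝ) ^ lev W l) ^ (1 - H),
    tsum_nonneg (fun l => by positivity), ?_⟩
  intro v w
  have h0 : 0 ≤ dist v w ^ H := Real.rpow_nonneg dist_nonneg _
  have hA : 0 ≤ ∑' l : ℕ, 2 ^ (W l + (l + 1)) * ((1 / 2 : ℝ) ^ lev W l) ^ (1 - H) :=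
    tsum_nonneg (fun l => by positivity)
  rw [dist_pi_le_iff (mul_nonneg hA h0)]
  intro i
  rw [Real.dist_eq]
  unfold rough
  rw [← (term_summable Δ W hW v i).tsum_sub (term_summable Δ W hW w i)]
  have h1 := hs.hasSum.mul_right (dist v w ^ H)
  have h2 := tsum_of_norm_bounded h1 (fun l => by
    rw [Real.norm_eq_abs]
    exact term_holder Δ W hW hH0 hH1.le l v w i)
  rw [Real.norm_eq_abs] at h2
  exact h2

end series

end Pool.Agent.V5helper78.KK
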